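import Pool.Agent.TH122.AB.Lin

/-!
The final statements.
-/

set_option autoImplicit false
set_option linter.overlappingInstances false

open FF IntermediateField Pool.Agent.W603.LV Pool.Agent.W602.GT Pool.Agent.W602.Cov
open Pool.Agent.W602.Cov.Cover Pool.Agent.W602.Cov.G Pool.Agent.TH152.AC

namespace Pool.Agent.TH122.AB

variable {n q r : ℕ} {K : Type} [Field K] [Algebra ℂ K]

theorem nu_le' (hn : 1 ≤ n) (X : Cover n q r) (hF : X.Free) {x : Fin (n + 1) → K} {y : Fin r → K}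
    (hK : X.FunctionField K x y) {c : Fin (n + 2) → Fin q} (hc : General X.ℓ c)
    (hcal : Calabi X c) : Pool.Agent.W619.TW.NumLe ℂ K n (fun _ => False) 0 := by
  obtain ⟨n, rfl⟩ : ∃ n', n = n' + 1 := ⟨n - 1, by omega⟩
  exact nu_le X hF hK hc hcal

theorem trichotomy (hn : 1 ≤ n) (X : Cover n q r) (hF : X.Free) {x : Fin (n + 1) → K}
    {y : Fin r → K} (hK : X.FunctionField K x y) (h : Mult X (n + 2)) :
    (Reducible X.ℓ ∧ Ruled ℂ K ∧ ¬ Psef ℂ K n (fun _ => False)) ∨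
      (¬ Reducible X.ℓ ∧ (∃ c, General X.ℓ c ∧ Calabi X c) ∧
        KodGe ℂ K n (fun _ => False) 0 ∧
        Pool.Agent.W619.TW.NumLe ℂ K n (fun _ => False) 0) ∨
      (¬ Reducible X.ℓ ∧ (¬ ∃ c, General X.ℓ c ∧ Calabi X c) ∧ GeneralType ℂ K n) := by
  classical
  have ht := tfae hn X hF hK h
  obtain ⟨h1, h2, h3⟩ := coords X hK
  by_cases hr : Reducible X.ℓ
  · exact Or.inl ⟨hr, (ht.out 3 2).1 hr, (ht.out 3 1).1 hr⟩
  right
  by_cases hcy : ∃ c, General X.ℓ c ∧ Calabi X c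
  · left
    obtain ⟨c, hc, hcal⟩ := hcy
    refine ⟨hr, ⟨c, hc, hcal⟩, ?_, nu_le' hn X hF hK hc hcal⟩
    by_contra hk
    exact hr ((ht.out 0 3).1 hk)
  · refine Or.inr ⟨hr, hcy, ?_⟩
    by_cases hg : ∃ c, General X.ℓ c
    · obtain ⟨c, hc⟩ := hg
      have hcal : ¬ Calabi X c := fun hcal => hcy ⟨c, hc, hcal⟩
      unfold Calabi at hcal
      push Not at hcal
      obtain ⟨j0, k, hk⟩ := hcal
      refine general_of_circuit hc h1 h2 h3 (fun P _ => highAt_of_mult X hF hK h P) j0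
        fun P _ a v hord hsp hv1 hv2 => hk ?_
      obtain ⟨-, h4⟩ := compat X hF hK h1 P a v hord hsp
      have h5 : ∀ i, X.e k i * (if ∃ t : ℂ, X.ℓ i = t • X.ℓ (c j0) then n + 2 else 0) =
          X.e k i * v i := by
        intro i
        by_cases hi : ∃ t : ℂ, X.ℓ i = t • X.ℓ (c j0)
        · rw [if_pos hi, hv1 i hi]
        · rw [if_neg hi, hv2 i hi]
      rw [Finset.sum_congr rfl fun i _ => h5 i]
      exact h4 k
    · exact general_of_strict hn X.hℓ hr hg h1 h2 h3 fun P _ => highAt_of_mult X hF hK h P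

theorem over_general_strict (hn : 1 ≤ n) {ℓ : Fin q → Form n} (hℓ : ∀ i, ℓ i ≠ 0)
    (hr : ¬ Reducible ℓ) (hg : ¬ ∃ c, General ℓ c) {x : Fin (n + 1) → K} (hx0 : x 0 ≠ 0)
    (hbas : IsTranscendenceBasis ℂ (fun j : Fin n => x j.succ / x 0))
    (h : MultOver ℓ x (n + 2)) : GeneralType ℂ K n :=
  general_of_strict hn hℓ hr hg (fun i => lf_ne hx0 hbas.1 (hℓ i)) hx0 hbas fun _ hP =>
    highAt_of_multOver (Pool.Agent.W392.CG.span_top hn ℓ hr)
      (fun i => lf_ne hx0 hbas.1 (hℓ i)) h hP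

end Pool.Agent.TH122.AB
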