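import Pool.Agent.TH122.AB.Crit

/-!
General type for arrangements of `n + 2` hyperplanes in general position.
-/

set_option autoImplicit false

open FF Pool.Agent.W603.LV Pool.Agent.W602.GT Pool.Agent.W602.Cov Pool.Agent.W602.Cov.G
open Pool.Agent.W168.CG.PGR Pool.Agent.TH152.AC

namespace Pool.Agent.TH122.AB

variable {n q : ℕ} {ℓ : Fin q → Form n} {K : Type} [Field K] [Algebra ℂ K]

theorem lf_smul (t : ℂ) (φ : Form n) (x : Fin (n + 1) → K) :
    lf (t • φ) x = algebraMap ℂ K t * lf φ x := by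
  unfold lf
  rw [Finset.mul_sum]
  refine Finset.sum_congr rfl fun j _ => ?_
  rw [LinearMap.smul_apply, smul_eq_mul, map_mul, mul_assoc]

theorem ord_par {x : Fin (n + 1) → K} {i i' : Fin q} (hi' : lf (ℓ i') x ≠ 0) {t : ℂ}
    (ht : ℓ i = t • ℓ i') (hi : lf (ℓ i) x ≠ 0) (P : Place ℂ K) :
    P.ord (lf (ℓ i) x) = P.ord (lf (ℓ i') x) := by
  have ht0 : t ≠ 0 := by
    rintro rfl
    apply hi
    rw [ht, lf_smul, map_zero, zero_mul]
  have ht1 : algebraMap ℂ K t ≠ 0 := by
    rw [Ne, map_eq_zero]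
    exact ht0
  rw [ht, lf_smul, P.ord_mul ht1 hi', P.ord_const ht0, zero_add]

/-- the bases of the arrangement -/
def gb {c : Fin (n + 2) → Fin q} (hc : General ℓ c) (j : Fin (n + 2)) : Bases ℓ :=
  ⟨fun a => c (j.succAbove a), hc.1 j⟩

theorem general_of_circuit {c : Fin (n + 2) → Fin q} (hc : General ℓ c)
    {x : Fin (n + 1) → K} (hlx : ∀ i, lf (ℓ i) x ≠ 0) (hx0 : x 0 ≠ 0)
    (hbas : IsTranscendenceBasis ℂ (fun j : Fin n => x j.succ / x 0))
    (hP : ∀ P : Place ℂ K, Divisorial n P → HighAt ℓ x (n + 2) P) (j0 : Fin (n + 2))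
    (hj0 : ∀ P : Place ℂ K, Divisorial n P → ∀ (a : ℤ) (v : Fin q → ℕ),
      (∀ i, P.ord (lf (ℓ i) x) = a + v i) → Submodule.span ℂ (ℓ '' {i | v i ≠ 0}) ≠ ⊤ →
      (∀ i, (∃ t : ℂ, ℓ i = t • ℓ (c j0)) → v i = n + 2) →
      (∀ i, (¬ ∃ t : ℂ, ℓ i = t • ℓ (c j0)) → v i = 0) → False) :
    GeneralType ℂ K n := by
  classical
  have hspan : Submodule.span ℂ (Set.range ℓ) = ⊤ := by
    rw [eq_top_iff, ← (bas (gb hc 0)).span_eq]
    apply Submodule.span_mono
    rintro _ ⟨a, rfl⟩
    rw [bas_apply]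
    exact ⟨_, rfl⟩
  let pj : Fin (n + 2) → ℕ := fun j => if j = j0 then n + 2 else n + 3
  have hpj : ∀ j, n + 2 ≤ pj j := by
    intro j
    simp only [pj]
    split_ifs <;> omega
  have hsumpj : ∑ j, pj j + 1 = (n + 2) * (n + 3) := by
    rw [Fin.sum_univ_succAbove _ j0]
    have h1 : ∀ a, pj (j0.succAbove a) = n + 3 := by
      intro a
      simp only [pj, if_neg (Fin.succAbove_ne j0 a)]
    simp only [h1, Finset.sum_const, Finset.card_univ, Fintype.card_fin, smul_eq_mul]
    simp only [pj, if_true]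
    ring
  let p : Bases ℓ → ℕ := fun B => ∑ j, if B = gb hc j then pj j else 0
  have hsum : ∀ g : Bases ℓ → ℕ, ∑ B, p B * g B = ∑ j, pj j * g (gb hc j) := by
    intro g
    simp only [p, Finset.sum_mul]
    rw [Finset.sum_comm]
    refine Finset.sum_congr rfl fun j _ => ?_
    rw [Finset.sum_eq_single (gb hc j)]
    · rw [if_pos rfl]
    · intro B _ hB
      rw [if_neg hB, zero_mul]
    · intro h
      exact absurd (Finset.mem_univ _) h
  have hsum1 : ∑ B, p B = ∑ j, pj j := by
    have := hsum fun _ => 1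
    simpa using this
  refine general_of_crit hspan hlx hx0 hbas p ?_ ?_
  · rw [hsum1]
    exact Finset.sum_pos (fun j _ => by have := hpj j; omega) ⟨j0, Finset.mem_univ _⟩
  · intro P hPd a v hv hv0 hsp
    have hpar : ∀ i j, (∃ t : ℂ, ℓ i = t • ℓ (c j)) → v i = v (c j) := by
      rintro i j ⟨t, ht⟩
      have h1 := ord_par (hlx (c j)) ht (hlx i) P
      rw [hv, hv] at h1
      omega
    -- some hyperplane does not contain the centre
    obtain ⟨j1, hj1⟩ : ∃ j, v (c j) = 0 := by
      by_contra hcon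
      push Not at hcon
      apply hsp
      rw [eq_top_iff, ← (bas (gb hc 0)).span_eq]
      apply Submodule.span_mono
      rintro _ ⟨a, rfl⟩
      rw [bas_apply]
      exact ⟨_, hcon _, rfl⟩
    set U : ℕ := ∑ j, v (c j) with hU
    have hUj : ∀ j, (∑ a, v ((gb hc j).1 a)) + v (c j) = U := by
      intro j
      rw [hU, Fin.sum_univ_succAbove _ j, add_comm]
      rfl
    have hB1 : ∑ a, v ((gb hc j1).1 a) = U := by
      have := hUj j1
      omega
    have hmain : (∑ j, pj j * ∑ a, v ((gb hc j).1 a)) + ∑ j, pj j * v (c j) =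
        (∑ j, pj j) * U := by
      rw [← Finset.sum_add_distrib, Finset.sum_mul]
      refine Finset.sum_congr rfl fun j _ => ?_
      rw [← mul_add, hUj]
    obtain ⟨i1, hi1⟩ := hP P hPd a v hv hv0 hsp
    obtain ⟨js, hjs⟩ := hc.2 i1
    have hjs' : n + 2 ≤ v (c js) := by
      rw [← hpar i1 js hjs]
      exact hi1
    have hge1 : ∀ j, pj j * v (c j) ≤ ∑ j, pj j * v (c j) := fun j =>
      Finset.single_le_sum (f := fun j => pj j * v (c j)) (fun _ _ => Nat.zero_le _)
        (Finset.mem_univ j)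
    have hkey : (n + 2) * (n + 3) ≤ ∑ j, pj j * v (c j) := by
      by_cases hex : ∃ j, j ≠ js ∧ v (c j) ≠ 0
      · obtain ⟨j2, hj2, hj2'⟩ := hex
        have h1 : pj js * v (c js) + pj j2 * v (c j2) ≤ ∑ j, pj j * v (c j) := by
          rw [← Finset.add_sum_erase Finset.univ _ (Finset.mem_univ js)]
          refine Nat.add_le_add_left ?_ _
          exact Finset.single_le_sum (f := fun j => pj j * v (c j)) (fun _ _ => Nat.zero_le _)
            (Finset.mem_erase.2 ⟨hj2, Finset.mem_univ j2⟩)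
        refine le_trans ?_ h1
        have h2 := hpj js
        have h3 := hpj j2
        have h4 : (n + 2) * (n + 2) ≤ pj js * v (c js) := Nat.mul_le_mul h2 hjs'
        have h5 : (n + 2) * 1 ≤ pj j2 * v (c j2) := Nat.mul_le_mul h3 (by omega)
        nlinarith
      · push Not at hex
        refine le_trans ?_ (hge1 js)
        by_cases hjj : js = j0
        · have h6 : v (c js) ≠ n + 2 := by
            intro h7
            refine hj0 P hPd a v hv hsp (fun i hi => ?_) (fun i hi => ?_)
            · rw [hpar i j0 hi, ← hjj, h7]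
            · obtain ⟨j, hj⟩ := hc.2 i
              have hjne : j ≠ js := by
                rintro rfl
                exact hi (hjj ▸ hj)
              rw [hpar i j hj]
              exact hex j hjne
          have h7 : n + 3 ≤ v (c js) := by omega
          exact Nat.mul_le_mul (hpj js) h7
        · have h6 : pj js = n + 3 := by simp only [pj, if_neg hjj]
          rw [h6, mul_comm (n + 2)]
          exact Nat.mul_le_mul_left _ hjs'
    refine ⟨gb hc j1, ?_, fun i => ?_⟩
    · rw [hsum, hsum1, hB1]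
      rw [← hmain]
      omega
    · rw [hsum, hsum1, hB1, ← hmain]
      obtain ⟨j, hj⟩ := hc.2 i
      have h1 := hge1 j
      rw [hpar i j hj]
      have h2 : 1 * v (c j) ≤ pj j * v (c j) := Nat.mul_le_mul_right _ (by have := hpj j; omega)
      omega

end Pool.Agent.TH122.AB
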