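import Pool.Agent.TH122.AB.Strict

/-!
Weights on the bases of an arrangement with strict slack.
-/

set_option autoImplicit false

open Pool.Agent.W602.Cov Pool.Agent.TH152.AC Module

namespace Pool.Agent.TH122.AB

/-- A finite game with integral payoff, strict form. -/
theorem game_strict {I J : Type*} [Fintype I] [Fintype J] (A : I → J → ℤ)
    (h : ∀ y : J → ℚ, (∀ j, 0 ≤ y j) → y ≠ 0 → ∃ i, 0 < ∑ j, y j * A i j) :
    ∃ p : I → ℕ, ∀ j, 0 < ∑ i, (p i : ℤ) * A i j := by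
  classical
  let e := Fintype.equivFin (J ⊕ I)
  let L : J ⊕ I → ((J → ℚ) →ₗ[ℚ] ℚ) := Sum.elim
    (fun j => -(LinearMap.proj j))
    (fun i => ∑ j, (A i j : ℚ) • (LinearMap.proj j : (J → ℚ) →ₗ[ℚ] ℚ))
  have hL1 : ∀ j y, L (Sum.inl j) y = - y j := by
    intro j y
    simp [L]
  have hL2 : ∀ i y, L (Sum.inr i) y = ∑ j, y j * A i j := by
    intro i y
    simp [L, mul_comm]
  obtain ⟨w, hw, hf⟩ := farkas_q (Fintype.card (J ⊕ I)) (fun k => L (e.symm k))
    (∑ j, (LinearMap.proj j : (J → ℚ) →ₗ[ℚ] ℚ)) (by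
      intro y hy
      have hy' : ∀ k, L k y ≤ 0 := fun k => by simpa using hy (e k)
      by_cases hy0 : y = 0
      · rw [hy0, map_zero]
      · obtain ⟨i, hi⟩ := h y (fun j => by
          have := hy' (Sum.inl j)
          rw [hL1] at this
          linarith) hy0
        have := hy' (Sum.inr i)
        rw [hL2] at this
        linarith)
  have hf' : ∀ y : J → ℚ, ∑ j, y j = (∑ j, w (e (Sum.inl j)) * (- y j)) +
      ∑ i, w (e (Sum.inr i)) * (∑ j, y j * A i j) := by
    intro y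
    have h1 := hf y
    rw [← Equiv.sum_comp e] at h1
    simp only [Equiv.symm_apply_apply, Fintype.sum_sum_type, hL1, hL2, LinearMap.sum_apply,
      LinearMap.proj_apply] at h1
    exact h1
  have h2 : ∀ j, 1 ≤ ∑ i, w (e (Sum.inr i)) * (A i j : ℚ) := by
    intro j
    have h3 := hf' (Pi.single j 1)
    have e1 : ∑ j', w (e (Sum.inl j')) * (- (Pi.single j (1 : ℚ) : J → ℚ) j') =
        - w (e (Sum.inl j)) := by
      rw [Finset.sum_eq_single j]
      · simp
      · intro j' _ hj'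
        rw [Pi.single_eq_of_ne hj']
        simp
      · intro hj
        exact absurd (Finset.mem_univ _) hj
    have e2 : ∀ i, ∑ j', (Pi.single j (1 : ℚ) : J → ℚ) j' * (A i j' : ℚ) = A i j := by
      intro i
      rw [Finset.sum_eq_single j]
      · simp
      · intro j' _ hj'
        rw [Pi.single_eq_of_ne hj', zero_mul]
      · intro hj
        exact absurd (Finset.mem_univ _) hj
    have e3 : ∑ j', (Pi.single j (1 : ℚ) : J → ℚ) j' = 1 := by
      rw [Finset.sum_eq_single j]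
      · simp
      · intro j' _ hj'
        rw [Pi.single_eq_of_ne hj']
      · intro hj
        exact absurd (Finset.mem_univ _) hj
    rw [e1, e3] at h3
    simp only [e2] at h3
    have := hw (e (Sum.inl j))
    linarith
  -- clear the denominators
  let dd : ℕ := ∏ i, (w (e (Sum.inr i))).den
  have hdd : 0 < dd := Finset.prod_pos fun i _ => (w (e (Sum.inr i))).den_pos
  have hint : ∀ i, ∃ m : ℕ, (m : ℚ) = w (e (Sum.inr i)) * dd := by
    intro i
    obtain ⟨c, hc⟩ : (w (e (Sum.inr i))).den ∣ dd := Finset.dvd_prod_of_mem _ (Finset.mem_univ i)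
    refine ⟨(w (e (Sum.inr i))).num.toNat * c, ?_⟩
    have hnum : 0 ≤ (w (e (Sum.inr i))).num := Rat.num_nonneg.2 (hw _)
    have e3 : (((w (e (Sum.inr i))).num.toNat : ℕ) : ℚ) = (w (e (Sum.inr i))).num := by
      have : (((w (e (Sum.inr i))).num.toNat : ℕ) : ℤ) = (w (e (Sum.inr i))).num :=
        Int.toNat_of_nonneg hnum
      exact_mod_cast congrArg (fun z : ℤ => (z : ℚ)) this
    rw [hc]
    push_cast
    rw [e3, ← mul_assoc, Rat.mul_den_eq_num]
  choose p hp using hint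
  refine ⟨p, fun j => ?_⟩
  have h3 : ((∑ i, (p i : ℤ) * A i j : ℤ) : ℚ) = (∑ i, w (e (Sum.inr i)) * (A i j : ℚ)) * dd := by
    push_cast
    rw [Finset.sum_mul]
    refine Finset.sum_congr rfl fun i _ => ?_
    rw [hp i]
    ring
  have h4 : (0 : ℚ) < ((∑ i, (p i : ℤ) * A i j : ℤ) : ℚ) := by
    rw [h3]
    have h5 : (0 : ℚ) < dd := by exact_mod_cast hdd
    have h6 := h2 j
    exact mul_pos (by linarith) h5
  exact_mod_cast h4

variable {n q : ℕ} {ℓ : Fin q → Form n}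

theorem dual_strict (hn : 1 ≤ n) (hℓ : ∀ i, ℓ i ≠ 0) (hr : ¬ Reducible ℓ)
    (hG : ¬ ∃ c, General ℓ c) (y : {F // Proper ℓ F} → ℚ) (hy : ∀ F, 0 ≤ y F) (hy0 : y ≠ 0) :
    ∃ B : Bases ℓ, 0 < ∑ F, y F * (pay ℓ B F : ℚ) := by
  classical
  obtain ⟨B1⟩ := exists_bases (Pool.Agent.W392.CG.span_top hn ℓ hr)
  let w : Fin q → ℚ := fun i => ∑ F : {F // Proper ℓ F}, y F * (if i ∈ F.1 then 1 else 0)
  obtain ⟨B, -, hB⟩ := Finset.exists_min_image (Finset.univ : Finset (Bases ℓ))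
    (fun B => ∑ a, w (B.1 a)) ⟨B1, Finset.mem_univ _⟩
  refine ⟨B, ?_⟩
  -- the inequality for a system of exchanges
  have hkey : ∀ T : Finset (Fin (n + 1) × Fin q), (∀ p ∈ T, (bas B).repr (ℓ p.2) p.1 ≠ 0) →
      ∑ F : {F // Proper ℓ F}, y F *
      ((∑ p ∈ T, ((if B.1 p.1 ∈ F.1 then 1 else 0) - (if p.2 ∈ F.1 then 1 else 0)) : ℤ) : ℚ) ≤ 0 := by
    intro T hT1
    have hmin : ∀ p ∈ T, w (B.1 p.1) ≤ w p.2 := by
      intro p hp
      have h1 := hB ⟨_, update_bases B (hT1 p hp)⟩ (Finset.mem_univ _)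
      rw [sum_update] at h1
      rw [← Finset.add_sum_erase Finset.univ (fun a => w (B.1 a)) (Finset.mem_univ p.1)] at h1
      linarith
    have hsum : ∑ p ∈ T, (w (B.1 p.1) - w p.2) ≤ 0 :=
      Finset.sum_nonpos fun p hp => by linarith [hmin p hp]
    have heq : ∑ p ∈ T, (w (B.1 p.1) - w p.2) = ∑ F : {F // Proper ℓ F}, y F *
        ((∑ p ∈ T, ((if B.1 p.1 ∈ F.1 then 1 else 0) - (if p.2 ∈ F.1 then 1 else 0)) : ℤ) : ℚ) := by
      simp only [w]
      simp_rw [← Finset.sum_sub_distrib, ← mul_sub]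
      rw [Finset.sum_comm]
      refine Finset.sum_congr rfl fun F _ => ?_
      rw [← Finset.mul_sum]
      push_cast
      rfl
    rw [heq] at hsum
    exact hsum
  -- the weak inequality
  have hpayle : ∀ T : Finset (Fin (n + 1) × Fin q), (∀ F : Finset (Fin q), Proper ℓ F →
        1 - ((n : ℤ) + 2) * (finrank ℂ (Submodule.span ℂ (ℓ '' (F : Set (Fin q)))) -
          (Finset.univ.filter fun a => B.1 a ∈ F).card) ≤
        ∑ p ∈ T, (((if B.1 p.1 ∈ F then 1 else 0) : ℤ) - (if p.2 ∈ F then 1 else 0))) →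
      ∀ F : {F // Proper ℓ F}, - (y F * (pay ℓ B F : ℚ)) ≤ y F *
      ((∑ p ∈ T, ((if B.1 p.1 ∈ F.1 then 1 else 0) - (if p.2 ∈ F.1 then 1 else 0)) : ℤ) : ℚ) := by
    intro T hT2 F
    rw [← mul_neg]
    refine mul_le_mul_of_nonneg_left ?_ (hy F)
    have h1 := hT2 F.1 F.2
    have h2 : -pay ℓ B F ≤ ∑ p ∈ T, ((if B.1 p.1 ∈ F.1 then 1 else 0) -
        (if p.2 ∈ F.1 then 1 else 0)) := by
      refine le_trans (le_of_eq ?_) h1
      unfold pay rk cnt
      ring
    exact_mod_cast h2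
  -- some set in the support of `y` is not filled by the basis
  have hex : ∃ F1 : {F // Proper ℓ F}, 0 < y F1 ∧
      (Finset.univ.filter fun a => B.1 a ∈ F1.1).card <
        finrank ℂ (Submodule.span ℂ (ℓ '' (F1.1 : Set (Fin q)))) := by
    by_contra hcon
    push Not at hcon
    obtain ⟨T, hT1, hT2⟩ := exchange (ℓ := ℓ) (b := bas B) (B := B.1) (bas_apply B) hℓ hr
    have h1 := hkey T hT1
    have h2 := Finset.sum_le_sum fun F (_ : F ∈ (Finset.univ : Finset {F // Proper ℓ F})) =>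
      hpayle T hT2 F
    have h3 : ∀ F : {F // Proper ℓ F}, - (y F * (pay ℓ B F : ℚ)) = y F ∨
        (y F = 0 ∧ - (y F * (pay ℓ B F : ℚ)) = y F) := by
      intro F
      by_cases hF : 0 < y F
      · left
        have h4 : pay ℓ B F = -1 := by
          have h5 := hcon F hF
          have h6 := cnt_le_rk B F.1
          unfold pay
          have h7 : rk ℓ F.1 = cnt B.1 F.1 := le_antisymm h5 h6
          rw [h7]
          ring
        rw [h4]
        push_cast
        ring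
      · right
        have h4 : y F = 0 := le_antisymm (not_lt.1 hF) (hy F)
        rw [h4]
        simp
    have h4 : ∑ F : {F // Proper ℓ F}, - (y F * (pay ℓ B F : ℚ)) = ∑ F, y F :=
      Finset.sum_congr rfl fun F _ => by
        rcases h3 F with h | h
        · exact h
        · exact h.2
    rw [h4] at h2
    have h5 : 0 < ∑ F, y F := by
      obtain ⟨F, hF⟩ := Function.ne_iff.1 hy0
      refine Finset.sum_pos' (fun F _ => hy F) ⟨F, Finset.mem_univ _, ?_⟩
      exact lt_of_le_of_ne (hy F) (Ne.symm hF)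
    linarith
  obtain ⟨F1, hF1, hdef⟩ := hex
  obtain ⟨T, hT1, hT2, hT3⟩ := exchange_strict (ℓ := ℓ) (b := bas B) (B := B.1) hn (bas_apply B)
    hℓ hr hG F1.2 hdef
  have h1 := hkey T hT1
  have h2 : ∑ F : {F // Proper ℓ F}, - (y F * (pay ℓ B F : ℚ)) < ∑ F : {F // Proper ℓ F}, y F *
      ((∑ p ∈ T, ((if B.1 p.1 ∈ F.1 then 1 else 0) - (if p.2 ∈ F.1 then 1 else 0)) : ℤ) : ℚ) := by
    refine Finset.sum_lt_sum (fun F _ => hpayle T hT2 F) ⟨F1, Finset.mem_univ _, ?_⟩
    rw [← mul_neg]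
    refine mul_lt_mul_of_pos_left ?_ hF1
    have h3 : -pay ℓ B F1 + 1 ≤ ∑ p ∈ T, ((if B.1 p.1 ∈ F1.1 then 1 else 0) -
        (if p.2 ∈ F1.1 then 1 else 0)) := by
      refine le_trans (le_of_eq ?_) hT3
      unfold pay rk cnt
      ring
    have h4 : -pay ℓ B F1 < ∑ p ∈ T, ((if B.1 p.1 ∈ F1.1 then 1 else 0) -
        (if p.2 ∈ F1.1 then 1 else 0)) := by omega
    exact_mod_cast h4
  rw [Finset.sum_neg_distrib] at h2
  linarith

/-- **The strict slack.** If the arrangement is neither reducible nor in general position with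
`n + 2` hyperplanes, there are weights `p` on the bases such that on average the bases miss each
proper set of hyperplanes more than `1 / (n + 2)` times. -/
theorem weights_strict (hn : 1 ≤ n) (hℓ : ∀ i, ℓ i ≠ 0) (hr : ¬ Reducible ℓ)
    (hG : ¬ ∃ c, General ℓ c) :
    ∃ p : Bases ℓ → ℕ, ∀ F : Finset (Fin q), Proper ℓ F →
      (n + 2) * (∑ B, p B * cnt B.1 F) + ∑ B, p B + 1 ≤ (n + 2) * ((∑ B, p B) * rk ℓ F) := by
  classical
  obtain ⟨p, hp2⟩ := game_strict (pay ℓ) (dual_strict hn hℓ hr hG)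
  refine ⟨p, fun F hF => ?_⟩
  have h1 := hp2 ⟨F, hF⟩
  have h2 : ∑ B, (p B : ℤ) * pay ℓ B ⟨F, hF⟩ = ((n : ℤ) + 2) * ((∑ B, (p B : ℤ)) * rk ℓ F) -
      (((n : ℤ) + 2) * (∑ B, (p B : ℤ) * cnt B.1 F) + ∑ B, (p B : ℤ)) := by
    unfold pay
    rw [Finset.sum_mul, Finset.mul_sum, Finset.mul_sum, ← Finset.sum_add_distrib,
      ← Finset.sum_sub_distrib]
    refine Finset.sum_congr rfl fun B _ => ?_
    ring
  rw [h2] at h1
  have h3 : ((n : ℤ) + 2) * (∑ B, (p B : ℤ) * cnt B.1 F) + ∑ B, (p B : ℤ) + 1 ≤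
      ((n : ℤ) + 2) * ((∑ B, (p B : ℤ)) * rk ℓ F) := by linarith
  exact_mod_cast h3

end Pool.Agent.TH122.AB
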