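import Pool.Agent.TH152.AC.Fin
import Pool.Agent.TH122.AB.Wts

/-!
A criterion for general type, and its application to arrangements with strict slack.
-/

set_option autoImplicit false

open FF Pool.Agent.W603.LV Pool.Agent.W602.GT Pool.Agent.W602.Cov Pool.Agent.W602.Cov.G
open Pool.Agent.W168.CG.PGR Pool.Agent.TH152.AC

namespace Pool.Agent.TH122.AB

variable {n q : ℕ} {ℓ : Fin q → Form n} {K : Type} [Field K] [Algebra ℂ K]

/-- the order of the forms, normalised coordinates -/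
theorem pf_ge (p : Bases ℓ → ℕ) (t : ℕ) {x : Fin (n + 1) → K}
    (hx : ∀ i, lf (ℓ i) x ≠ 0) (P : Place ℂ K) (v : Fin q → ℕ)
    (hord : ∀ i, P.ord (lf (ℓ i) x) = v i) (D : Fin n → Derivation ℂ K K)
    (hD : ∀ i, DerReg P (D i)) (B' : Bases ℓ) :
    Ge P (t * ((∑ B, (p B : ℤ)) * (∑ a, (v (B'.1 a) : ℤ)) - (∑ B, (p B : ℤ)) -
      ∑ B, (p B : ℤ) * ∑ a, (v (B.1 a) : ℤ))) (pf ℓ x p t D) := by
  have hord' := ord_den P hx p t
  simp only [hord] at hord'
  have hbw : Ge P ((∑ a, (v (B'.1 a) : ℤ)) - 1) (bw D x) := by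
    obtain ⟨c, hc⟩ : ∃ c : Matrix (Fin (n + 1)) (Fin (n + 1)) ℂ,
      c = Matrix.of fun a j : Fin (n + 1) => ℓ (B'.1 a) (Pi.single j 1) := ⟨_, rfl⟩
    have hdet : c.det ≠ 0 := by
      rw [hc]
      exact det_ne_zero (m := fun a => ℓ (B'.1 a)) B'.2
    have e1 : bw D (fun a => lf (ℓ (B'.1 a)) x) = algebraMap ℂ K c.det * bw D x := by
      rw [← (bwa n K).2.2 c D x, hc]
      rfl
    have h3 := (reg1 P hD).1 (fun a => lf (ℓ (B'.1 a)) x) (fun a => hx (B'.1 a))
    rw [e1] at h3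
    simp only [hord] at h3
    have h4 := (Ge.const (P := P) (c.det)⁻¹).mul h3
    rw [← mul_assoc, ← map_mul, inv_mul_cancel₀ hdet, map_one, one_mul, zero_add] at h4
    exact_mod_cast h4
  have h5 := ge_div (den_ne hx p t) (hbw.pow (t * ∑ B, p B))
  rw [hord'] at h5
  refine h5.mono (le_of_eq ?_)
  push_cast
  ring

/-- **A criterion for general type.** -/
theorem general_of_crit (hspan : Submodule.span ℂ (Set.range ℓ) = ⊤) {x : Fin (n + 1) → K}
    (hlx : ∀ i, lf (ℓ i) x ≠ 0) (hx0 : x 0 ≠ 0)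
    (hbas : IsTranscendenceBasis ℂ (fun j : Fin n => x j.succ / x 0)) (p : Bases ℓ → ℕ)
    (hp0 : 0 < ∑ B, p B)
    (hcrit : ∀ P : Place ℂ K, Divisorial n P → ∀ (a : ℤ) (v : Fin q → ℕ),
      (∀ i, P.ord (lf (ℓ i) x) = a + v i) → v ≠ 0 → Submodule.span ℂ (ℓ '' {i | v i ≠ 0}) ≠ ⊤ →
      ∃ B' : Bases ℓ, (∑ B, p B * ∑ a, v (B.1 a)) + ∑ B, p B + 1 ≤
          (∑ B, p B) * ∑ a, v (B'.1 a) ∧
        ∀ i, (∑ B, p B * ∑ a, v (B.1 a)) + v i ≤ (∑ B, p B) * ∑ a, v (B'.1 a)) :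
    GeneralType ℂ K n := by
  obtain ⟨B0⟩ := exists_bases hspan
  have i0 : Fin q := B0.1 0
  obtain ⟨t, ht⟩ : ∃ t : ℕ, t = (∑ B, p B) + 1 := ⟨_, rfl⟩
  obtain ⟨D, hD⟩ := (bwb n K).2.2 x hx0 hbas
  have hpf : pf ℓ x p t D ≠ 0 := by
    unfold pf
    exact div_ne_zero (pow_ne_zero _ hD) (den_ne hlx p t)
  refine ⟨trdeg_of_basis hbas, t * ∑ B, p B, Nat.mul_pos (by omega) hp0,
    fun j D => pf ℓ x p t D * x j / lf (ℓ i0) x, ?_, ?_, D, ?_, ?_⟩
  · intro j A D'
    change pf ℓ x p t _ * x j / lf (ℓ i0) x = _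
    rw [pf_pluri x p t A D']
    ring
  · intro P hP j D hD
    change P.Reg (pf ℓ x p t D * x j / lf (ℓ i0) x)
    -- normalise
    obtain ⟨i1, -, hmin⟩ := Finset.exists_min_image Finset.univ (fun i => P.ord (lf (ℓ i) x))
      ⟨i0, Finset.mem_univ _⟩
    obtain ⟨a, ha⟩ : ∃ a, a = P.ord (lf (ℓ i1) x) := ⟨_, rfl⟩
    obtain ⟨v, hvi⟩ : ∃ v : Fin q → ℕ, ∀ i, P.ord (lf (ℓ i) x) = a + v i := by
      refine ⟨fun i => (P.ord (lf (ℓ i) x) - a).toNat, fun i => ?_⟩
      have h3 := hmin i (Finset.mem_univ i)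
      rw [Int.toNat_of_nonneg]
      · ring
      · rw [ha]
        linarith
    have hi1 : v i1 = 0 := by
      have := hvi i1
      omega
    have hxj : ∀ j, Ge P a (x j) := by
      intro j
      have h3 := ge_span P a (Set.range ℓ) x (by
        rintro _ ⟨i, rfl⟩
        right
        rw [hvi i]
        have : (0 : ℤ) ≤ v i := by positivity
        linarith) (LinearMap.proj j) (by rw [hspan]; trivial)
      rwa [lf_proj] at h3
    have hfin : ∀ c : ℤ, Ge P c (pf ℓ x p t D) → (v i0 : ℤ) ≤ c →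
        P.Reg (pf ℓ x p t D * x j / lf (ℓ i0) x) := by
      intro c h3 h4
      have h5 := ge_div (hlx i0) (h3.mul (hxj j))
      rw [hvi i0] at h5
      exact h5.mono (by linarith)
    obtain ⟨π, hπ0, hπ⟩ := P.surj
    have hlam : π ^ (-a) ≠ 0 := zpow_ne_zero _ hπ0
    have hordlam : P.ord (π ^ (-a)) = -a := by rw [P.ord_zpow, hπ, mul_one]
    let x' : Fin (n + 1) → K := fun j => π ^ (-a) * x j
    have hx' : ∀ i, lf (ℓ i) x' ≠ 0 := by
      intro i
      change lf (ℓ i) (fun j => π ^ (-a) * x j) ≠ 0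
      rw [lf_mul]
      exact mul_ne_zero hlam (hlx i)
    have hord' : ∀ i, P.ord (lf (ℓ i) x') = v i := by
      intro i
      change P.ord (lf (ℓ i) (fun j => π ^ (-a) * x j)) = v i
      rw [lf_mul, P.ord_mul hlam (hlx i), hordlam, hvi i]
      ring
    have hscale : pf ℓ x' p t D = pf ℓ x p t D := pf_scale x p t D hlam
    by_cases hv0 : v = 0
    · have hreg : ∀ j, P.Reg (x' j) := by
        intro j
        have h5 : Ge P (-a) (π ^ (-a)) := Or.inr (le_of_eq hordlam.symm)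
        have h6 := h5.mul (hxj j)
        rw [neg_add_cancel] at h6
        exact h6
      have h3 : Ge P 0 (bw D x') := (reg1 P hD).2 x' hreg
      have h4 := ge_div (den_ne hx' p t) (h3.pow (t * ∑ B, p B))
      rw [ord_den P hx' p t] at h4
      simp only [hord', hv0] at h4
      refine hfin 0 ?_ (by rw [hv0]; simp)
      rw [← hscale]
      simpa [pf] using h4
    · have hsp : Submodule.span ℂ (ℓ '' {i | v i ≠ 0}) ≠ ⊤ := by
        intro htop
        have h3 := ge_span P 1 (ℓ '' {i | v i ≠ 0}) x' (by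
          rintro _ ⟨i, hi, rfl⟩
          right
          rw [hord' i]
          have : v i ≠ 0 := hi
          omega) (ℓ i1) (by rw [htop]; trivial)
        rcases h3 with h3 | h3
        · exact hx' i1 h3
        · rw [hord' i1, hi1] at h3
          norm_num at h3
      obtain ⟨B', hB1, hB2⟩ := hcrit P hP a v hvi hv0 hsp
      have h3 := pf_ge p t hx' P v hord' D hD B'
      rw [hscale] at h3
      refine hfin _ h3 ?_
      have hB1' : (∑ B, (p B : ℤ) * ∑ a, (v (B.1 a) : ℤ)) + ∑ B, (p B : ℤ) + 1 ≤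
          (∑ B, (p B : ℤ)) * ∑ a, (v (B'.1 a) : ℤ) := by exact_mod_cast hB1
      have hB2' : (∑ B, (p B : ℤ) * ∑ a, (v (B.1 a) : ℤ)) + v i0 ≤
          (∑ B, (p B : ℤ)) * ∑ a, (v (B'.1 a) : ℤ) := by exact_mod_cast hB2 i0
      have htz : (t : ℤ) = (∑ B, (p B : ℤ)) + 1 := by
        rw [ht]
        push_cast
        ring
      have hPpos : (0 : ℤ) < ∑ B, (p B : ℤ) := by exact_mod_cast hp0
      set PP : ℤ := ∑ B, (p B : ℤ) with hPP
      set S1 : ℤ := ∑ B, (p B : ℤ) * ∑ a, (v (B.1 a) : ℤ) with hS1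
      set S2 : ℤ := ∑ a, (v (B'.1 a) : ℤ) with hS2
      rw [htz]
      have h6 : 0 ≤ PP * (PP * S2 - S1 - PP - 1) := mul_nonneg hPpos.le (by linarith)
      nlinarith
  · change pf ℓ x p t D * x 0 / lf (ℓ i0) x ≠ 0
    exact div_ne_zero (mul_ne_zero hpf hx0) (hlx i0)
  · have h0 := hlx i0
    have e : (fun i : Fin n => pf ℓ x p t D * x i.succ / lf (ℓ i0) x /
        (pf ℓ x p t D * x 0 / lf (ℓ i0) x)) = fun i : Fin n => x i.succ / x 0 := by
      funext i
      field_simp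
    change AlgebraicIndependent ℂ (fun i : Fin n => pf ℓ x p t D * x i.succ / lf (ℓ i0) x /
        (pf ℓ x p t D * x 0 / lf (ℓ i0) x))
    rw [e]
    exact hbas.1

/-- the strict inequality for the orders -/
theorem orders_strict (p : Bases ℓ → ℕ) (hp : ∀ F : Finset (Fin q), Proper ℓ F →
      (n + 2) * (∑ B, p B * cnt B.1 F) + ∑ B, p B + 1 ≤ (n + 2) * ((∑ B, p B) * rk ℓ F))
    (hne : Nonempty (Bases ℓ)) (v : Fin q → ℕ)
    (hv : Submodule.span ℂ (ℓ '' {i | v i ≠ 0}) ≠ ⊤) :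
    ∃ B' : Bases ℓ, ∀ i, (n + 2) * (∑ B, p B * ∑ a, v (B.1 a)) + (∑ B, p B + 1) * v i ≤
      (n + 2) * ((∑ B, p B) * ∑ a, v (B'.1 a)) := by
  classical
  obtain ⟨B1⟩ := hne
  obtain ⟨B', -, hmax⟩ := Finset.exists_max_image (Finset.univ : Finset (Bases ℓ))
    (fun B => ∑ a, v (B.1 a)) ⟨B1, Finset.mem_univ _⟩
  refine ⟨B', fun i0 => ?_⟩
  obtain ⟨T0, hT0⟩ : ∃ T0 : ℕ, ∀ i, v i ≤ T0 :=
    ⟨∑ i, v i, fun i => Finset.single_le_sum (f := v) (fun _ _ => Nat.zero_le _)
      (Finset.mem_univ i)⟩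
  set N := ∑ B, p B with hN
  let F : ℕ → Finset (Fin q) := fun t => Finset.univ.filter fun i => t ≤ v i
  have hFmem : ∀ t i, i ∈ F t ↔ t ≤ v i := by
    intro t i
    simp [F]
  have hclaim : ∀ t ∈ Finset.Icc 1 T0,
      (n + 2) * (∑ B, p B * cnt B.1 (F t)) + (N + 1) * (if t ≤ v i0 then 1 else 0) ≤
        (n + 2) * (N * cnt B'.1 (F t)) := by
    intro t ht
    have ht1 : 1 ≤ t := (Finset.mem_Icc.mp ht).1
    have hfill : rk ℓ (F t) ≤ cnt B'.1 (F t) := fill v B' (fun B => hmax B (Finset.mem_univ _)) t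
    by_cases hti : t ≤ v i0
    · rw [if_pos hti, mul_one]
      have hprop : Proper ℓ (F t) := by
        refine ⟨⟨i0, (hFmem t i0).2 hti⟩, fun htop => hv ?_⟩
        rw [eq_top_iff, ← htop]
        apply Submodule.span_mono
        apply Set.image_mono
        intro i hi
        have hi' : t ≤ v i := (hFmem t i).1 hi
        show v i ≠ 0
        omega
      have h8 := hp (F t) hprop
      have h9 : (n + 2) * (N * rk ℓ (F t)) ≤ (n + 2) * (N * cnt B'.1 (F t)) :=
        Nat.mul_le_mul_left _ (Nat.mul_le_mul_left _ hfill)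
      omega
    · rw [if_neg hti, mul_zero, add_zero]
      refine Nat.mul_le_mul_left _ ?_
      rw [hN, Finset.sum_mul]
      refine Finset.sum_le_sum fun B _ => Nat.mul_le_mul_left _ ((cnt_le_rk B _).trans hfill)
  have hsum := Finset.sum_le_sum hclaim
  have hlay : ∀ B : Bases ℓ, ∑ t ∈ Finset.Icc 1 T0, cnt B.1 (F t) = ∑ a, v (B.1 a) := by
    intro B
    have e1 : ∀ t, cnt B.1 (F t) = ∑ a, (if t ≤ v (B.1 a) then 1 else 0) := by
      intro t
      unfold cnt
      rw [Finset.card_filter]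
      refine Finset.sum_congr rfl fun a _ => ?_
      simp only [hFmem]
    rw [Finset.sum_congr rfl fun t _ => e1 t, Finset.sum_comm]
    exact Finset.sum_congr rfl fun a _ => (layer (v (B.1 a)) T0 (hT0 _)).symm
  rw [Finset.sum_add_distrib, ← Finset.mul_sum, ← Finset.mul_sum, ← Finset.mul_sum,
    ← Finset.mul_sum, hlay B', ← layer (v i0) T0 (hT0 i0), Finset.sum_comm] at hsum
  simp_rw [← Finset.mul_sum, hlay] at hsum
  exact hsum

/-- Multiplicities at least `n + 2` along an arrangement which is neither reducible nor in general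
position with `n + 2` hyperplanes imply general type. -/
theorem general_of_strict (hn : 1 ≤ n) (hℓ : ∀ i, ℓ i ≠ 0) (hr : ¬ Reducible ℓ)
    (hG : ¬ ∃ c, General ℓ c) {x : Fin (n + 1) → K}
    (hlx : ∀ i, lf (ℓ i) x ≠ 0) (hx0 : x 0 ≠ 0)
    (hbas : IsTranscendenceBasis ℂ (fun j : Fin n => x j.succ / x 0))
    (hP : ∀ P : Place ℂ K, Divisorial n P → HighAt ℓ x (n + 2) P) : GeneralType ℂ K n := by
  have hspan := Pool.Agent.W392.CG.span_top hn ℓ hr
  obtain ⟨p, hp⟩ := weights_strict hn hℓ hr hG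
  have hne := exists_bases hspan
  have hpos : 0 < ∑ B, p B := by
    obtain ⟨B0⟩ := hne
    have hprop : Proper ℓ {B0.1 0} := by
      refine ⟨⟨_, Finset.mem_singleton_self _⟩, fun htop => ?_⟩
      have h1 : Module.finrank ℂ (Submodule.span ℂ
          (ℓ '' (({B0.1 0} : Finset (Fin q)) : Set (Fin q)))) = n + 1 := by
        rw [htop, finrank_top, finrank_form]
      rw [Finset.coe_singleton, Set.image_singleton, finrank_span_singleton (hℓ _)] at h1
      omega
    have h1 := hp _ hprop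
    by_contra hcon
    have h2 : ∑ B, p B = 0 := by omega
    rw [h2] at h1
    simp at h1
  refine general_of_crit hspan hlx hx0 hbas (fun B => (n + 2) * p B) ?_ ?_
  · rw [← Finset.mul_sum]
    positivity
  · intro P hPd a v hv hv0 hsp
    obtain ⟨i1, hi1⟩ := hP P hPd a v hv hv0 hsp
    obtain ⟨B', hB'⟩ := orders_strict p hp hne v hsp
    have e1 : ∑ B : Bases ℓ, (n + 2) * p B * ∑ a, v (B.1 a) =
        (n + 2) * ∑ B : Bases ℓ, p B * ∑ a, v (B.1 a) := by
      rw [Finset.mul_sum]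
      exact Finset.sum_congr rfl fun B _ => by ring
    refine ⟨B', ?_, fun i => ?_⟩
    · rw [e1, ← Finset.mul_sum]
      have h1 := hB' i1
      have h2 : (∑ B, p B + 1) * (n + 2) ≤ (∑ B, p B + 1) * v i1 := Nat.mul_le_mul_left _ hi1
      nlinarith
    · rw [e1, ← Finset.mul_sum]
      have h1 := hB' i
      have h2 : 1 * v i ≤ (∑ B, p B + 1) * v i := Nat.mul_le_mul_right _ (by omega)
      nlinarith

end Pool.Agent.TH122.AB
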