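import Pool.Agent.TH122.AB.Plc
import Pool.Agent.W619.PQ.Defs

/-!
The coordinate vector fields at the places of irreducible polynomials and at the place of the
degree.
-/

set_option autoImplicit false
set_option linter.overlappingInstances false
set_option linter.unusedSectionVars false

open FF MvPolynomial Pool.Agent.W603.LV Pool.Agent.W619.PQ

namespace Pool.Agent.TH122.AB

section

variable {k : Type} [Field k] [CharZero k] {K0 K : Type} [Field K0] [Field K] [Algebra k K0]
  [Algebra k K] [Algebra K0 K] [IsScalarTower k K0 K] {n : ℕ}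

theorem der_aeval {Z : Fin n → K} {D : Derivation k K K} {i : Fin n}
    (hD : ∀ j, D (Z j) = if i = j then 1 else 0) (P : MvPolynomial (Fin n) k) :
    D (aeval Z P) = aeval Z (pderiv i P) := by
  classical
  induction P using MvPolynomial.induction_on with
  | C a => rw [aeval_C, D.map_algebraMap, pderiv_C, map_zero]
  | add P Q hP hQ => rw [map_add, map_add, hP, hQ, map_add, map_add]
  | mul_X P j hP =>
    rw [map_mul, aeval_X, D.leibniz, hP, hD, pderiv_mul, map_add, map_mul, map_mul, aeval_X,
      pderiv_X, smul_eq_mul, smul_eq_mul]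
    by_cases hij : i = j
    · subst hij
      rw [if_pos rfl, Pi.single_eq_same, map_one]
      ring
    · rw [if_neg hij, Pi.single_eq_of_ne (Ne.symm hij), map_zero]
      ring

/-- a regular element is a fraction with a denominator prime to `p` -/
theorem frac_of_reg {X : Fin n → K0} (hX : Gens (k := k) X) {p : MvPolynomial (Fin n) k}
    (hp : Irreducible p) {v : Place k K0}
    (hv : ∀ P, P ≠ 0 → 0 ≤ v.ord (aeval X P) ∧ (v.ord (aeval X P) = 0 ↔ ¬ p ∣ P)) {z : K0}
    (hz : v.Reg z) : ∃ P Q : MvPolynomial (Fin n) k, Q ≠ 0 ∧ ¬ p ∣ Q ∧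
      z = aeval X P / aeval X Q := by
  classical
  by_cases hz0 : z = 0
  · refine ⟨0, 1, one_ne_zero, fun h => hp.not_isUnit (isUnit_of_dvd_one h), ?_⟩
    rw [hz0, map_zero, zero_div]
  obtain ⟨P0, Q0, hQ0, hz1⟩ := hX.gen z
  obtain ⟨P, Q, c', hcop, ha, hb⟩ := UniqueFactorizationMonoid.exists_reduced_factors' P0 Q0 hQ0
  have hQ : Q ≠ 0 := by
    rintro rfl
    apply hQ0
    rw [← hb, mul_zero]
  have hc' : c' ≠ 0 := by
    rintro rfl
    apply hQ0
    rw [← hb, zero_mul]
  have hz2 : z = aeval X P / aeval X Q := by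
    have hcX := hX.ne hc'
    rw [hz1, ← ha, ← hb, map_mul, map_mul, mul_div_mul_left _ _ hcX]
  have hP : P ≠ 0 := by
    intro h0
    apply hz0
    rw [hz2, h0, map_zero, zero_div]
  refine ⟨P, Q, hQ, fun hpQ => ?_, hz2⟩
  have hpP : ¬ p ∣ P := fun hpP => hp.not_isUnit (hcop hpP hpQ)
  have h2 := (hv P hP).2.2 hpP
  have h3 : 0 < v.ord (aeval X Q) := by
    have h4 := hv Q hQ
    rcases lt_or_eq_of_le h4.1 with h5 | h5
    · exact h5
    · exact absurd hpQ (h4.2.1 h5.symm)
  rw [v.reg_iff hz0, hz2, v.ord_div (hX.ne hP) (hX.ne hQ), h2] at hz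
  omega

theorem aeval_coe {X : Fin n → K0} (P : MvPolynomial (Fin n) k) :
    aeval (fun j => algebraMap K0 K (X j)) P = algebraMap K0 K (aeval X P) :=
  MvPolynomial.aeval_algebraMap_apply K X P

/-- the derivative of a fraction -/
theorem der_frac {X : Fin n → K0} (hX : Gens (k := k) X) {D : Derivation k K K} {i : Fin n}
    (hD : ∀ j, D (algebraMap K0 K (X j)) = if i = j then 1 else 0) {P Q : MvPolynomial (Fin n) k}
    (hQ : Q ≠ 0) :
    D (algebraMap K0 K (aeval X P / aeval X Q)) =
      algebraMap K0 K (aeval X (pderiv i P * Q - P * pderiv i Q) / aeval X (Q ^ 2)) := by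
  have hQK : algebraMap K0 K (aeval X Q) ≠ 0 := by
    rw [Ne, map_eq_zero]
    exact hX.ne hQ
  have h1 : ∀ R : MvPolynomial (Fin n) k, D (algebraMap K0 K (aeval X R)) =
      algebraMap K0 K (aeval X (pderiv i R)) := by
    intro R
    rw [← aeval_coe, ← aeval_coe]
    exact der_aeval hD R
  rw [map_div₀, div_eq_mul_inv, D.leibniz, D.leibniz_inv, h1, h1, map_div₀, map_sub, map_mul,
    map_mul, map_pow, map_sub, map_mul, map_mul, map_pow]
  simp only [smul_eq_mul]
  field_simp
  ring

/-- the coordinate vector fields are regular at the places of irreducible polynomials -/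
theorem pres_adic {X : Fin n → K0} (hX : Gens (k := k) X) {p : MvPolynomial (Fin n) k}
    (hp : Irreducible p) {v : Place k K0}
    (hv : ∀ P, P ≠ 0 → 0 ≤ v.ord (aeval X P) ∧ (v.ord (aeval X P) = 0 ↔ ¬ p ∣ P))
    {w : Place k K} {e : ℕ} (h : Over w v e) {D : Derivation k K K} {i : Fin n}
    (hD : ∀ j, D (algebraMap K0 K (X j)) = if i = j then 1 else 0) {z : K0} (hz : v.Reg z) :
    w.Reg (D (algebraMap K0 K z)) := by
  obtain ⟨P, Q, hQ, hpQ, rfl⟩ := frac_of_reg hX hp hv hz
  rw [der_frac hX hD hQ]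
  refine h.reg.2 ?_
  rw [div_eq_mul_inv]
  refine v.reg_mul ?_ (Or.inr ?_)
  · by_cases h0 : pderiv i P * Q - P * pderiv i Q = 0
    · rw [h0, map_zero]
      exact v.reg_zero
    · exact Or.inr (hv _ h0).1
  · rw [v.ord_inv, map_pow, v.ord_pow, (hv Q hQ).2.2 hpQ]
    simp

theorem deg_pderiv {P : MvPolynomial (Fin n) k} {i : Fin n} (h : pderiv i P ≠ 0) :
    (pderiv i P).totalDegree + 1 ≤ P.totalDegree := by
  classical
  obtain ⟨m, hm, hmd⟩ : ∃ m ∈ (pderiv i P).support, (pderiv i P).totalDegree =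
      m.sum fun _ e => e := by
    obtain ⟨m, hm, hmd⟩ := Finset.exists_mem_eq_sup (pderiv i P).support
      (support_nonempty.2 h) fun m => m.sum fun _ e => e
    exact ⟨m, hm, hmd⟩
  have h1 : coeff (m + Finsupp.single i 1) P ≠ 0 := by
    intro h0
    rw [mem_support_iff, coeff_pderiv, h0, zero_mul] at hm
    exact hm rfl
  have h2 := le_totalDegree (mem_support_iff.2 h1)
  rw [Finsupp.sum_add_index' (fun _ => rfl) (fun _ _ _ => rfl),
    Finsupp.sum_single_index rfl, ← hmd] at h2
  exact h2

/-- some partial derivative of an irreducible polynomial is not divisible by it -/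
theorem exists_pderiv {p : MvPolynomial (Fin n) k} (hp : Irreducible p) :
    ∃ b : Fin n, pderiv b p ≠ 0 ∧ ¬ p ∣ pderiv b p := by
  classical
  obtain ⟨b, hb⟩ : ∃ b : Fin n, pderiv b p ≠ 0 := by
    by_contra hcon
    push Not at hcon
    -- all monomials are constant
    have h1 : ∀ m ∈ p.support, m = 0 := by
      intro m hm
      ext b
      by_contra hmb
      have hmb' : m b ≠ 0 := hmb
      have h3 : m - Finsupp.single b 1 + Finsupp.single b 1 = m := by
        ext b'
        by_cases hb' : b' = b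
        · subst hb'
          simp
          omega
        · simp [Finsupp.single_apply, Ne.symm hb']
      have h2 := congrArg (coeff (m - Finsupp.single b 1)) (hcon b)
      rw [coeff_zero, coeff_pderiv, h3] at h2
      rcases mul_eq_zero.1 h2 with h4 | h4
      · exact (mem_support_iff.1 hm) h4
      · have h5 : (((m - Finsupp.single b 1 : Fin n →₀ ℕ) b + 1 : ℕ) : k) = 0 := by
          push_cast
          exact h4
        have h6 : ((m - Finsupp.single b 1 : Fin n →₀ ℕ) b + 1 : ℕ) = 0 := by exact_mod_cast h5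
        omega
    have h2 : p.totalDegree = 0 := by
      rw [totalDegree_eq_zero_iff]
      intro m hm j
      rw [h1 m hm]
      rfl
    have h3 := totalDegree_eq_zero_iff_eq_C.1 h2
    apply hp.not_isUnit
    rw [h3]
    refine (isUnit_iff_ne_zero.2 fun h0 => ?_).map C
    apply hp.ne_zero
    rw [h3, h0, C_0]
  refine ⟨b, hb, fun hdvd => ?_⟩
  obtain ⟨R, hR⟩ := hdvd
  have hR0 : R ≠ 0 := by
    rintro rfl
    apply hb
    rw [hR, mul_zero]
  have h1 := deg_pderiv hb
  rw [hR, totalDegree_mul_of_isDomain hp.ne_zero hR0] at h1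
  omega

end

end Pool.Agent.TH122.AB
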