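import Pool.Agent.W619.PQ.Tr
import Pool.Agent.Helper386.D5V.Helper399_FF4b

/-!
The places of a rational function field in several variables given by the irreducible polynomials
and by the degree.
-/

set_option autoImplicit false

open FF MvPolynomial Pool.Agent.W603.LV

namespace Pool.Agent.TH122.AB

variable {k F : Type} [Field k] [Field F] [Algebra k F] {d : ℕ}

/-- `X` are independent generators of the field `F`. -/
structure Gens (X : Fin d → F) : Prop where
  ind : AlgebraicIndependent k X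
  gen : ∀ z : F, ∃ P Q : MvPolynomial (Fin d) k, Q ≠ 0 ∧ z = aeval X P / aeval X Q

variable {X : Fin d → F}

theorem Gens.ne (h : Gens (k := k) X) {P : MvPolynomial (Fin d) k} (hP : P ≠ 0) :
    aeval X P ≠ 0 := fun h0 => hP ((injective_iff_map_eq_zero _).1 h.ind P h0)

theorem Gens.inj (h : Gens (k := k) X) {P Q : MvPolynomial (Fin d) k}
    (hPQ : aeval X P = aeval X Q) : P = Q := h.ind hPQ

/-- the data of a place on the polynomials -/
structure Deg (ν : MvPolynomial (Fin d) k → ℤ) : Prop where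
  mul : ∀ P Q, P ≠ 0 → Q ≠ 0 → ν (P * Q) = ν P + ν Q
  add : ∀ P Q, P ≠ 0 → Q ≠ 0 → P + Q ≠ 0 → min (ν P) (ν Q) ≤ ν (P + Q)
  const : ∀ c : k, c ≠ 0 → ν (C c) = 0

theorem exists_place (h : Gens (k := k) X) {ν : MvPolynomial (Fin d) k → ℤ} (hν : Deg ν)
    (hs : ∃ P Q, P ≠ 0 ∧ Q ≠ 0 ∧ ν P = ν Q + 1) :
    ∃ v : Place k F, ∀ P, P ≠ 0 → v.ord (aeval X P) = ν P := by
  classical
  choose num den hden hz using h.gen
  have hnum : ∀ z, z ≠ 0 → num z ≠ 0 := by
    intro z hz0 h0
    apply hz0
    rw [hz z, h0, map_zero, zero_div]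
  -- well-definedness
  have hwd : ∀ (z : F) (P Q : MvPolynomial (Fin d) k), z ≠ 0 → Q ≠ 0 →
      z = aeval X P / aeval X Q → P ≠ 0 ∧ ν (num z) - ν (den z) = ν P - ν Q := by
    intro z P Q hz0 hQ hzPQ
    have hP : P ≠ 0 := by
      intro h0
      apply hz0
      rw [hzPQ, h0, map_zero, zero_div]
    refine ⟨hP, ?_⟩
    have h1 : aeval X (num z * Q) = aeval X (P * den z) := by
      rw [map_mul, map_mul]
      have h2 := hz z
      rw [hzPQ] at h2
      rw [← hzPQ] at h2
      have h3 := h.ne (hden z)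
      have h4 := h.ne hQ
      have h5 : aeval X P / aeval X Q = aeval X (num z) / aeval X (den z) := by
        rw [← hzPQ]
        exact hz z
      rw [div_eq_div_iff h4 h3] at h5
      rw [← h5]
    have h2 := h.inj h1
    have h3 := congrArg ν h2
    rw [hν.mul _ _ (hnum z hz0) hQ, hν.mul _ _ hP (hden z)] at h3
    linarith
  let o : F → ℤ := fun z => if z = 0 then 0 else ν (num z) - ν (den z)
  have ho : ∀ (z : F) (P Q : MvPolynomial (Fin d) k), z ≠ 0 → Q ≠ 0 →
      z = aeval X P / aeval X Q → o z = ν P - ν Q := by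
    intro z P Q hz0 hQ hzPQ
    simp only [o, if_neg hz0]
    exact (hwd z P Q hz0 hQ hzPQ).2
  have hone : ν 1 = 0 := by
    have := hν.const 1 one_ne_zero
    rwa [C_1] at this
  have hval : ∀ P, P ≠ 0 → o (aeval X P) = ν P := by
    intro P hP
    rw [ho (aeval X P) P 1 (h.ne hP) one_ne_zero (by rw [map_one, div_one]), hone, sub_zero]
  refine ⟨⟨o, if_pos rfl, ?_, ?_, ?_, ?_⟩, hval⟩
  · intro f g hf hg
    have hnf := hnum f hf
    have hng := hnum g hg
    rw [ho (f * g) (num f * num g) (den f * den g) (mul_ne_zero hf hg)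
      (mul_ne_zero (hden f) (hden g)) (by
        rw [map_mul, map_mul]
        conv_lhs => rw [hz f, hz g]
        rw [div_mul_div_comm]), ho f _ _ hf (hden f) (hz f), ho g _ _ hg (hden g) (hz g),
      hν.mul _ _ hnf hng, hν.mul _ _ (hden f) (hden g)]
    ring
  · intro f g hf hg hfg
    have hnf := hnum f hf
    have hng := hnum g hg
    have hdf := hden f
    have hdg := hden g
    have h1 : f + g = aeval X (num f * den g + num g * den f) / aeval X (den f * den g) := by
      rw [map_add, map_mul, map_mul, map_mul]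
      conv_lhs => rw [hz f, hz g]
      have h3 := h.ne hdf
      have h4 := h.ne hdg
      field_simp
    have h2 := (hwd (f + g) _ _ hfg (mul_ne_zero hdf hdg) h1).1
    have h3 := hν.add _ _ (mul_ne_zero hnf hdg) (mul_ne_zero hng hdf) h2
    rw [ho (f + g) _ _ hfg (mul_ne_zero hdf hdg) h1, ho f _ _ hf hdf (hz f),
      ho g _ _ hg hdg (hz g)]
    rw [hν.mul _ _ hnf hdg, hν.mul _ _ hng hdf] at h3
    rw [hν.mul _ _ hdf hdg]
    rcases min_le_iff.1 h3 with h4 | h4
    · exact le_trans (min_le_left _ _) (by linarith)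
    · exact le_trans (min_le_right _ _) (by linarith)
  · intro c hc
    have h1 : algebraMap k F c = aeval X (C c) := by rw [aeval_C]
    rw [h1, hval _ (by simpa using hc)]
    exact hν.const c hc
  · obtain ⟨P, Q, hP, hQ, hPQ⟩ := hs
    refine ⟨aeval X P / aeval X Q, div_ne_zero (h.ne hP) (h.ne hQ), ?_⟩
    rw [ho _ P Q (div_ne_zero (h.ne hP) (h.ne hQ)) hQ rfl, hPQ]
    ring

/-- the place of an irreducible polynomial -/
theorem exists_adic (h : Gens (k := k) X) {p : MvPolynomial (Fin d) k} (hp : Irreducible p) :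
    ∃ v : Place k F, v.ord (aeval X p) = 1 ∧ ∀ P, P ≠ 0 →
      0 ≤ v.ord (aeval X P) ∧ (v.ord (aeval X P) = 0 ↔ ¬ p ∣ P) := by
  have hpp : Prime p := hp.prime
  have hfin : ∀ P : MvPolynomial (Fin d) k, P ≠ 0 → FiniteMultiplicity p P := fun P hP =>
    FiniteMultiplicity.of_prime_left hpp hP
  have hdeg : Deg (fun P : MvPolynomial (Fin d) k => (multiplicity p P : ℤ)) := by
    refine ⟨?_, ?_, ?_⟩
    · intro P Q hP hQ
      have := multiplicity_mul hpp (hfin _ (mul_ne_zero hP hQ))
      exact_mod_cast this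
    · intro P Q hP hQ hPQ
      have h1 := min_le_emultiplicity_add (p := p) (a := P) (b := Q)
      rw [(hfin P hP).emultiplicity_eq_multiplicity, (hfin Q hQ).emultiplicity_eq_multiplicity,
        (hfin _ hPQ).emultiplicity_eq_multiplicity] at h1
      rcases min_le_iff.1 h1 with h2 | h2
      · exact min_le_iff.2 (Or.inl (by exact_mod_cast h2))
      · exact min_le_iff.2 (Or.inr (by exact_mod_cast h2))
    · intro c hc
      have h1 : multiplicity p (C c) = 0 := by
        rw [multiplicity_eq_zero]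
        intro hdvd
        apply hp.not_isUnit
        exact isUnit_of_dvd_unit hdvd ((isUnit_iff_ne_zero.2 hc).map C)
      exact_mod_cast h1
  have hself : multiplicity p p = 1 := multiplicity_self
  have hone : multiplicity p (1 : MvPolynomial (Fin d) k) = 0 := by
    rw [multiplicity_eq_zero]
    intro hdvd
    exact hp.not_isUnit (isUnit_of_dvd_one hdvd)
  obtain ⟨v, hv⟩ := exists_place h hdeg ⟨p, 1, hp.ne_zero, one_ne_zero, by
    rw [hself, hone]
    norm_num⟩
  refine ⟨v, ?_, fun P hP => ?_⟩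
  · rw [hv p hp.ne_zero, hself]
    norm_num
  · rw [hv P hP]
    refine ⟨by positivity, ?_⟩
    have h1 : ((multiplicity p P : ℤ) = 0) ↔ multiplicity p P = 0 := by norm_cast
    rw [h1, multiplicity_eq_zero]

/-- the place of the degree -/
theorem exists_degree (h : Gens (k := k) X) (hd : 0 < d) :
    ∃ v : Place k F, ∀ P : MvPolynomial (Fin d) k, P ≠ 0 →
      v.ord (aeval X P) = - (P.totalDegree : ℤ) := by
  refine exists_place h (ν := fun P => - (P.totalDegree : ℤ)) ⟨?_, ?_, ?_⟩
    ⟨1, MvPolynomial.X ⟨0, hd⟩, one_ne_zero, X_ne_zero _, ?_⟩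
  · intro P Q hP hQ
    rw [totalDegree_mul_of_isDomain hP hQ]
    push_cast
    ring
  · intro P Q hP hQ hPQ
    have h1 := totalDegree_add P Q
    rcases le_max_iff.1 h1 with h2 | h2
    · exact le_trans (min_le_left _ _) (by omega)
    · exact le_trans (min_le_right _ _) (by omega)
  · intro c hc
    simp
  · simp

/-- an element which is regular at the places of all irreducible polynomials is a polynomial -/
theorem poly_of_reg (h : Gens (k := k) X) {z : F}
    (hz : ∀ p : MvPolynomial (Fin d) k, Irreducible p → ∀ v : Place k F, v.ord (aeval X p) = 1 →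
      (∀ P, P ≠ 0 → 0 ≤ v.ord (aeval X P) ∧ (v.ord (aeval X P) = 0 ↔ ¬ p ∣ P)) → v.Reg z) :
    ∃ P : MvPolynomial (Fin d) k, z = aeval X P := by
  classical
  by_cases hz0 : z = 0
  · exact ⟨0, by rw [hz0, map_zero]⟩
  obtain ⟨P0, Q0, hQ0, hz1⟩ := h.gen z
  -- reduced fraction
  obtain ⟨P, Q, hQ, hcop, hz2⟩ : ∃ P Q : MvPolynomial (Fin d) k, Q ≠ 0 ∧ IsRelPrime P Q ∧
      z = aeval X P / aeval X Q := by
    obtain ⟨a', b', c', hcop, ha, hb⟩ :=
      UniqueFactorizationMonoid.exists_reduced_factors' P0 Q0 hQ0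
    refine ⟨a', b', ?_, hcop, ?_⟩
    · rintro rfl
      apply hQ0
      rw [← hb, mul_zero]
    · have hc' : c' ≠ 0 := by
        rintro rfl
        apply hQ0
        rw [← hb, zero_mul]
      have hcX := h.ne hc'
      rw [hz1, ← ha, ← hb, map_mul, map_mul, mul_div_mul_left _ _ hcX]
  have hP : P ≠ 0 := by
    intro h0
    apply hz0
    rw [hz2, h0, map_zero, zero_div]
  by_cases hu : IsUnit Q
  · obtain ⟨c, hc, hQc⟩ := MvPolynomial.isUnit_iff_eq_C_of_isReduced.1 hu
    refine ⟨C c⁻¹ * P, ?_⟩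
    have hc0 : c ≠ 0 := hc.ne_zero
    have hc1 : algebraMap k F c ≠ 0 := by
      rw [Ne, map_eq_zero]
      exact hc0
    rw [hz2, hQc, map_mul, aeval_C, aeval_C, map_inv₀]
    field_simp
  · exfalso
    obtain ⟨p, hp, hpQ⟩ := WfDvdMonoid.exists_irreducible_factor hu hQ
    obtain ⟨v, hv1, hv2⟩ := exists_adic h hp
    have h1 := hz p hp v hv1 hv2
    have hpP : ¬ p ∣ P := fun hpP => hp.not_isUnit (hcop hpP hpQ)
    have h2 := (hv2 P hP).2.2 hpP
    have h3 : 0 < v.ord (aeval X Q) := by
      have h4 := hv2 Q hQ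
      rcases lt_or_eq_of_le h4.1 with h5 | h5
      · exact h5
      · exact absurd hpQ (h4.2.1 h5.symm)
    rw [v.reg_iff hz0, hz2, v.ord_div (h.ne hP) (h.ne hQ), h2] at h1
    omega

end Pool.Agent.TH122.AB
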