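import Pool.Agent.W619.PQ.Ram
import Pool.Agent.TH122.AB.Plc

/-!
Spaces of functions with bounded poles are finite-dimensional.
-/

set_option autoImplicit false
set_option linter.overlappingInstances false
set_option linter.unusedSectionVars false

open FF MvPolynomial IntermediateField Pool.Agent.W603.LV Pool.Agent.W619.PQ

namespace Pool.Agent.TH122.AB

section

variable {k K : Type} [Field k] [CharZero k] [Field K] [Algebra k K] {d : ℕ}

/-- an element of `K` is integral over the polynomials after multiplication by a polynomial -/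
theorem exists_mult {Z : Fin d → K} (hZ : IsTranscendenceBasis k Z) (z : K) :
    ∃ Q : MvPolynomial (Fin d) k, Q ≠ 0 ∧
      IsIntegral (Algebra.adjoin k (Set.range Z)) (aeval Z Q * z) := by
  have halg := hZ.isAlgebraic
  obtain ⟨y, hy0, hy⟩ := (halg.isAlgebraic z).exists_integral_multiple
  have hy' : (y : K) ∈ (aeval Z : MvPolynomial (Fin d) k →ₐ[k] K).range := by
    rw [← Algebra.adjoin_range_eq_range_aeval]
    exact y.2
  obtain ⟨Q, hQ⟩ := hy'
  refine ⟨Q, ?_, ?_⟩
  · rintro rfl
    apply hy0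
    apply Subtype.ext
    rw [← hQ]
    simp
  · have h1 : (aeval Z : MvPolynomial (Fin d) k →ₐ[k] K) Q = (y : K) := hQ
    rw [h1]
    exact hy

theorem reg_of_int {Z : Fin d → K} {w : Place k K} (hw : ∀ P : MvPolynomial (Fin d) k,
    w.Reg (aeval Z P)) {z : K} (hz : IsIntegral (Algebra.adjoin k (Set.range Z)) z) : w.Reg z := by
  refine w.reg_of_isIntegral (A := Algebra.adjoin k (Set.range Z)) (fun a => ?_) hz
  have ha : (a : K) ∈ (aeval Z : MvPolynomial (Fin d) k →ₐ[k] K).range := by
    rw [← Algebra.adjoin_range_eq_range_aeval]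
    exact a.2
  obtain ⟨P, hP⟩ := ha
  have h1 : algebraMap (Algebra.adjoin k (Set.range Z)) K a = aeval Z P := hP.symm
  rw [h1]
  exact hw P

/-- the orders of `f` at the places over the irreducible polynomials are at least those of some
element of `S` -/
def Fine (G : Subgroup (K ≃ₐ[k] K)) (X : Fin d → fixedField G) (S : Finset K) (f : K) : Prop :=
  ∀ p : MvPolynomial (Fin d) k, Irreducible p → ∀ v : Place k (fixedField G),
    v.ord (aeval X p) = 1 →
    (∀ P, P ≠ 0 → 0 ≤ v.ord (aeval X P) ∧ (v.ord (aeval X P) = 0 ↔ ¬ p ∣ P)) →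
    ∃ (w : Place k K) (e : ℕ), Over w v e ∧
      ∀ g ∈ G, f = 0 ∨ ∃ s ∈ S, s ≠ 0 ∧ w.ord (g s) ≤ w.ord (g f)

theorem fin_bound (G : Subgroup (K ≃ₐ[k] K)) [Finite G] {X : Fin d → fixedField G}
    (hX : Gens (k := k) X) (hZ : IsTranscendenceBasis k fun j => (X j : K))
    {v0 : Place k (fixedField G)}
    (hv0 : ∀ P : MvPolynomial (Fin d) k, P ≠ 0 → v0.ord (aeval X P) = - (P.totalDegree : ℤ))
    {w0 : Place k K} {e0 : ℕ} (h0 : Over w0 v0 e0) (S : Finset K) (M : ℤ) :
    ∃ C : ℕ, ∀ (N : ℕ) (f : Fin N → K), LinearIndependent k f → (∀ l, Fine G X S (f l)) →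
      (∀ l, ∀ g ∈ G, Ge w0 M (g (f l))) → N ≤ C := by
  classical
  have hGal : IsGaloisGroup G (fixedField G) K := isGaloisGroup_fixed G
  have hfd : FiniteDimensional (fixedField G) K := IsGaloisGroup.finiteDimensional G _ K
  have hfix : ∀ g ∈ G, ∀ z : fixedField G, g (z : K) = z := fun g hg z => z.2 ⟨g, hg⟩
  have hcK : CharZero K := charZero_of_injective_algebraMap (algebraMap k K).injective
  let Z : Fin d → K := fun j => (X j : K)
  have hXZ : ∀ P : MvPolynomial (Fin d) k, ((aeval X P : fixedField G) : K) = aeval Z P := by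
    intro P
    exact (MvPolynomial.aeval_algebraMap_apply K X P).symm
  let b := Module.finBasis (fixedField G) K
  let δ := Module.finrank (fixedField G) K
  -- a common denominator
  obtain ⟨Q, hQ0, hQS, hQb⟩ : ∃ Q : MvPolynomial (Fin d) k, Q ≠ 0 ∧
      (∀ s ∈ S, ∀ g ∈ G, ∀ w : Place k K, (∀ P : MvPolynomial (Fin d) k, w.Reg (aeval Z P)) →
        w.Reg (aeval Z Q * g s)) ∧
      (∀ i, ∀ g ∈ G, ∀ w : Place k K, (∀ P : MvPolynomial (Fin d) k, w.Reg (aeval Z P)) →
        w.Reg (aeval Z Q * g (b i))) := by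
    have hGfin : (G : Set (K ≃ₐ[k] K)).Finite := Set.toFinite _
    let T : Finset K := (hGfin.toFinset.biUnion fun g => S.image fun s => g s) ∪
      (hGfin.toFinset.biUnion fun g => Finset.univ.image fun i => g (b i))
    choose q hq0 hq using fun z : K => exists_mult hZ z
    have hmain : ∀ z ∈ T, ∀ w : Place k K, (∀ P : MvPolynomial (Fin d) k, w.Reg (aeval Z P)) →
        w.Reg (aeval Z (∏ t ∈ T, q t) * z) := by
      intro z hz w hw
      rw [← Finset.mul_prod_erase T q hz, map_mul, mul_comm (aeval Z (q z)), mul_assoc]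
      exact w.reg_mul (hw _) (reg_of_int hw (hq z))
    refine ⟨∏ t ∈ T, q t, Finset.prod_ne_zero_iff.2 fun t _ => hq0 t, ?_, ?_⟩
    · intro s hs g hg w hw
      refine hmain _ ?_ w hw
      refine Finset.mem_union_left _ (Finset.mem_biUnion.2 ⟨g, by simpa using hg, ?_⟩)
      exact Finset.mem_image_of_mem _ hs
    · intro i g hg w hw
      refine hmain _ ?_ w hw
      refine Finset.mem_union_right _ (Finset.mem_biUnion.2 ⟨g, by simpa using hg, ?_⟩)
      exact Finset.mem_image_of_mem _ (Finset.mem_univ i)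
  have hQK : aeval Z Q ≠ 0 := by
    rw [← hXZ]
    have := hX.ne hQ0
    simpa using this
  have hgQ : ∀ g ∈ G, g (aeval Z Q) = aeval Z Q := by
    intro g hg
    rw [← hXZ]
    exact hfix g hg _
  -- the trace
  let _ : Fintype G := Fintype.ofFinite G
  let Tr : K →ₗ[k] K :=
    { toFun := fun z => ∑ g : G, (g : K ≃ₐ[k] K) z
      map_add' := by
        intro a b
        simp only [map_add, Finset.sum_add_distrib]
      map_smul' := by
        intro c a
        rw [RingHom.id_apply, Finset.smul_sum]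
        refine Finset.sum_congr rfl fun g _ => ?_
        rw [Algebra.smul_def, Algebra.smul_def, map_mul, AlgEquiv.commutes] }
  have hTr : ∀ z, Tr z = ∑ g : G, (g : K ≃ₐ[k] K) z := fun z => rfl
  have hTrfix : ∀ z, Tr z ∈ fixedField G := by
    intro z g
    change (g : K ≃ₐ[k] K) (Tr z) = Tr z
    rw [hTr, map_sum]
    exact Fintype.sum_equiv (Equiv.mulLeft g) _ _ fun h => rfl
  have hTrlin : ∀ (c : fixedField G) z, Tr (z * c) = Tr z * c := by
    intro c z
    rw [hTr, hTr, Finset.sum_mul]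
    refine Finset.sum_congr rfl fun g _ => ?_
    rw [map_mul, hfix g g.2 c]
  let Ψ : K →ₗ[k] (Fin δ → K) := LinearMap.pi fun i =>
    Tr.comp (LinearMap.mulRight k (aeval Z Q ^ 2 * b i))
  have hΨ : ∀ f i, Ψ f i = Tr (f * (aeval Z Q ^ 2 * b i)) := fun f i => rfl
  have hΨinj : Function.Injective Ψ := by
    rw [← LinearMap.ker_eq_bot, LinearMap.ker_eq_bot']
    intro f hf
    by_contra hf0
    have h1 : ∀ z, Tr (f * (aeval Z Q ^ 2 * z)) = 0 := by
      intro z
      rw [← b.sum_repr z, Finset.mul_sum, Finset.mul_sum, map_sum]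
      refine Finset.sum_eq_zero fun i _ => ?_
      have h2 : f * (aeval Z Q ^ 2 * (b.repr z i • b i)) =
          (f * (aeval Z Q ^ 2 * b i)) * (b.repr z i : fixedField G) := by
        rw [Algebra.smul_def]
        change f * (aeval Z Q ^ 2 * ((b.repr z i : K) * b i)) = _
        ring
      rw [h2, hTrlin, ← hΨ, congrFun hf i]
      simp
    have h2 := h1 ((f * aeval Z Q ^ 2)⁻¹)
    have h3 : f * (aeval Z Q ^ 2 * (f * aeval Z Q ^ 2)⁻¹) = 1 := by
      field_simp
    rw [h3, hTr] at h2
    simp only [map_one, Finset.sum_const, Finset.card_univ, nsmul_eq_mul, mul_one] at h2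
    have h4 : Fintype.card G ≠ 0 := Fintype.card_ne_zero
    exact h4 (by exact_mod_cast h2)
  -- the bound at infinity
  obtain ⟨M1, hM1⟩ : ∃ M1 : ℤ, ∀ i, ∀ g ∈ G, Ge w0 M1 (g (aeval Z Q ^ 2 * b i)) := by
    have hGfin : (G : Set (K ≃ₐ[k] K)).Finite := Set.toFinite _
    let T : Finset K := hGfin.toFinset.biUnion fun g => Finset.univ.image fun i =>
      g (aeval Z Q ^ 2 * b i)
    obtain ⟨M1, hM1⟩ : ∃ M1 : ℤ, ∀ z ∈ T, M1 ≤ w0.ord z := by
      refine ⟨- ∑ z ∈ T, |w0.ord z|, fun z hz => ?_⟩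
      have h1 : |w0.ord z| ≤ ∑ z ∈ T, |w0.ord z| :=
        Finset.single_le_sum (f := fun z => |w0.ord z|) (fun _ _ => abs_nonneg _) hz
      have h2 := neg_abs_le (w0.ord z)
      linarith
    refine ⟨M1, fun i g hg => Or.inr (hM1 _ ?_)⟩
    refine Finset.mem_biUnion.2 ⟨g, by simpa using hg, ?_⟩
    exact Finset.mem_image_of_mem _ (Finset.mem_univ i)
  obtain ⟨D, hD⟩ : ∃ D : ℕ, -(D : ℤ) ≤ M + M1 := ⟨(-(M + M1)).toNat, by
    have := Int.self_le_toNat (-(M + M1))
    omega⟩
  let W : Submodule k K := (restrictTotalDegree (Fin d) k D).map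
    (aeval Z : MvPolynomial (Fin d) k →ₐ[k] K).toLinearMap
  have hWfin : FiniteDimensional k (restrictTotalDegree (Fin d) k D) := by
    infer_instance
  have hWfin' : FiniteDimensional k W := inferInstance
  refine ⟨Module.finrank k (Fin δ → W), fun N f hf hfine hinf => ?_⟩
  have hmem : ∀ l i, Ψ (f l) i ∈ W := by
    intro l i
    rw [hΨ]
    obtain ⟨t, ht⟩ : ∃ t : fixedField G, (t : K) = Tr (f l * (aeval Z Q ^ 2 * b i)) :=
      ⟨⟨_, hTrfix _⟩, rfl⟩
    have hreg : ∃ P : MvPolynomial (Fin d) k, t = aeval X P := by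
      refine poly_of_reg hX fun p hp v hv1 hv2 => ?_
      obtain ⟨w, e, hwv, hdom⟩ := hfine l p hp v hv1 hv2
      have hwZ : ∀ P : MvPolynomial (Fin d) k, w.Reg (aeval Z P) := by
        intro P
        rw [← hXZ]
        refine hwv.reg.2 ?_
        by_cases hP : P = 0
        · rw [hP, map_zero]
          exact v.reg_zero
        · exact Or.inr (hv2 P hP).1
      have h1 : w.Reg (t : K) := by
        rw [ht, hTr]
        refine Ge.sum _ _ fun g _ => ?_
        have h2 : (g : K ≃ₐ[k] K) (f l * (aeval Z Q ^ 2 * b i)) =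
            (aeval Z Q * (g : K ≃ₐ[k] K) (f l)) * (aeval Z Q * (g : K ≃ₐ[k] K) (b i)) := by
          rw [map_mul, map_mul, map_pow, hgQ g g.2]
          ring
        rw [h2]
        refine w.reg_mul ?_ (hQb i g g.2 w hwZ)
        rcases hdom g g.2 with h3 | ⟨s, hs, hs0, hle⟩
        · rw [h3, map_zero, mul_zero]
          exact w.reg_zero
        · by_cases hf0 : f l = 0
          · rw [hf0, map_zero, mul_zero]
            exact w.reg_zero
          have hgf : (g : K ≃ₐ[k] K) (f l) ≠ 0 := by simpa using hf0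
          have hgs : (g : K ≃ₐ[k] K) s ≠ 0 := by simpa using hs0
          have h4 := (hQS s hs g g.2 w hwZ).resolve_left (mul_ne_zero hQK hgs)
          right
          rw [w.ord_mul hQK hgf]
          rw [w.ord_mul hQK hgs] at h4
          linarith
      exact hwv.reg.1 h1
    obtain ⟨P, hP⟩ := hreg
    refine ⟨P, ?_, ?_⟩
    · rw [SetLike.mem_coe, mem_restrictTotalDegree]
      by_cases hP0 : P = 0
      · rw [hP0, totalDegree_zero]
        omega
      have h1 : Ge w0 (M + M1) (t : K) := by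
        rw [ht, hTr]
        refine Ge.sum _ _ fun g _ => ?_
        rw [map_mul]
        exact (hinf l g g.2).mul (hM1 i g g.2)
      have ht0 : (t : K) ≠ 0 := by
        rw [hP]
        have := hX.ne hP0
        simpa using this
      have h2 := h1.resolve_left ht0
      have h3 : w0.ord (t : K) = e0 * v0.ord t := h0.2 t
      rw [h3, hP, hv0 P hP0] at h2
      have he : 0 < e0 := h0.1
      have h4 : ((P.totalDegree : ℕ) : ℤ) ≤ e0 * (P.totalDegree : ℤ) := by
        have h5 : (1 : ℤ) ≤ e0 := by exact_mod_cast he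
        nlinarith [Int.natCast_nonneg P.totalDegree]
      have h5 : ((P.totalDegree : ℕ) : ℤ) ≤ D := by linarith
      exact_mod_cast h5
    · rw [← ht, hP, hXZ]
      rfl
  have hlin : LinearIndependent k fun l => (fun i => ⟨Ψ (f l) i, hmem l i⟩ : Fin δ → W) := by
    have h1 : LinearIndependent k (Ψ ∘ f) := hf.map' Ψ (LinearMap.ker_eq_bot.2 hΨinj)
    exact LinearIndependent.of_comp (W.subtype.compLeft (Fin δ)) h1
  have h1 := hlin.fintype_card_le_finrank
  rwa [Fintype.card_fin] at h1

end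

end Pool.Agent.TH122.AB
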