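import Pool.Agent.TH122.AB.Plc
import Pool.Agent.TH152.AC.Fin

/-!
Fields generated by roots are Galois.
-/

set_option autoImplicit false
set_option linter.overlappingInstances false
set_option linter.unusedSectionVars false

open IntermediateField

namespace Pool.Agent.TH122.AB

section

variable {k K : Type} [Field k] [CharZero k] [Field K] [Algebra k K]

theorem fin_of_gen (E : IntermediateField k K) {S : Set K} (hfin : S.Finite)
    (hgen : ∀ L : IntermediateField k K, E ≤ L → S ⊆ L → L = ⊤) (hS : ∀ z ∈ S, IsIntegral E z) :
    FiniteDimensional E K ∧ IntermediateField.adjoin E S = ⊤ := by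
  have htop : IntermediateField.adjoin E S = ⊤ := by
    rw [eq_top_iff]
    intro z _
    have h1 : (IntermediateField.adjoin E S).restrictScalars k = ⊤ := by
      apply hgen
      · intro a ha
        rw [IntermediateField.mem_restrictScalars]
        exact (IntermediateField.adjoin E S).algebraMap_mem ⟨a, ha⟩
      · intro a ha
        change a ∈ (IntermediateField.adjoin E S).restrictScalars k
        rw [IntermediateField.mem_restrictScalars]
        exact IntermediateField.subset_adjoin E S ha
    have h2 : z ∈ (IntermediateField.adjoin E S).restrictScalars k := by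
      rw [h1]
      trivial
    rwa [IntermediateField.mem_restrictScalars] at h2
  refine ⟨?_, htop⟩
  have hf : Finite S := hfin.to_subtype
  have h1 : FiniteDimensional E (IntermediateField.adjoin E S) :=
    IntermediateField.finiteDimensional_adjoin hS
  rw [htop] at h1
  exact Module.Finite.equiv (IntermediateField.topEquiv (F := E) (E := K)).toLinearEquiv

theorem galois_of_roots [IsAlgClosed k] (E : IntermediateField k K) {S : Set K} (hfin : S.Finite)
    (hgen : ∀ L : IntermediateField k K, E ≤ L → S ⊆ L → L = ⊤) {M : ℕ} (hM : 0 < M)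
    (hS : ∀ z ∈ S, z ^ M ∈ E) : FiniteDimensional E K ∧ IsGalois E K := by
  classical
  have hint : ∀ z ∈ S, IsIntegral E z := by
    intro z hz
    refine IsIntegral.of_pow hM ?_
    exact isIntegral_algebraMap (R := E) (x := ⟨z ^ M, hS z hz⟩)
  obtain ⟨hfd, htop⟩ := fin_of_gen E hfin hgen hint
  refine ⟨hfd, ?_⟩
  have hsep : Algebra.IsSeparable E K := inferInstance
  have hnor : Normal E K := by
    refine normal_iff.2 fun z => ⟨Algebra.IsIntegral.isIntegral z, ?_⟩
    have hz : z ∈ IntermediateField.adjoin E S := by
      rw [htop]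
      trivial
    refine IntermediateField.splits_of_mem_adjoin E K (S := S) (fun s hs => ?_) hz
    refine ⟨hint s hs, ?_⟩
    have hne : NeZero (M : k) := ⟨by exact_mod_cast hM.ne'⟩
    obtain ⟨ζ, hζ⟩ := HasEnoughRootsOfUnity.exists_primitiveRoot k M
    have hζK : IsPrimitiveRoot (algebraMap k K ζ) M :=
      hζ.map_of_injective (algebraMap k K).injective
    have h1 := X_pow_sub_C_splits_of_isPrimitiveRoot hζK (α := s) rfl
    refine Polynomial.Splits.of_dvd h1 (Polynomial.X_pow_sub_C_ne_zero hM _) ?_
    have h2 : minpoly E s ∣ Polynomial.X ^ M - Polynomial.C (⟨s ^ M, hS s hs⟩ : E) := by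
      apply minpoly.dvd
      rw [map_sub, map_pow, Polynomial.aeval_X, Polynomial.aeval_C]
      exact sub_self _
    have h3 := Polynomial.map_dvd (algebraMap E K) h2
    rw [Polynomial.map_sub, Polynomial.map_pow, Polynomial.map_X, Polynomial.map_C] at h3
    exact h3
  exact ⟨⟩

/-- the Galois group over a subfield -/
theorem fixing_props (E : IntermediateField k K) [FiniteDimensional E K] [IsGalois E K] :
    Finite E.fixingSubgroup ∧ fixedField E.fixingSubgroup = E := by
  refine ⟨?_, ?_⟩
  · exact (IntermediateField.fixingSubgroupEquiv E).toEquiv.finite_iff.2 inferInstance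
  · apply le_antisymm
    · intro z hz
      have h1 : z ∈ (⊥ : IntermediateField E K) := by
        rw [IsGalois.mem_bot_iff_fixed]
        intro f
        have h2 := hz ⟨f.restrictScalars k, f.commutes⟩
        exact h2
      rw [IntermediateField.mem_bot] at h1
      obtain ⟨a, rfl⟩ := h1
      exact a.2
    · intro z hz g
      exact g.2 ⟨z, hz⟩

/-- the coordinates generate the fixed field -/
theorem gens_of {d : ℕ} {Z : Fin d → K} (hZ : AlgebraicIndependent k Z)
    {E : IntermediateField k K} (hE : E = IntermediateField.adjoin k (Set.range Z))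
    {X : Fin d → E} (hX : ∀ j, (X j : K) = Z j) : Gens (k := k) X := by
  have hcoe : ∀ P : MvPolynomial (Fin d) k,
      ((MvPolynomial.aeval X P : E) : K) = MvPolynomial.aeval Z P := by
    intro P
    have h1 := (MvPolynomial.aeval_algebraMap_apply K X P).symm
    have h2 : (fun j => algebraMap E K (X j)) = Z := funext hX
    change (algebraMap E K) (MvPolynomial.aeval X P) = _
    rw [h1]
    congr 1
    exact congrArg _ h2
  have hind : AlgebraicIndependent k X := by
    refine (injective_iff_map_eq_zero _).2 fun P hP => ?_
    apply (injective_iff_map_eq_zero _).1 hZ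
    change MvPolynomial.aeval Z P = 0
    rw [← hcoe]
    have : (MvPolynomial.aeval X P : E) = 0 := hP
    rw [this]
    rfl
  refine ⟨hind, fun z => ?_⟩
  have hz : (z : K) ∈ IntermediateField.adjoin k (Set.range Z) := by
    rw [← hE]
    exact z.2
  rw [IntermediateField.mem_adjoin_range_iff] at hz
  obtain ⟨P, Q, hPQ⟩ := hz
  by_cases hQ : Q = 0
  · refine ⟨0, 1, one_ne_zero, Subtype.ext ?_⟩
    rw [hPQ, hQ, map_zero, div_zero, map_zero, zero_div]
    rfl
  · refine ⟨P, Q, hQ, Subtype.ext ?_⟩
    rw [hPQ, ← hcoe, ← hcoe]
    rfl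

end

end Pool.Agent.TH122.AB
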