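import Pool.Agent.TH122.AB.Der

/-!
The place at infinity of a rational function field in several variables.
-/

set_option autoImplicit false
set_option linter.overlappingInstances false
set_option linter.unusedSectionVars false

open FF MvPolynomial Pool.Agent.W603.LV Pool.Agent.W619.PQ

namespace Pool.Agent.TH122.AB

section

variable {k F : Type} [Field k] [Field F] [Algebra k F] {n : ℕ}

/-- the new exponents -/
noncomputable def fx (N : ℕ) (m : Fin (n + 1) →₀ ℕ) : Fin (n + 1) →₀ ℕ :=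
  Finsupp.equivFunOnFinite.symm
    (fun i => Fin.cases (N - ∑ i, m i) (fun j : Fin n => m j.succ) i)

theorem fx_zero (N : ℕ) (m : Fin (n + 1) →₀ ℕ) : fx N m 0 = N - ∑ i, m i := rfl

theorem fx_succ (N : ℕ) (m : Fin (n + 1) →₀ ℕ) (j : Fin n) : fx N m j.succ = m j.succ := rfl

theorem fx_inj {N : ℕ} {m m' : Fin (n + 1) →₀ ℕ} (h : ∑ i, m i ≤ N) (h' : ∑ i, m' i ≤ N)
    (hm : fx N m = fx N m') : m = m' := by
  have h1 : ∀ j : Fin n, m j.succ = m' j.succ := fun j => by
    rw [← fx_succ N m, ← fx_succ N m', hm]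
  have h2 := congrArg (fun f => f 0) hm
  simp only [fx_zero] at h2
  rw [Fin.sum_univ_succ] at h h'
  rw [Fin.sum_univ_succ, Fin.sum_univ_succ (fun i => m' i)] at h2
  simp only [h1] at h h2
  ext i
  refine Fin.cases ?_ (fun j => ?_) i
  · omega
  · exact h1 j

/-- the polynomial in the new coordinates -/
noncomputable def fp (N : ℕ) (P : MvPolynomial (Fin (n + 1)) k) : MvPolynomial (Fin (n + 1)) k :=
  ∑ m ∈ P.support, monomial (fx N m) (coeff m P)

theorem sum_le_deg {P : MvPolynomial (Fin (n + 1)) k} {m : Fin (n + 1) →₀ ℕ}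
    (hm : m ∈ P.support) : ∑ i, m i ≤ P.totalDegree := by
  have h1 := le_totalDegree hm
  rwa [Finsupp.sum_fintype _ _ fun _ => rfl] at h1

theorem coeff_fp {N : ℕ} {P : MvPolynomial (Fin (n + 1)) k} (hN : P.totalDegree ≤ N)
    {m : Fin (n + 1) →₀ ℕ} (hm : m ∈ P.support) : coeff (fx N m) (fp N P) = coeff m P := by
  classical
  unfold fp
  rw [coeff_sum, Finset.sum_eq_single m]
  · rw [coeff_monomial, if_pos rfl]
  · intro m' hm' hne
    rw [coeff_monomial, if_neg]
    intro h
    exact hne (fx_inj ((sum_le_deg hm').trans hN) ((sum_le_deg hm).trans hN) h)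
  · intro h
    exact absurd hm h

theorem fp_ne {N : ℕ} {P : MvPolynomial (Fin (n + 1)) k} (hN : P.totalDegree ≤ N) (hP : P ≠ 0) :
    fp N P ≠ 0 := by
  obtain ⟨m, hm⟩ := support_nonempty.2 hP
  intro h0
  have h1 := coeff_fp hN hm
  rw [h0, coeff_zero] at h1
  exact (mem_support_iff.1 hm) h1.symm

theorem aeval_fp {U V : Fin (n + 1) → F} (hU : U 0 ≠ 0) (hV0 : V 0 = (U 0)⁻¹)
    (hV : ∀ j : Fin n, V j.succ = U j.succ / U 0) {N : ℕ} {P : MvPolynomial (Fin (n + 1)) k}
    (hN : P.totalDegree ≤ N) : aeval V P * U 0 ^ N = aeval U (fp N P) := by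
  classical
  unfold fp
  rw [map_sum, aeval_def, eval₂_eq', Finset.sum_mul]
  refine Finset.sum_congr rfl fun m hm => ?_
  rw [aeval_monomial, mul_assoc]
  congr 1
  rw [Finsupp.prod_fintype _ _ fun i => pow_zero _, Fin.prod_univ_succ,
    Fin.prod_univ_succ (fun i => U i ^ (fx N m) i), fx_zero, hV0]
  simp only [fx_succ, hV, div_pow]
  rw [Finset.prod_div_distrib, Finset.prod_pow_eq_pow_sum]
  have h1 : ∑ i, m i ≤ N := (sum_le_deg hm).trans hN
  rw [Fin.sum_univ_succ] at h1
  rw [Fin.sum_univ_succ]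
  obtain ⟨a, ha⟩ : ∃ a, N = a + (m 0 + ∑ j : Fin n, m j.succ) :=
    ⟨N - (m 0 + ∑ j : Fin n, m j.succ), by omega⟩
  have h2 : N - (m 0 + ∑ j : Fin n, m j.succ) = a := by omega
  rw [h2, ha, inv_pow, pow_add, pow_add]
  field_simp

theorem Gens.flip {X X' : Fin (n + 1) → F} (h : Gens (k := k) X) (h0 : X' 0 = (X 0)⁻¹)
    (h1 : ∀ j : Fin n, X' j.succ = X j.succ / X 0) : Gens (k := k) X' := by
  have hX0 : X 0 ≠ 0 := by
    have := h.ne (X_ne_zero (R := k) (0 : Fin (n + 1)))
    rwa [aeval_X] at this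
  have hX'0 : X' 0 ≠ 0 := by
    rw [h0]
    exact inv_ne_zero hX0
  have h0' : X 0 = (X' 0)⁻¹ := by rw [h0, inv_inv]
  have h1' : ∀ j : Fin n, X j.succ = X' j.succ / X' 0 := by
    intro j
    rw [h1, h0]
    field_simp
  refine ⟨?_, fun z => ?_⟩
  · refine (injective_iff_map_eq_zero _).2 fun R hR => ?_
    by_contra hR0
    have h2 := aeval_fp hX0 h0 h1 (le_refl R.totalDegree)
    rw [hR, zero_mul] at h2
    exact h.ne (fp_ne le_rfl hR0) h2.symm
  · obtain ⟨P, Q, hQ, hz⟩ := h.gen z
    have h2 := aeval_fp hX'0 h0' h1' (le_max_left P.totalDegree Q.totalDegree)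
    have h3 := aeval_fp hX'0 h0' h1' (le_max_right P.totalDegree Q.totalDegree)
    refine ⟨fp (max P.totalDegree Q.totalDegree) P, fp (max P.totalDegree Q.totalDegree) Q,
      fp_ne (le_max_right P.totalDegree Q.totalDegree) hQ, ?_⟩
    rw [← h2, ← h3, mul_div_mul_right _ _ (pow_ne_zero _ hX'0)]
    exact hz

/-- the degree place -/
theorem ord_deg {X X' : Fin (n + 1) → F} (h : Gens (k := k) X) (h0 : X' 0 = (X 0)⁻¹)
    (h1 : ∀ j : Fin n, X' j.succ = X j.succ / X 0) {v : Place k F} (hv1 : v.ord (X' 0) = 1)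
    (hv : ∀ P : MvPolynomial (Fin (n + 1)) k, P ≠ 0 →
      0 ≤ v.ord (aeval X' P) ∧ (v.ord (aeval X' P) = 0 ↔ ¬ MvPolynomial.X 0 ∣ P))
    {P : MvPolynomial (Fin (n + 1)) k} (hP : P ≠ 0) :
    v.ord (aeval X P) = - (P.totalDegree : ℤ) := by
  classical
  have hX0 : X 0 ≠ 0 := by
    have := h.ne (X_ne_zero (R := k) (0 : Fin (n + 1)))
    rwa [aeval_X] at this
  have hX'0 : X' 0 ≠ 0 := by
    rw [h0]
    exact inv_ne_zero hX0
  have h0' : X 0 = (X' 0)⁻¹ := by rw [h0, inv_inv]
  have h1' : ∀ j : Fin n, X j.succ = X' j.succ / X' 0 := by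
    intro j
    rw [h1, h0]
    field_simp
  have h2 := aeval_fp hX'0 h0' h1' (le_refl P.totalDegree)
  have h3 : ¬ MvPolynomial.X 0 ∣ fp P.totalDegree P := by
    rintro ⟨R, hR⟩
    obtain ⟨m, hm, hmd⟩ := Finset.exists_mem_eq_sup P.support
      (support_nonempty.2 hP) fun m => m.sum fun _ e => e
    have hmd' : P.totalDegree = ∑ i, m i := by
      have : P.totalDegree = m.sum fun _ e => e := hmd
      rw [this, Finsupp.sum_fintype _ _ fun _ => rfl]
    have h4 := coeff_fp le_rfl hm
    rw [hR, coeff_X_mul', if_neg] at h4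
    · exact (mem_support_iff.1 hm) h4.symm
    · rw [Finsupp.notMem_support_iff, fx_zero, ← hmd']
      omega
  have h4 := (hv _ (fp_ne le_rfl hP)).2.2 h3
  rw [← h2, v.ord_mul (h.ne hP) (pow_ne_zero _ hX'0), v.ord_pow, hv1] at h4
  linarith

end

section

variable {k : Type} [Field k] [CharZero k] {K : Type} [Field K] [Algebra k K] {n : ℕ}

/-- the matrix of the change of the coordinate vector fields -/
def mA (Z : Fin (n + 1) → K) : Matrix (Fin (n + 1)) (Fin (n + 1)) K :=
  Matrix.of fun i j => if i = 0 then - (Z 0 * Z j) else if i = j then Z 0 else 0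

theorem det_mA (Z : Fin (n + 1) → K) : (mA Z).det = - Z 0 ^ (n + 2) := by
  rw [Matrix.det_of_isUpperTriangular]
  · rw [Fin.prod_univ_succ]
    have h1 : ∀ j : Fin n, mA Z j.succ j.succ = Z 0 := by
      intro j
      simp [mA, Fin.succ_ne_zero]
    simp only [h1]
    rw [Finset.prod_const, Finset.card_univ, Fintype.card_fin]
    simp only [mA, Matrix.of_apply, if_true]
    ring
  · intro i j hij
    have hij' : j < i := hij
    have h1 : i ≠ 0 := by
      rintro rfl
      exact absurd hij' (Fin.not_lt_zero _)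
    simp only [mA, Matrix.of_apply, if_neg h1, if_neg (ne_of_gt hij')]

theorem dual_mA {Z Z' : Fin (n + 1) → K} (hZ0 : Z 0 ≠ 0) (h0 : Z' 0 = (Z 0)⁻¹)
    (h1 : ∀ j : Fin n, Z' j.succ = Z j.succ / Z 0) {D : Fin (n + 1) → Derivation k K K}
    (hD : ∀ i j, D i (Z j) = if i = j then 1 else 0) (i j : Fin (n + 1)) :
    (∑ b, mA Z i b • D b) (Z' j) = if i = j then 1 else 0 := by
  classical
  have hs : (∑ b, mA Z i b • D b) (Z' j) = ∑ b, mA Z i b * D b (Z' j) := by
    have hg : ∀ s : Finset (Fin (n + 1)), (∑ b ∈ s, mA Z i b • D b) (Z' j) =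
        ∑ b ∈ s, mA Z i b * D b (Z' j) := by
      intro s
      induction s using Finset.induction_on with
      | empty => simp
      | insert a s ha ih =>
        rw [Finset.sum_insert ha, Finset.sum_insert ha, Derivation.add_apply, ih,
          Derivation.smul_apply, smul_eq_mul]
    exact hg _
  have hD0 : ∀ b, D b (Z' 0) = if b = 0 then - (Z 0 ^ 2)⁻¹ else 0 := by
    intro b
    rw [h0, (D b).leibniz_inv, hD]
    by_cases hb : b = 0
    · rw [if_pos hb, if_pos hb]
      simp
    · rw [if_neg hb, if_neg hb]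
      simp
  have hDs : ∀ b (l : Fin n), D b (Z' l.succ) =
      (if b = l.succ then (Z 0)⁻¹ else 0) + (if b = 0 then - (Z l.succ * (Z 0 ^ 2)⁻¹) else 0) := by
    intro b l
    rw [h1, div_eq_mul_inv, (D b).leibniz, ← h0, hD0, hD, smul_eq_mul, smul_eq_mul, h0]
    by_cases hb : b = l.succ
    · rw [if_pos hb, if_pos hb]
      by_cases hb0 : b = 0
      · rw [if_pos hb0, if_pos hb0]
        ring
      · rw [if_neg hb0, if_neg hb0]
        ring
    · rw [if_neg hb, if_neg hb]
      by_cases hb0 : b = 0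
      · rw [if_pos hb0, if_pos hb0]
        ring
      · rw [if_neg hb0, if_neg hb0]
        ring
  rw [hs]
  clear hs
  refine Fin.cases ?_ (fun l => ?_) j
  · simp only [hD0, mul_ite, mul_zero]
    rw [Finset.sum_ite_eq' Finset.univ (0 : Fin (n + 1)), if_pos (Finset.mem_univ _)]
    by_cases hi : i = 0
    · subst hi
      rw [if_pos rfl]
      simp only [mA, Matrix.of_apply, if_true]
      field_simp
    · rw [if_neg hi]
      simp only [mA, Matrix.of_apply, if_neg hi, zero_mul]
  · simp only [hDs, mul_add, mul_ite, mul_zero]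
    rw [Finset.sum_add_distrib, Finset.sum_ite_eq' Finset.univ (l.succ),
      Finset.sum_ite_eq' Finset.univ (0 : Fin (n + 1)), if_pos (Finset.mem_univ _),
      if_pos (Finset.mem_univ _)]
    by_cases hi : i = 0
    · subst hi
      rw [if_neg (Fin.succ_ne_zero l).symm]
      simp only [mA, Matrix.of_apply, if_true]
      field_simp
      ring
    · simp only [mA, Matrix.of_apply, if_neg hi, zero_mul, add_zero]
      by_cases hil : i = l.succ
      · rw [if_pos hil, if_pos hil]
        field_simp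
      · rw [if_neg hil, if_neg hil, zero_mul]

end

section

variable {k : Type} [Field k] [CharZero k] {K0 K : Type} [Field K0] [Field K] [Algebra k K0]
  [Algebra k K] [Algebra K0 K] [IsScalarTower k K0 K] {n : ℕ}

/-- the places of the irreducible polynomials are divisorial -/
theorem div_adic {X : Fin n → K0} (hX : Gens (k := k) X) {p : MvPolynomial (Fin n) k}
    (hp : Irreducible p) {v : Place k K0}
    (hv : ∀ P, P ≠ 0 → 0 ≤ v.ord (aeval X P) ∧ (v.ord (aeval X P) = 0 ↔ ¬ p ∣ P))
    {w : Place k K} {e : ℕ} (h : Over w v e) : IsDivisorial w n := by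
  classical
  obtain ⟨b, hb0, hb⟩ := exists_pderiv hp
  obtain ⟨n, rfl⟩ : ∃ n', n = n' + 1 := ⟨n - 1, by have := b.2; omega⟩
  refine ⟨fun j => algebraMap K0 K (X (b.succAbove j)), fun R hR => ?_⟩
  obtain ⟨Q, hQ⟩ : ∃ Q, Q = rename b.succAbove R := ⟨_, rfl⟩
  have hQ0 : Q ≠ 0 := by
    rw [hQ]
    intro h0
    apply hR
    have h1 : rename b.succAbove R = rename b.succAbove (0 : MvPolynomial (Fin n) k) := by
      rw [h0, map_zero]
    exact rename_injective _ (Fin.succAbove_right_injective) h1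
  have h1 : aeval (fun j => algebraMap K0 K (X (b.succAbove j))) R =
      algebraMap K0 K (aeval X Q) := by
    rw [hQ, aeval_rename, ← aeval_coe]
    rfl
  have hpQ : ¬ p ∣ Q := by
    rintro ⟨T, hT⟩
    have hT0 : T ≠ 0 := by
      rintro rfl
      apply hQ0
      rw [hT, mul_zero]
    have h2 : degreeOf b Q = degreeOf b p + degreeOf b T := by
      rw [hT, degreeOf_mul_eq hp.ne_zero hT0]
    have h3 : degreeOf b Q = 0 := by
      rw [hQ]
      by_contra h4
      have h5 : b ∈ (rename b.succAbove R).vars := by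
        rw [mem_vars_iff_mem_support]
        obtain ⟨m, hm, hmb⟩ : ∃ m ∈ (rename b.succAbove R).support, m b ≠ 0 := by
          by_contra hcon
          push Not at hcon
          apply h4
          rw [degreeOf_eq_sup]
          apply Nat.eq_zero_of_le_zero
          refine Finset.sup_le fun m hm => ?_
          rw [hcon m hm]
        exact ⟨m, hm, Finsupp.mem_support_iff.2 hmb⟩
      have h6 := vars_rename b.succAbove R h5
      rw [Finset.mem_image] at h6
      obtain ⟨j, -, hj⟩ := h6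
      exact Fin.succAbove_ne b j hj
    have h4 : degreeOf b p = 0 := by omega
    apply hb0
    ext m
    rw [coeff_pderiv, coeff_zero]
    have h5 : coeff (m + Finsupp.single b 1) p = 0 := by
      by_contra h6
      have h7 := monomial_le_degreeOf b (mem_support_iff.2 h6)
      rw [h4] at h7
      simp at h7
    rw [h5, zero_mul]
  have h2 : algebraMap K0 K (aeval X Q) ≠ 0 ∧ w.ord (algebraMap K0 K (aeval X Q)) = 0 := by
    refine ⟨?_, ?_⟩
    · rw [Ne, map_eq_zero]
      exact hX.ne hQ0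
    · rw [h.2, (hv Q hQ0).2.2 hpQ, mul_zero]
  rw [← h1] at h2
  exact h2

end

end Pool.Agent.TH122.AB
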