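import Pool.Agent.W619.Y.Parts
import Pool.Agent.TH122.AB.Plc

/-!
The order of a section of the pluricanonical bundle on the coordinate vector fields of the base.
-/

set_option autoImplicit false
set_option linter.overlappingInstances false
set_option linter.unusedSectionVars false

open FF Pool.Agent.W603.LV Pool.Agent.W619.PQ Pool.Agent.W619.TW Pool.Agent.W619.Y

namespace Pool.Agent.TH122.AB

section

variable {k : Type} [Field k] [CharZero k] {K0 K : Type} [Field K0] [Field K] [Algebra k K0]
  [Algebra k K] [Algebra K0 K] [IsScalarTower k K0 K] [FiniteDimensional K0 K] {n : ℕ}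

theorem sum_der {ι : Type} (s : Finset ι) (c : ι → K) (D : ι → Derivation k K K) (f : K) :
    (∑ i ∈ s, c i • D i) f = ∑ i ∈ s, c i * D i f := by
  classical
  induction s using Finset.induction_on with
  | empty => simp
  | insert i s hi ih =>
    rw [Finset.sum_insert hi, Finset.sum_insert hi, Derivation.add_apply, ih,
      Derivation.smul_apply, smul_eq_mul]

theorem der_ext' {D D' : Derivation k K K} {Z : Fin n → K} (hZ : IsTranscendenceBasis k Z)
    (h : ∀ i, D (Z i) = D' (Z i)) : D = D' := by
  apply Derivation.ext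
  intro f
  have h1 := der_zero (D - D') Z hZ (fun i => by
    rw [Derivation.sub_apply, h, sub_self]) f
  rw [Derivation.sub_apply] at h1
  exact sub_eq_zero.1 h1

theorem log_of {v : Place k K0} {w : Place k K} {e : ℕ} (h : Over w v e) {π : K0}
    (hπ : v.ord π = 1) {D : Derivation k K K}
    (hD : ∀ x : K0, v.Reg x → w.Reg (D (algebraMap K0 K x)))
    (hDπ : w.Reg (D (algebraMap K0 K π) / algebraMap K0 K π)) : ∀ z : K, w.Reg (D z / z) := by
  refine pLOG k K0 K v w e h D fun x => ?_
  by_cases hx : x = 0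
  · rw [hx, map_zero, map_zero, zero_div]
    exact w.reg_zero
  have hπ0 : π ≠ 0 := by
    intro h0
    rw [h0, v.ord_zero] at hπ
    omega
  have hπK : algebraMap K0 K π ≠ 0 := by simpa using hπ0
  obtain ⟨u, hu⟩ : ∃ u, u = x * π ^ (-(v.ord x)) := ⟨_, rfl⟩
  have hu0 : u ≠ 0 := by
    rw [hu]
    exact mul_ne_zero hx (zpow_ne_zero _ hπ0)
  have huK : algebraMap K0 K u ≠ 0 := by simpa using hu0
  have hou : v.ord u = 0 := by
    rw [hu, v.ord_mul hx (zpow_ne_zero _ hπ0), v.ord_zpow, hπ]
    ring
  have hxu : x = u * π ^ (v.ord x) := by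
    rw [hu, mul_assoc, ← zpow_add₀ hπ0]
    simp
  have h1 : algebraMap K0 K x = algebraMap K0 K u * (algebraMap K0 K π) ^ (v.ord x) := by
    conv_lhs => rw [hxu]
    rw [map_mul, map_zpow₀]
  rw [h1, dlog_mul D huK (zpow_ne_zero _ hπK), dlog_zpow D hπK]
  refine w.reg_add ?_ (w.reg_mul ?_ hDπ)
  · rw [div_eq_mul_inv]
    refine w.reg_mul (hD u (Or.inr hou.ge)) (Or.inr ?_)
    rw [w.ord_inv, h.2, hou]
    simp
  · exact Ge.intCast _

/-- The order on the coordinate vector fields is at least `- m (e - 1)`. -/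
theorem jac (htr : Algebra.trdeg k K = n)
    (hfd : ∀ y : Fin n → K, IsTranscendenceBasis k y →
      FiniteDimensional (IntermediateField.adjoin k (Set.range y)) K)
    {v : Place k K0} {w : Place k K} {e : ℕ} (h : Over w v e) (hw : IsDivisorial w n)
    (dd : Fin n → Derivation k K K) (Z : Fin n → K) (hZ : IsTranscendenceBasis k Z)
    (hdual : ∀ i j, dd i (Z j) = if i = j then 1 else 0)
    (hpres : ∀ i, ∀ x : K0, v.Reg x → w.Reg (dd i (algebraMap K0 K x))) {π : K0}
    (hπ : v.ord π = 1) (b0 : Fin n) (hb0 : dd b0 (algebraMap K0 K π) ≠ 0)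
    (hb1 : w.ord (dd b0 (algebraMap K0 K π)) = 0) (S : Finset K) (m : ℕ)
    (ω : (Fin n → Derivation k K K) → K) (hω : IsSec k K n (fun _ => False) S m 1 ω) :
    ω dd = 0 ∨ ∃ s ∈ S, s ≠ 0 ∧ w.ord s ≤ w.ord (ω dd) + m * (e - 1) := by
  classical
  obtain ⟨y, E', i0, hy, hE'y, hi0, hyreg, hEpres⟩ := pFRAME k K n htr hfd w hw
  have hπ0 : π ≠ 0 := by
    intro h0
    rw [h0, v.ord_zero] at hπ
    omega
  have hπK : algebraMap K0 K π ≠ 0 := by simpa using hπ0
  have hwπ : w.ord (algebraMap K0 K π) = e := by rw [h.2, hπ, mul_one]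
  let J : Matrix (Fin n) (Fin n) K := Matrix.of fun a b => E' a (Z b)
  let M : Matrix (Fin n) (Fin n) K := Matrix.of fun b c => dd b (y c)
  have hEdd : ∀ a, E' a = ∑ b, J a b • dd b := by
    intro a
    apply der_ext' hZ
    intro j
    rw [sum_der, Finset.sum_eq_single j]
    · rw [hdual, if_pos rfl, mul_one]
      rfl
    · intro b _ hb
      rw [hdual, if_neg hb, mul_zero]
    · intro hj
      exact absurd (Finset.mem_univ _) hj
  have hJM : J * M = 1 := by
    ext a c
    rw [Matrix.mul_apply, Matrix.one_apply]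
    have h1 := hE'y a c
    rw [hEdd a, sum_der] at h1
    exact h1
  have hdet : J.det * M.det = 1 := by rw [← Matrix.det_mul, hJM, Matrix.det_one]
  have hM0 : M.det ≠ 0 := right_ne_zero_of_mul (by rw [hdet]; exact one_ne_zero)
  have hJ0 : J.det ≠ 0 := left_ne_zero_of_mul (by rw [hdet]; exact one_ne_zero)
  have hy0 : ∀ c, y c ≠ 0 := by
    intro c h0
    have h1 := hE'y c c
    rw [h0, map_zero, if_pos rfl] at h1
    exact zero_ne_one h1
  -- the adapted derivations
  let cc : Fin n → K := fun b => dd b (algebraMap K0 K π) / dd b0 (algebraMap K0 K π)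
  have hccreg : ∀ b, w.Reg (cc b) := by
    intro b
    simp only [cc]
    rw [div_eq_mul_inv]
    refine w.reg_mul (hpres b π (Or.inr (by omega))) (Or.inr ?_)
    rw [w.ord_inv, hb1]
    simp
  let D' : Fin n → Derivation k K K := fun b =>
    if b = b0 then algebraMap K0 K π • dd b0 else dd b - cc b • dd b0
  have hD'b0 : D' b0 = algebraMap K0 K π • dd b0 := by simp only [D', if_true]
  have hD'b : ∀ b, b ≠ b0 → D' b = dd b - cc b • dd b0 := by
    intro b hb
    simp only [D', if_neg hb]
  have hlog : ∀ b, ∀ z : K, w.Reg (D' b z / z) := by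
    intro b
    by_cases hb : b = b0
    · rw [hb, hD'b0]
      refine log_of h hπ (fun x hx => ?_) ?_
      · rw [Derivation.smul_apply, smul_eq_mul]
        refine w.reg_mul (Or.inr ?_) (hpres b0 x hx)
        rw [hwπ]
        positivity
      · rw [Derivation.smul_apply, smul_eq_mul, mul_div_assoc, mul_div_cancel₀ _ hπK]
        exact hpres b0 π (Or.inr (by omega))
    · rw [hD'b b hb]
      refine log_of h hπ (fun x hx => ?_) ?_
      · rw [Derivation.sub_apply, Derivation.smul_apply, smul_eq_mul]
        exact Ge.sub (hpres b x hx) (w.reg_mul (hccreg b) (hpres b0 x hx))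
      · rw [Derivation.sub_apply, Derivation.smul_apply, smul_eq_mul]
        simp only [cc]
        rw [div_mul_cancel₀ _ hb0, sub_self, zero_div]
        exact w.reg_zero
  -- the determinant
  have hdetD : (Matrix.of fun b c => D' b (y c)).det = algebraMap K0 K π * M.det := by
    have h1 : (Matrix.of fun b c => D' b (y c)) =
        Matrix.updateRow (Matrix.of fun b c => dd b (y c) -
          (if b = b0 then 0 else cc b) * dd b0 (y c)) b0
          (algebraMap K0 K π • fun c => dd b0 (y c)) := by
      ext b c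
      by_cases hb : b = b0
      · subst hb
        rw [Matrix.updateRow_self, Matrix.of_apply, hD'b0, Derivation.smul_apply, Pi.smul_apply]
      · rw [Matrix.updateRow_ne hb, Matrix.of_apply, Matrix.of_apply, hD'b b hb, if_neg hb,
          Derivation.sub_apply, Derivation.smul_apply, smul_eq_mul]
    rw [h1, Matrix.det_updateRow_smul]
    congr 1
    have h2 : Matrix.updateRow (Matrix.of fun b c => dd b (y c) -
          (if b = b0 then 0 else cc b) * dd b0 (y c)) b0 (fun c => dd b0 (y c)) =
        Matrix.of fun b c => dd b (y c) - (if b = b0 then 0 else cc b) * dd b0 (y c) := by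
      ext b c
      by_cases hb : b = b0
      · subst hb
        rw [Matrix.updateRow_self, Matrix.of_apply, if_pos rfl, zero_mul, sub_zero]
      · rw [Matrix.updateRow_ne hb]
    rw [h2]
    symm
    refine Matrix.det_eq_of_forall_row_eq_smul_add_const (fun b => if b = b0 then 0 else cc b) b0
      (by simp) (fun b c => ?_)
    rw [Matrix.of_apply, Matrix.of_apply, if_pos rfl, zero_mul, sub_zero]
    simp only [M, Matrix.of_apply]
    ring
  have hge : Ge w 1 (Matrix.of fun b c => D' b (y c)).det := by
    have h1 : (Matrix.of fun b c => D' b (y c)).det =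
        (∏ c, y c) * (Matrix.of fun b c => D' b (y c) / y c).det := by
      rw [← Matrix.det_mul_row]
      congr 1
      ext b c
      rw [Matrix.of_apply, Matrix.of_apply, Matrix.of_apply, mul_div_cancel₀ _ (hy0 c)]
    rw [h1]
    have h2 : Ge w 0 (Matrix.of fun b c => D' b (y c) / y c).det :=
      Pool.Agent.W619.PQ.ge_det w _ fun b c => hlog b (y c)
    have h3 : Ge w 1 (∏ c, y c) := by
      rw [← Finset.mul_prod_erase Finset.univ y (Finset.mem_univ i0)]
      have h4 : Ge w 0 (∏ c ∈ Finset.univ.erase i0, y c) := by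
        refine Finset.prod_induction _ (fun z => Ge w 0 z) (fun a b ha hb => ?_) Ge.one
          fun c _ => hyreg c
        simpa using ha.mul hb
      have h5 : Ge w 1 (y i0) := Or.inr hi0.ge
      simpa using h5.mul h4
    simpa using h3.mul h2
  have hordM : 1 - (e : ℤ) ≤ w.ord M.det := by
    rw [hdetD] at hge
    have h1 := hge.resolve_left (mul_ne_zero hπK hM0)
    rw [w.ord_mul hπK hM0, hwπ] at h1
    linarith
  -- the section
  have hpl := hω.1 J dd
  have hE : E' = fun a => ∑ b, J a b • dd b := funext hEdd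
  rw [← hE] at hpl
  have hsec := hω.2.1 w hw (fun h => h) E' hEpres
  by_cases h0 : ω dd = 0
  · exact Or.inl h0
  right
  have h1 : ω E' ≠ 0 := by
    rw [hpl]
    exact mul_ne_zero (pow_ne_zero _ hJ0) h0
  obtain ⟨s, hs, hs0, hle⟩ := hsec.resolve_left h1
  refine ⟨s, hs, hs0, ?_⟩
  rw [hpl, w.ord_mul (pow_ne_zero _ hJ0) h0, w.ord_pow] at hle
  have h2 : w.ord J.det = - w.ord M.det := by
    have h3 := congrArg w.ord hdet
    rw [w.ord_mul hJ0 hM0, w.ord_one] at h3
    linarith
  rw [h2] at hle
  have h4 : (m : ℤ) * (1 - e) ≤ m * w.ord M.det := mul_le_mul_of_nonneg_left hordM (by positivity)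
  push_cast at hle
  linarith

end

end Pool.Agent.TH122.AB
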