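import Pool.Agent.TH122.AB.Inf
import Pool.Agent.TH122.AB.Jac
import Pool.Agent.TH122.AB.Fd
import Pool.Agent.W619.TW.NDefs
import Pool.Agent.W602.GT.Sys

/-!
Numerical dimension at most zero for Galois covers of projective space with small ramification
along hyperplanes.
-/

set_option autoImplicit false
set_option linter.overlappingInstances false
set_option linter.unusedSectionVars false

open FF MvPolynomial IntermediateField Pool.Agent.W603.LV Pool.Agent.W619.PQ
open Pool.Agent.W619.TW Pool.Agent.W602.GT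

namespace Pool.Agent.TH122.AB

section

variable {k K : Type} [Field k] [CharZero k] [Field K] [Algebra k K] {n : ℕ}

theorem over_comp {G : Subgroup (K ≃ₐ[k] K)} {v : Place k (fixedField G)} {w : Place k K} {e : ℕ}
    (h : Over w v e) {g : K ≃ₐ[k] K} (hg : g ∈ G) : Over (w.comp g) v e := by
  refine ⟨h.1, fun f => ?_⟩
  rw [Place.comp_ord, ← h.2]
  congr 1
  exact f.2 ⟨g, hg⟩

theorem lin_sec {Z : Fin n → K} (hZ : IsTranscendenceBasis k Z) {D : Fin n → Derivation k K K}
    (hD : ∀ i j, D i (Z j) = if i = j then 1 else 0) {N m : ℕ}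
    {ω : Fin N → (Fin n → Derivation k K K) → K} (hlin : LinearIndependent k ω)
    (hω : ∀ l, IsPluriForm k K n m (ω l)) {c : K} (hc : c ≠ 0) :
    LinearIndependent k fun l => ω l D * c := by
  rw [Fintype.linearIndependent_iff] at hlin ⊢
  intro a ha
  apply hlin a
  have h0 : ∑ l, a l • ω l D = 0 := by
    have h1 : (∑ l, a l • ω l D) * c = 0 := by
      rw [Finset.sum_mul, ← ha]
      refine Finset.sum_congr rfl fun l _ => ?_
      rw [smul_mul_assoc]
    exact (mul_eq_zero.1 h1).resolve_right hc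
  funext D'
  have h1 : D' = fun i => ∑ b, D' i (Z b) • D b := by
    funext i
    apply der_ext' hZ
    intro j
    rw [sum_der, Finset.sum_eq_single j]
    · rw [hD, if_pos rfl, mul_one]
    · intro b _ hb
      rw [hD, if_neg hb, mul_zero]
    · intro hj
      exact absurd (Finset.mem_univ _) hj
  rw [Finset.sum_apply, Pi.zero_apply]
  have h2 : ∀ l, (a l • ω l) D' = (Matrix.of fun i b => D' i (Z b)).det ^ m * (a l • ω l D) := by
    intro l
    rw [Pi.smul_apply]
    conv_lhs => rw [h1]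
    have h3 := hω l (Matrix.of fun i b => D' i (Z b)) D
    simp only [Matrix.of_apply] at h3
    rw [h3, mul_smul_comm]
  rw [Finset.sum_congr rfl fun l _ => h2 l, ← Finset.mul_sum, h0, mul_zero]

theorem ineq_adic {m mm e t n : ℤ} (hm : 0 ≤ m) (hmm : m ≤ mm * (n + 3)) (he : 1 ≤ e)
    (he' : e ≤ n + 3) (ht : 1 ≤ t) (hn : 0 ≤ n) (hmm0 : 0 ≤ mm) :
    m * (e - 1) ≤ mm * (n + 2) * (e * t) := by
  have h3 : mm * (n + 2) * (e * 1) ≤ mm * (n + 2) * (e * t) := by
    apply mul_le_mul_of_nonneg_left _ (by positivity)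
    exact mul_le_mul_of_nonneg_left ht (by linarith)
  have h4 : m * (e - 1) ≤ mm * (n + 3) * (e - 1) :=
    mul_le_mul_of_nonneg_right hmm (by linarith)
  have h5 : mm * ((n + 3) * (e - 1)) ≤ mm * ((n + 2) * e) :=
    mul_le_mul_of_nonneg_left (by nlinarith) hmm0
  have h6 : mm * (n + 3) * (e - 1) = mm * ((n + 3) * (e - 1)) := by ring
  have h7 : mm * ((n + 2) * e) = mm * (n + 2) * (e * 1) := by ring
  linarith

theorem ineq_inf {m mm e δ n : ℤ} (hm : 0 ≤ m) (hmm : m ≤ mm * (n + 3))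
    (hmm' : mm * (n + 3) ≤ m + n + 2) (he : 1 ≤ e) (hn : 0 ≤ n) (hmm0 : 0 ≤ mm)
    (h : (e = 1 ∧ δ ≤ n + 3) ∨ (e ≤ n + 3 ∧ δ ≤ n + 2)) :
    0 ≤ m * ((n + 2) * e) - m * (e - 1) - mm * (n + 2) * (e * δ) + (n + 2) ^ 2 * e := by
  rcases h with ⟨rfl, hδ⟩ | ⟨he', hδ⟩
  · have h2 : mm * (n + 2) * δ ≤ (n + 2) * (m + n + 2) := by
      calc mm * (n + 2) * δ ≤ mm * (n + 2) * (n + 3) :=
            mul_le_mul_of_nonneg_left hδ (by positivity)
        _ = (n + 2) * (mm * (n + 3)) := by ring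
        _ ≤ _ := mul_le_mul_of_nonneg_left (by linarith) (by positivity)
    have h3 : mm * (n + 2) * (1 * δ) = mm * (n + 2) * δ := by ring
    have h4 : (n + 2) * (m + n + 2) = m * ((n + 2) * 1) + (n + 2) ^ 2 * 1 := by ring
    linarith
  · have h2 : mm * (n + 2) * (e * δ) ≤ mm * (n + 2) * (e * (n + 2)) := by
      apply mul_le_mul_of_nonneg_left _ (by positivity)
      exact mul_le_mul_of_nonneg_left hδ (by linarith)
    have h3 : mm * (n + 2) * (e * (n + 2)) = (n + 2) * e * (mm * (n + 3)) -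
        (n + 2) * e * mm := by ring
    have h4 : (n + 2) * e * (mm * (n + 3)) ≤ (n + 2) * e * (m + n + 2) := by
      apply mul_le_mul_of_nonneg_left hmm'
      have : 0 ≤ e := by linarith
      positivity
    have h5 := ineq_adic hm hmm he he' le_rfl hn hmm0
    have h6 : mm * (n + 2) * (e * 1) = (n + 2) * e * mm := by ring
    have h7 : (n + 2) * e * (m + n + 2) = m * ((n + 2) * e) + (n + 2) ^ 2 * e := by ring
    linarith

theorem numLe_zero (G : Subgroup (K ≃ₐ[k] K)) [Finite G] {X : Fin (n + 1) → fixedField G}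
    (hX : Gens (k := k) X) (hZ : IsTranscendenceBasis k fun j => (X j : K))
    (hfd : ∀ y : Fin (n + 1) → K, IsTranscendenceBasis k y →
      FiniteDimensional (IntermediateField.adjoin k (Set.range y)) K)
    (lam : Fin (n + 3) → MvPolynomial (Fin (n + 1)) k) (hlam0 : ∀ j, lam j ≠ 0)
    (hlam1 : ∀ j, (lam j).totalDegree ≤ 1)
    (H1 : ∀ p : MvPolynomial (Fin (n + 1)) k, Irreducible p → ∀ v : Place k (fixedField G),
      v.ord (aeval X p) = 1 →
      (∀ P, P ≠ 0 → 0 ≤ v.ord (aeval X P) ∧ (v.ord (aeval X P) = 0 ↔ ¬ p ∣ P)) →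
      ∃ (w : Place k K) (e : ℕ), Over w v e ∧ (e = 1 ∨ (e ≤ n + 3 ∧ ∃ j, p ∣ lam j)))
    (H0 : ∀ v : Place k (fixedField G),
      (∀ P : MvPolynomial (Fin (n + 1)) k, P ≠ 0 → v.ord (aeval X P) = - (P.totalDegree : ℤ)) →
      ∃ (w : Place k K) (e : ℕ), Over w v e ∧
        (e = 1 ∨ (e ≤ n + 3 ∧ ∃ j, (lam j).totalDegree = 0))) :
    NumLe k K (n + 1) (fun _ => False) 0 := by
  classical
  intro S
  have hGal : IsGaloisGroup G (fixedField G) K := isGaloisGroup_fixed G
  have hfdG : FiniteDimensional (fixedField G) K := IsGaloisGroup.finiteDimensional G _ K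
  have htr := Pool.Agent.W602.GT.trdeg_of_basis hZ
  obtain ⟨D, hD0⟩ := Pool.Agent.W602.GT.exists_dual hZ
  have hD : ∀ i j, D i (X j : K) = if i = j then 1 else 0 := by
    intro i j
    have h1 := congrFun (congrFun hD0 i) j
    rw [Matrix.of_apply, Matrix.one_apply] at h1
    exact h1
  -- the chart at infinity
  let X' : Fin (n + 1) → fixedField G := fun j => Fin.cases (X 0)⁻¹ (fun l : Fin n => X l.succ / X 0) j
  have hX'0 : X' 0 = (X 0)⁻¹ := rfl
  have hX's : ∀ l : Fin n, X' l.succ = X l.succ / X 0 := fun l => rfl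
  have hX' : Gens (k := k) X' := hX.flip hX'0 hX's
  have hX0 : X 0 ≠ 0 := by
    have := hX.ne (X_ne_zero (R := k) (0 : Fin (n + 1)))
    rwa [aeval_X] at this
  have hZ0 : (X 0 : K) ≠ 0 := by simpa using hX0
  have hirr : Irreducible (MvPolynomial.X 0 : MvPolynomial (Fin (n + 1)) k) :=
    (MvPolynomial.X_prime (R := k) (i := (0 : Fin (n + 1)))).irreducible
  obtain ⟨v0, hv1, hv0⟩ := exists_adic hX' hirr
  rw [aeval_X] at hv1
  have hdeg : ∀ P : MvPolynomial (Fin (n + 1)) k, P ≠ 0 →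
      v0.ord (aeval X P) = - (P.totalDegree : ℤ) := fun P hP =>
    ord_deg hX hX'0 hX's hv1 hv0 hP
  obtain ⟨w0, e0, h0, hcase0⟩ := H0 v0 hdeg
  have hZ'0 : ((X' 0 : fixedField G) : K) = (X 0 : K)⁻¹ := by
    rw [hX'0]
    rfl
  have hZ's : ∀ l : Fin n, ((X' l.succ : fixedField G) : K) = (X l.succ : K) / (X 0 : K) := by
    intro l
    rw [hX's]
    rfl
  have hbasZ' : IsTranscendenceBasis k fun j => (X' j : K) := by
    have h1 : AlgebraicIndependent k fun j => (X' j : K) := hX'.ind.map' (f := (fixedField G).val)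
      (fixedField G).val.injective
    exact h1.isTranscendenceBasis_of_trdeg_le_of_finite (by rw [htr]; simp)
  -- the matrix of the chart
  obtain ⟨D', hD'⟩ : ∃ D' : Fin (n + 1) → Derivation k K K,
      D' = fun i => ∑ b, mA (fun j => (X j : K)) i b • D b := ⟨_, rfl⟩
  have hD'dual : ∀ i j, D' i ((X' j : fixedField G) : K) = if i = j then 1 else 0 := by
    intro i j
    rw [hD']
    exact dual_mA (Z := fun j => (X j : K)) (Z' := fun j => (X' j : K)) hZ0 hZ'0 hZ's hD i j
  -- the lower bound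
  obtain ⟨M0, hM0⟩ : ∃ M0 : ℤ, ∀ g ∈ G, ∀ s ∈ S, M0 ≤ w0.ord (g s) := by
    have hfin : (Set.image2 (fun (g : K ≃ₐ[k] K) (s : K) => w0.ord (g s)) (G : Set (K ≃ₐ[k] K))
        (S : Set K)).Finite := Set.Finite.image2 _ (Set.toFinite _) (Set.toFinite _)
    obtain ⟨M0, hM0⟩ := hfin.bddBelow
    exact ⟨M0, fun g hg s hs => hM0 (Set.mem_image2_of_mem hg hs)⟩
  obtain ⟨C, hC⟩ := fin_bound G hX hZ hdeg h0 S (M0 - (n + 2) ^ 2 * e0)
  refine ⟨C, fun m N _ hind => ?_⟩
  obtain ⟨ω, hlin, hsec⟩ := hind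
  rw [pow_zero, mul_one]
  obtain ⟨mm, hmm1, hmm2⟩ : ∃ mm : ℕ, m ≤ mm * (n + 3) ∧ mm * (n + 3) ≤ m + n + 2 := by
    refine ⟨(m + n + 2) / (n + 3), ?_, ?_⟩
    · have h1 := Nat.div_add_mod (m + n + 2) (n + 3)
      have h2 := Nat.mod_lt (m + n + 2) (by omega : 0 < n + 3)
      have h3 : (m + n + 2) / (n + 3) * (n + 3) = (n + 3) * ((m + n + 2) / (n + 3)) := mul_comm _ _
      omega
    · exact Nat.div_mul_le_self _ _
  have hmm1' : (m : ℤ) ≤ mm * (n + 3) := by exact_mod_cast hmm1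
  have hmm2' : (mm : ℤ) * (n + 3) ≤ m + n + 2 := by exact_mod_cast hmm2
  obtain ⟨Λ, hΛ⟩ : ∃ Λ : K, Λ = ∏ j, ((aeval X (lam j) : fixedField G) : K) ^ (mm * (n + 2)) :=
    ⟨_, rfl⟩
  have hlamK : ∀ j, ((aeval X (lam j) : fixedField G) : K) ≠ 0 := by
    intro j
    have := hX.ne (hlam0 j)
    simpa using this
  have hΛ0 : Λ ≠ 0 := by
    rw [hΛ]
    exact Finset.prod_ne_zero_iff.2 fun j _ => pow_ne_zero _ (hlamK j)
  have hordΛ : ∀ (v : Place k (fixedField G)) (w : Place k K) (e : ℕ), Over w v e →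
      w.ord Λ = (mm * (n + 2) : ℤ) * (e * ∑ j, v.ord (aeval X (lam j))) := by
    intro v w e h
    rw [hΛ, ord_prod' w Finset.univ _ fun j _ => pow_ne_zero _ (hlamK j), Finset.mul_sum,
      Finset.mul_sum]
    refine Finset.sum_congr rfl fun j _ => ?_
    rw [w.ord_pow]
    have := h.2 (aeval X (lam j))
    change w.ord ((aeval X (lam j) : fixedField G) : K) = _ at this
    rw [this]
    push_cast
    ring
  refine hC N (fun l => ω l D * Λ) (lin_sec hZ hD hlin (fun l => (hsec l).1) hΛ0) ?_ ?_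
  · -- the places of the irreducible polynomials
    intro l p hp v hvp hv
    obtain ⟨w, e, h, hcase⟩ := H1 p hp v hvp hv
    refine ⟨w, e, h, fun g hg => ?_⟩
    have h' := over_comp h hg
    obtain ⟨b, hb0, hb⟩ := exists_pderiv hp
    have hDb : D b (algebraMap (fixedField G) K (aeval X p)) =
        algebraMap (fixedField G) K (aeval X (pderiv b p)) := by
      rw [← aeval_coe, ← aeval_coe]
      exact der_aeval (hD b) p
    have hjac := jac htr hfd h' (div_adic hX hp hv h') D (fun j => (X j : K)) hZ hD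
      (fun i z hz => pres_adic hX hp hv h' (hD i) hz) hvp b (by
        rw [hDb, Ne, map_eq_zero]
        exact hX.ne hb0) (by
        rw [hDb, h'.2, (hv _ hb0).2.2 hb, mul_zero]) S m (ω l) (hsec l)
    rcases hjac with h1 | ⟨s, hs, hs0, hle⟩
    · left
      rw [h1, zero_mul]
    · by_cases hz : ω l D = 0
      · left
        rw [hz, zero_mul]
      right
      refine ⟨s, hs, hs0, ?_⟩
      rw [← Place.comp_ord, ← Place.comp_ord, (w.comp g).ord_mul hz hΛ0, hordΛ v _ e h']
      have hnn : ∀ j, 0 ≤ v.ord (aeval X (lam j)) := fun j => (hv _ (hlam0 j)).1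
      have he1 : (1 : ℤ) ≤ e := by exact_mod_cast h.1
      have hmm0 : (0 : ℤ) ≤ mm := by positivity
      have hn0 : (0 : ℤ) ≤ n := by positivity
      have hm0 : (0 : ℤ) ≤ m := by positivity
      rcases hcase with he | ⟨he, j, hj⟩
      · have h2 : 0 ≤ (mm * (n + 2) : ℤ) * (e * ∑ j, v.ord (aeval X (lam j))) := by
          have : 0 ≤ ∑ j, v.ord (aeval X (lam j)) := Finset.sum_nonneg fun j _ => hnn j
          positivity
        rw [he] at hle h2 ⊢
        push_cast at hle h2 ⊢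
        linarith
      · have h2 : 1 ≤ ∑ j, v.ord (aeval X (lam j)) := by
          have h3 : v.ord (aeval X (lam j)) ≤ ∑ j, v.ord (aeval X (lam j)) :=
            Finset.single_le_sum (fun j _ => hnn j) (Finset.mem_univ j)
          have h4 : v.ord (aeval X (lam j)) ≠ 0 := fun h5 => (hv _ (hlam0 j)).2.1 h5 hj
          have h5 := hnn j
          omega
        have he' : (e : ℤ) ≤ n + 3 := by exact_mod_cast he
        have h3 := ineq_adic hm0 hmm1' he1 he' h2 hn0 hmm0
        linarith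
  · -- the place at infinity
    intro l g hg
    have h' := over_comp h0 hg
    have hDb : D' 0 (algebraMap (fixedField G) K (X' 0)) = 1 := by
      have := hD'dual 0 0
      rw [if_pos rfl] at this
      exact this
    have hjac := jac htr hfd h' (div_adic hX' hirr hv0 h') D' (fun j => (X' j : K)) hbasZ'
      hD'dual (fun i z hz => pres_adic hX' hirr hv0 h' (hD'dual i) hz) hv1 0 (by
        rw [hDb]
        exact one_ne_zero) (by
        rw [hDb]
        exact (w0.comp g).ord_one) S m (ω l) (hsec l)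
    have hpl : ω l D' = (- (X 0 : K) ^ (n + 2)) ^ m * ω l D := by
      rw [hD', (hsec l).1 (mA fun j => (X j : K)) D, det_mA]
    by_cases hz : ω l D = 0
    · left
      rw [hz, zero_mul, map_zero]
    right
    have hneg : - (X 0 : K) ^ (n + 2) ≠ 0 := neg_ne_zero.2 (pow_ne_zero _ hZ0)
    have hordX0 : (w0.comp g).ord (X 0 : K) = - (e0 : ℤ) := by
      have h1 := h'.2 (X 0)
      have h2 := hdeg (MvPolynomial.X 0) (X_ne_zero _)
      rw [aeval_X, totalDegree_X] at h2
      rw [h2] at h1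
      change (w0.comp g).ord (X 0 : K) = _ at h1
      rw [h1]
      push_cast
      ring
    have hjac' : ∃ s ∈ S, (w0.comp g).ord s ≤ (w0.comp g).ord (ω l D') + m * ((e0 : ℤ) - 1) := by
      rcases hjac with h1 | ⟨s, hs, hs0, hle⟩
      · rw [hpl] at h1
        exact absurd h1 (mul_ne_zero (pow_ne_zero _ hneg) hz)
      · exact ⟨s, hs, hle⟩
    obtain ⟨s, hs, hle⟩ := hjac'
    have hMs := hM0 g hg s hs
    rw [Place.comp_ord] at hle
    rw [hpl, (w0.comp g).ord_mul (pow_ne_zero _ hneg) hz, (w0.comp g).ord_pow,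
      (w0.comp g).ord_neg, (w0.comp g).ord_pow, hordX0] at hle
    rw [← Place.comp_ord, (w0.comp g).ord_mul hz hΛ0, hordΛ v0 _ e0 h']
    have hsum : ∑ j, v0.ord (aeval X (lam j)) = - ((∑ j, (lam j).totalDegree : ℕ) : ℤ) := by
      push_cast
      rw [← Finset.sum_neg_distrib]
      exact Finset.sum_congr rfl fun j _ => hdeg _ (hlam0 j)
    rw [hsum]
    obtain ⟨δ, hδ⟩ : ∃ δ : ℕ, δ = ∑ j, (lam j).totalDegree := ⟨_, rfl⟩
    rw [← hδ]
    have hδ1 : δ ≤ n + 3 := by
      rw [hδ]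
      calc ∑ j, (lam j).totalDegree ≤ ∑ j : Fin (n + 3), 1 := Finset.sum_le_sum fun j _ => hlam1 j
        _ = n + 3 := by simp
    have he1 : (1 : ℤ) ≤ e0 := by exact_mod_cast h0.1
    have hmm0 : (0 : ℤ) ≤ mm := by positivity
    have hn0 : (0 : ℤ) ≤ n := by positivity
    have hm0 : (0 : ℤ) ≤ m := by positivity
    push_cast at hle ⊢
    have key := ineq_inf (δ := δ) hm0 hmm1' hmm2' he1 hn0 hmm0 (by
      rcases hcase0 with he | ⟨he, j, hj⟩
      · exact Or.inl ⟨by exact_mod_cast he, by exact_mod_cast hδ1⟩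
      · refine Or.inr ⟨by exact_mod_cast he, ?_⟩
        have hδ2 : δ ≤ n + 2 := by
          rw [hδ, ← Finset.add_sum_erase _ _ (Finset.mem_univ j), hj, zero_add]
          calc ∑ j ∈ Finset.univ.erase j, (lam j).totalDegree
              ≤ ∑ j ∈ Finset.univ.erase j, 1 := Finset.sum_le_sum fun j _ => hlam1 j
            _ = n + 2 := by simp
        exact_mod_cast hδ2)
    nlinarith

end

end Pool.Agent.TH122.AB
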