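import Pool.Agent.TH122.AB.Mon
import Pool.Agent.TH122.AB.Nu
import Pool.Agent.TH122.AB.Circ

/-!
The numerical dimension of the covers of projective space over `n + 2` hyperplanes in general
position with all multiplicities `n + 2`.
-/

set_option autoImplicit false
set_option linter.overlappingInstances false
set_option linter.unusedSectionVars false

open FF IntermediateField Pool.Agent.W603.LV Pool.Agent.W602.GT Pool.Agent.W602.Cov
open Pool.Agent.W602.Cov.Cover Pool.Agent.W602.Cov.G Pool.Agent.TH152.AC Pool.Agent.W619.PQ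
open MvPolynomial

namespace Pool.Agent.TH122.AB

section

variable {n : ℕ} {K : Type} [Field K] [Algebra ℂ K] {x : Fin (n + 1) → K}

/-- the polynomial of a linear form -/
noncomputable def lp (φ : Form n) : MvPolynomial (Fin n) ℂ :=
  C (φ (Pi.single 0 1)) + ∑ j : Fin n, C (φ (Pi.single j.succ 1)) * MvPolynomial.X j

theorem lp_aeval (hx0 : x 0 ≠ 0) (φ : Form n) :
    aeval (fun j : Fin n => x j.succ / x 0) (lp φ) = lf φ x / x 0 := by
  unfold lf lp
  rw [Fin.sum_univ_succ, add_div, map_add, map_sum, aeval_C, mul_div_assoc, div_self hx0,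
    mul_one, Finset.sum_div]
  congr 1
  refine Finset.sum_congr rfl fun j _ => ?_
  rw [map_mul, aeval_C, aeval_X, mul_div_assoc]

theorem lp_deg (φ : Form n) : (lp φ).totalDegree ≤ 1 := by
  unfold lp
  refine (totalDegree_add _ _).trans (max_le ?_ ?_)
  · rw [totalDegree_C]
    omega
  · refine (totalDegree_finsetSum _ _).trans (Finset.sup_le fun j _ => ?_)
    refine (totalDegree_mul _ _).trans ?_
    rw [totalDegree_C, totalDegree_X]

theorem lp_smul (t : ℂ) (φ : Form n) : lp (t • φ) = C t * lp φ := by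
  unfold lp
  rw [mul_add, Finset.mul_sum, LinearMap.smul_apply, smul_eq_mul, C_mul]
  congr 1
  refine Finset.sum_congr rfl fun j _ => ?_
  rw [LinearMap.smul_apply, smul_eq_mul, C_mul, mul_assoc]

theorem coeff_lp_zero (φ : Form n) : coeff 0 (lp φ) = φ (Pi.single 0 1) := by
  unfold lp
  rw [coeff_add, coeff_sum]
  simp

theorem coeff_lp_single (φ : Form n) (j : Fin n) :
    coeff (Finsupp.single j 1) (lp φ) = φ (Pi.single j.succ 1) := by
  classical
  unfold lp
  rw [coeff_add, coeff_sum, coeff_C, if_neg (by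
      intro h
      have := congrArg (fun f => f j) h
      simp at this), zero_add, Finset.sum_eq_single j]
  · simp
  · intro j' _ hj'
    rw [coeff_C_mul, coeff_X, if_neg, mul_zero]
    intro h
    exact hj' (Finsupp.single_left_injective one_ne_zero h)
  · intro h
    exact absurd (Finset.mem_univ _) h

theorem lp_inj {φ φ' : Form n} (h : lp φ = lp φ') : φ = φ' := by
  apply LinearMap.pi_ext'
  intro j
  apply LinearMap.ext_ring
  refine Fin.cases ?_ (fun j => ?_) j
  · have := coeff_lp_zero φ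
    rw [h, coeff_lp_zero] at this
    simpa using this.symm
  · have := coeff_lp_single φ j
    rw [h, coeff_lp_single] at this
    simpa using this.symm

theorem lp_ne {φ : Form n} (h : φ ≠ 0) : lp φ ≠ 0 := by
  intro h0
  apply h
  apply lp_inj
  rw [h0]
  simp [lp]

theorem par_of_deg {φ φ' : Form n} (h0 : φ ≠ 0) (h : (lp φ).totalDegree = 0)
    (h' : (lp φ').totalDegree = 0) : ∃ t : ℂ, φ' = t • φ := by
  rw [totalDegree_eq_zero_iff_eq_C] at h h'
  have ha : coeff 0 (lp φ) ≠ 0 := by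
    intro h1
    apply lp_ne h0
    rw [h, h1, C_0]
  refine ⟨coeff 0 (lp φ') / coeff 0 (lp φ), lp_inj ?_⟩
  rw [lp_smul, h', h, coeff_C, coeff_C, if_pos rfl, if_pos rfl, ← C_mul, div_mul_cancel₀ _ ha]

theorem dvd_lp {p : MvPolynomial (Fin n) ℂ} (hp : Irreducible p) {φ : Form n} (h0 : φ ≠ 0)
    (h : p ∣ lp φ) : ∃ c : ℂ, c ≠ 0 ∧ lp φ = C c * p := by
  obtain ⟨R, hR⟩ := h
  have hR0 : R ≠ 0 := by
    rintro rfl
    apply lp_ne h0
    rw [hR, mul_zero]
  have h1 := lp_deg φ
  rw [hR, totalDegree_mul_of_isDomain hp.ne_zero hR0] at h1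
  have h2 : p.totalDegree ≠ 0 := by
    intro h3
    rw [totalDegree_eq_zero_iff_eq_C] at h3
    apply hp.not_isUnit
    rw [h3]
    refine (isUnit_iff_ne_zero.2 fun h0 => ?_).map C
    apply hp.ne_zero
    rw [h3, h0, C_0]
  have h3 : R.totalDegree = 0 := by omega
  rw [totalDegree_eq_zero_iff_eq_C] at h3
  refine ⟨coeff 0 R, ?_, ?_⟩
  · intro h4
    apply hR0
    rw [h3, h4, C_0]
  · rw [hR, mul_comm, ← h3]

theorem par_of_dvd {p : MvPolynomial (Fin n) ℂ} (hp : Irreducible p) {φ φ' : Form n}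
    (h0 : φ ≠ 0) (h0' : φ' ≠ 0) (h : p ∣ lp φ) (h' : p ∣ lp φ') : ∃ t : ℂ, φ' = t • φ := by
  obtain ⟨c, hc, h1⟩ := dvd_lp hp h0 h
  obtain ⟨c', -, h2⟩ := dvd_lp hp h0' h'
  refine ⟨c' / c, lp_inj ?_⟩
  rw [lp_smul, h2, h1, ← mul_assoc, ← C_mul, div_mul_cancel₀ _ hc]

end

section

variable {n q r : ℕ}

theorem not_par {ℓ : Fin q → Form n} (hn : 1 ≤ n) {c : Fin (n + 2) → Fin q} (hc : General ℓ c)
    {j j' : Fin (n + 2)} (hne : j ≠ j') (t : ℂ) : ℓ (c j') ≠ t • ℓ (c j) := by
  classical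
  intro h
  obtain ⟨j'', h1, h2⟩ : ∃ j'' : Fin (n + 2), j'' ≠ j ∧ j'' ≠ j' := by
    have h3 : ({j, j'} : Finset (Fin (n + 2))).card < (Finset.univ : Finset (Fin (n + 2))).card := by
      rw [Finset.card_univ, Fintype.card_fin]
      exact lt_of_le_of_lt Finset.card_le_two (by omega)
    obtain ⟨j'', -, h4⟩ := Finset.exists_mem_notMem_of_card_lt_card h3
    rw [Finset.mem_insert, Finset.mem_singleton, not_or] at h4
    exact ⟨j'', h4.1, h4.2⟩
  obtain ⟨a, ha⟩ := Fin.exists_succAbove_eq h1.symm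
  obtain ⟨a', ha'⟩ := Fin.exists_succAbove_eq h2.symm
  have haa : a ≠ a' := by
    rintro rfl
    exact hne (ha.symm.trans ha')
  have h3 := Fintype.linearIndependent_iff.1 (hc.1 j'')
    (fun b => if b = a' then 1 else if b = a then -t else 0) (by
      rw [← Finset.add_sum_erase _ _ (Finset.mem_univ a'), if_pos rfl,
        ← Finset.add_sum_erase _ _ (Finset.mem_erase.2 ⟨haa, Finset.mem_univ a⟩), if_neg haa,
        if_pos rfl, Finset.sum_eq_zero, ha, ha', h, one_smul, add_zero, neg_smul, add_neg_cancel]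
      intro b hb
      rw [Finset.mem_erase, Finset.mem_erase] at hb
      rw [if_neg hb.2.1, if_neg hb.1, zero_smul]) a'
  rw [if_pos rfl] at h3
  exact one_ne_zero h3

/-- all multiplicities of the hyperplanes are `n + 2` -/
def Calabi (X : Cover n q r) (c : Fin (n + 2) → Fin q) : Prop := by
  classical
  exact ∀ j k, X.m k ∣ ∑ i, X.e k i * (if ∃ t : ℂ, X.ℓ i = t • X.ℓ (c j) then n + 2 else 0)

variable (X : Cover n q r) {K : Type} [Field K] [Algebra ℂ K]
  {x : Fin (n + 1) → K} {y : Fin r → K}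

theorem ram_cy (hn : 1 ≤ n) (hF : X.Free) (hK : X.FunctionField K x y)
    (G : Subgroup (K ≃ₐ[ℂ] K)) [Finite G]
    (hG : ∀ j : Fin n, x j.succ / x 0 ∈ fixedField G) (L : Fin q → fixedField G)
    (hL : ∀ i, (L i : K) = lf (X.ℓ i) x / x 0) (v : Place ℂ (fixedField G)) (a0 : ℤ)
    (v' : Fin q → ℕ) (hord : ∀ i, v.ord (L i) = a0 + v' i) (hle : ∀ i, v' i ≤ 1)
    (hpar : ∀ i i', v' i ≠ 0 → v' i' ≠ 0 → ∃ t : ℂ, X.ℓ i = t • X.ℓ i')
    {c : Fin (n + 2) → Fin q} (hc : General X.ℓ c) (hcal : Calabi X c) :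
    ∃ (w : Place ℂ K) (e : ℕ), Over w v e ∧ (e = 1 ∨ (e ≤ n + 2 ∧ ∃ j, v' (c j) ≠ 0)) := by
  classical
  obtain ⟨h1, -, hx0, -⟩ := Pool.Agent.W352.CG.TRA.main n q r X K x y hK
  have hlx : ∀ i, lf (X.ℓ i) x ≠ 0 := fun i => h1 _ (X.hℓ i)
  have hL0 : ∀ i, L i ≠ 0 := by
    intro i h0
    have h2 := hL i
    rw [h0] at h2
    exact div_ne_zero (hlx i) hx0 h2.symm
  have hpar' : ∀ i i' (t : ℂ), X.ℓ i = t • X.ℓ i' → v' i = v' i' := by
    intro i i' t ht
    have ht0 : t ≠ 0 := by
      rintro rfl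
      exact X.hℓ i (by rw [ht, zero_smul])
    have h2 : L i = algebraMap ℂ (fixedField G) t * L i' := by
      apply Subtype.ext
      change (L i : K) = algebraMap ℂ K t * (L i' : K)
      rw [hL, hL, ht, lf_smul, mul_div_assoc]
    have ht1 : algebraMap ℂ (fixedField G) t ≠ 0 := by
      rw [Ne, map_eq_zero]
      exact ht0
    have h3 := congrArg v.ord h2
    rw [v.ord_mul ht1 (hL0 i'), v.ord_const ht0, hord, hord] at h3
    omega
  obtain ⟨i0, hi0⟩ : ∃ i0, v' i0 = 0 := by
    by_contra hcon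
    push Not at hcon
    obtain ⟨t, ht⟩ := hpar (c 1) (c 0) (hcon _) (hcon _)
    exact not_par hn hc (by simp) t ht
  have hspan : Submodule.span ℂ (X.ℓ '' {i | v' i ≠ 0}) ≠ ⊤ := by
    intro htop
    have hmem : X.ℓ i0 ∈ Submodule.span ℂ (X.ℓ '' {i | v' i ≠ 0}) := by
      rw [htop]
      trivial
    by_cases hex : ∃ i1, v' i1 ≠ 0
    · obtain ⟨i1, hi1⟩ := hex
      have h2 : Submodule.span ℂ (X.ℓ '' {i | v' i ≠ 0}) ≤ Submodule.span ℂ {X.ℓ i1} := by
        rw [Submodule.span_le]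
        rintro _ ⟨i, hi, rfl⟩
        obtain ⟨t, ht⟩ := hpar i i1 hi hi1
        exact Submodule.mem_span_singleton.2 ⟨t, ht.symm⟩
      obtain ⟨t, ht⟩ := Submodule.mem_span_singleton.1 (h2 hmem)
      have h3 := hpar' i0 i1 t ht.symm
      omega
    · push Not at hex
      have h2 : {i | v' i ≠ 0} = (∅ : Set (Fin q)) := by
        ext i
        simp [hex i]
      rw [h2, Set.image_empty, Submodule.span_empty, Submodule.mem_bot] at hmem
      exact X.hℓ i0 hmem
  obtain ⟨w, e, hwv, he⟩ := ram X hF hK G hG L hL v a0 v' hord i0 hi0 hspan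
  refine ⟨w, e, hwv, ?_⟩
  by_cases hex : ∃ i1, v' i1 ≠ 0
  · obtain ⟨i1, hi1⟩ := hex
    right
    obtain ⟨j, t, ht⟩ := hc.2 i1
    have h2 := hpar' _ _ t ht
    have hcj : v' (c j) ≠ 0 := by omega
    refine ⟨?_, j, hcj⟩
    have h3 := he (n + 2) (by
      intro k
      have h4 := hcal j k
      have h5 : ∑ i, X.e k i * (if ∃ t : ℂ, X.ℓ i = t • X.ℓ (c j) then n + 2 else 0) =
          (n + 2) * ∑ i, X.e k i * v' i := by
        rw [Finset.mul_sum]
        refine Finset.sum_congr rfl fun i _ => ?_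
        by_cases hi : ∃ t : ℂ, X.ℓ i = t • X.ℓ (c j)
        · obtain ⟨t', ht'⟩ := hi
          have h6 := hpar' _ _ t' ht'
          have h7 := hle i
          have h8 : v' i = 1 := by omega
          rw [if_pos ⟨t', ht'⟩, h8]
          ring
        · rw [if_neg hi]
          have h6 : v' i = 0 := by
            by_contra h7
            exact hi (hpar i (c j) h7 hcj)
          rw [h6]
          simp
      rw [← h5]
      exact h4)
    exact Nat.le_of_dvd (by omega) h3
  · left
    push Not at hex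
    have h2 := he 1 (fun k => by
      simp [hex])
    exact Nat.dvd_one.1 h2

end

section

variable {n q r : ℕ} (X : Cover (n + 1) q r) {K : Type} [Field K] [Algebra ℂ K]
  {x : Fin (n + 2) → K} {y : Fin r → K}

theorem nu_le (hF : X.Free) (hK : X.FunctionField K x y)
    {c : Fin (n + 3) → Fin q} (hc : General X.ℓ c) (hcal : Calabi X c) :
    Pool.Agent.W619.TW.NumLe ℂ K (n + 1) (fun _ => False) 0 := by
  classical
  have hcK : CharZero K := charZero_of_injective_algebraMap (algebraMap ℂ K).injective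
  obtain ⟨hlx, hx0, hbas⟩ := coords X hK
  obtain ⟨S, hSfin, hS0, hgen, hS⟩ := exists_gens X hF hK (c 0)
  obtain ⟨E, hE⟩ : ∃ E, E = IntermediateField.adjoin ℂ
    (Set.range fun j : Fin (n + 1) => x j.succ / x 0) := ⟨_, rfl⟩
  have hEmem : ∀ j : Fin (n + 1), x j.succ / x 0 ∈ E := by
    intro j
    rw [hE]
    exact IntermediateField.subset_adjoin ℂ _ ⟨j, rfl⟩
  have hM := pow_mem_of X (hF := hF) hK (c 0) hS hEmem
  have hMpos : 0 < X.d * ∏ k, X.m k :=
    Nat.mul_pos X.hd (Finset.prod_pos fun k _ => X.hm k)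
  have hgen' : ∀ L : IntermediateField ℂ K, E ≤ L → S ⊆ L → L = ⊤ := fun L hL hSL =>
    hgen L (fun j => hL (hEmem j)) hSL
  obtain ⟨hfd, hgal⟩ := galois_of_roots E hSfin hgen' hMpos hM
  obtain ⟨hfinG, hfix⟩ := fixing_props E
  obtain ⟨G, hG⟩ : ∃ G, G = E.fixingSubgroup := ⟨_, rfl⟩
  rw [← hG] at hfinG hfix
  have hGmem : ∀ j : Fin (n + 1), x j.succ / x 0 ∈ fixedField G := by
    intro j
    rw [hfix]
    exact hEmem j
  let X0 : Fin (n + 1) → fixedField G := fun j => ⟨x j.succ / x 0, hGmem j⟩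
  have hX0 : Gens (k := ℂ) X0 := gens_of hbas.1 (hfix.trans hE) fun j => rfl
  have hcoe : ∀ P : MvPolynomial (Fin (n + 1)) ℂ, ((aeval X0 P : fixedField G) : K) =
      aeval (fun j : Fin (n + 1) => x j.succ / x 0) P := by
    intro P
    exact (MvPolynomial.aeval_algebraMap_apply K X0 P).symm
  let L : Fin q → fixedField G := fun i => aeval X0 (lp (X.ℓ i))
  have hL : ∀ i, (L i : K) = lf (X.ℓ i) x / x 0 := by
    intro i
    change ((aeval X0 (lp (X.ℓ i)) : fixedField G) : K) = _
    rw [hcoe, lp_aeval hx0]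
  refine numLe_zero G hX0 hbas ?_ (fun j => lp (X.ℓ (c j))) (fun j => lp_ne (X.hℓ _))
    (fun j => lp_deg _) ?_ ?_
  · -- finiteness
    intro t ht
    have halg : Algebra.IsAlgebraic (IntermediateField.adjoin ℂ (Set.range t)) K :=
      ht.isAlgebraic_field
    refine (fin_of_gen (IntermediateField.adjoin ℂ (Set.range t))
      (S := S ∪ Set.range fun j : Fin (n + 1) => x j.succ / x 0)
      (hSfin.union (Set.finite_range _)) (fun L _ hSL => ?_)
      (fun z _ => (Algebra.IsAlgebraic.isAlgebraic z).isIntegral)).1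
    exact hgen L (fun j => hSL (Or.inr ⟨j, rfl⟩)) (fun z hz => hSL (Or.inl hz))
  · -- the places of the irreducible polynomials
    intro p hp v hvp hv
    obtain ⟨w, e, h1, h2⟩ := ram_cy X (by omega) hF hK G hGmem L hL v 0
      (fun i => if p ∣ lp (X.ℓ i) then 1 else 0) (by
        intro i
        change v.ord (aeval X0 (lp (X.ℓ i))) = _
        by_cases hi : p ∣ lp (X.ℓ i)
        · rw [if_pos hi]
          obtain ⟨a, ha, hlp⟩ := dvd_lp hp (X.hℓ i) hi
          have ha1 : algebraMap ℂ (fixedField G) a ≠ 0 := by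
            rw [Ne, map_eq_zero]
            exact ha
          rw [hlp, map_mul, aeval_C, v.ord_mul ha1 (hX0.ne hp.ne_zero), v.ord_const ha, hvp]
          norm_num
        · rw [if_neg hi, (hv _ (lp_ne (X.hℓ i))).2.2 hi]
          norm_num) (by
        intro i
        split_ifs <;> omega) (by
        intro i i' hi hi'
        have h3 : p ∣ lp (X.ℓ i) := by
          by_contra h4
          rw [if_neg h4] at hi
          exact hi rfl
        have h3' : p ∣ lp (X.ℓ i') := by
          by_contra h4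
          rw [if_neg h4] at hi'
          exact hi' rfl
        exact par_of_dvd hp (X.hℓ i') (X.hℓ i) h3' h3) hc hcal
    refine ⟨w, e, h1, ?_⟩
    rcases h2 with h2 | ⟨h2, j, hj⟩
    · exact Or.inl h2
    · refine Or.inr ⟨h2, j, ?_⟩
      by_contra h4
      rw [if_neg h4] at hj
      exact hj rfl
  · -- the place at infinity
    intro v hv
    obtain ⟨w, e, h1, h2⟩ := ram_cy X (by omega) hF hK G hGmem L hL v (-1)
      (fun i => 1 - (lp (X.ℓ i)).totalDegree) (by
        intro i
        change v.ord (aeval X0 (lp (X.ℓ i))) = _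
        rw [hv _ (lp_ne (X.hℓ i))]
        have := lp_deg (X.ℓ i)
        omega) (by
        intro i
        omega) (by
        intro i i' hi hi'
        exact par_of_deg (X.hℓ i') (by omega) (by omega)) hc hcal
    refine ⟨w, e, h1, ?_⟩
    rcases h2 with h2 | ⟨h2, j, hj⟩
    · exact Or.inl h2
    · exact Or.inr ⟨h2, j, by omega⟩

end

end Pool.Agent.TH122.AB
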