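import Pool.Agent.TH122.AB.Gal
import Pool.Agent.W619.TW.Rot
import Pool.Agent.W427.CG.GNR
import Pool.Agent.W924.CG.GCD

/-!
Monomials of weight zero in the function field of an abelian cover of projective space, and the
ramification indices over the places of the field of rational functions.
-/

set_option autoImplicit false
set_option linter.overlappingInstances false
set_option linter.unusedSectionVars false

open FF IntermediateField Pool.Agent.W603.LV Pool.Agent.W602.GT Pool.Agent.W602.Cov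
open Pool.Agent.W602.Cov.Cover Pool.Agent.W602.Cov.G Pool.Agent.TH152.AC Pool.Agent.W619.PQ

namespace Pool.Agent.TH122.AB

section

variable {n q r : ℕ} (X : Cover n q r) {K : Type} [Field K] [Algebra ℂ K]
  {x : Fin (n + 1) → K} {y : Fin r → K}

theorem lf_mem {L : IntermediateField ℂ K} (hx0 : x 0 ≠ 0) (hL : ∀ j : Fin n, x j.succ / x 0 ∈ L)
    (φ : Form n) : lf φ x / x 0 ∈ L := by
  unfold lf
  rw [Finset.sum_div]
  refine sum_mem fun j _ => ?_
  rw [mul_div_assoc]
  refine mul_mem (L.algebraMap_mem _) ?_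
  refine Fin.cases ?_ (fun j => ?_) j
  · rw [div_self hx0]
    exact one_mem L
  · exact hL j

theorem exists_gens (hF : X.Free) (hK : X.FunctionField K x y) (i0 : Fin q) :
    ∃ S : Set K, S.Finite ∧ (∀ z ∈ S, z ≠ 0) ∧
      (∀ L : IntermediateField ℂ K, (∀ j : Fin n, x j.succ / x 0 ∈ L) → S ⊆ L → L = ⊤) ∧
      ∀ H : ℤ → K → Prop, H 0 1 →
        (∀ t t' z z', z ≠ 0 → z' ≠ 0 → H t z → H t' z' → H (t + t') (z * z')) →
        (∀ t z, z ≠ 0 → H t z → H (-t) z⁻¹) → H X.d (lf (X.ℓ i0) x) →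
        (∀ k, H (X.w k) (y k)) → ∀ z ∈ S, H 0 z := by
  classical
  obtain ⟨h1, hy0, hx0, -⟩ := Pool.Agent.W352.CG.TRA.main n q r X K x y hK
  have hl0 : lf (X.ℓ i0) x ≠ 0 := h1 _ (X.hℓ i0)
  obtain ⟨α, β, hαβ⟩ := Pool.Agent.W924.CG.GCD.main n q r X hF
  obtain ⟨u, hu⟩ : ∃ u, u = lf (X.ℓ i0) x ^ α * ∏ k, y k ^ β k := ⟨_, rfl⟩
  have hp0 : ∏ k, y k ^ β k ≠ 0 := Finset.prod_ne_zero_iff.2 fun k _ => zpow_ne_zero _ (hy0 k)
  have hu0 : u ≠ 0 := by
    rw [hu]
    exact mul_ne_zero (zpow_ne_zero _ hl0) hp0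
  refine ⟨insert (lf (X.ℓ i0) x / u ^ X.d) (Set.range fun k => y k / u ^ X.w k),
    Set.Finite.insert _ (Set.finite_range _), ?_, ?_, ?_⟩
  · intro z hz
    rcases hz with rfl | ⟨k, rfl⟩
    · exact div_ne_zero hl0 (pow_ne_zero _ hu0)
    · exact div_ne_zero (hy0 k) (pow_ne_zero _ hu0)
  · intro L hL hSL
    have hli : LinearIndependent ℂ fun j : Fin (n + 1) => (LinearMap.proj j : Form n) := by
      rw [Fintype.linearIndependent_iff]
      intro a ha j
      have h2 := congrArg (fun φ : Form n => φ (Pi.single j 1)) ha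
      simp only [LinearMap.sum_apply, LinearMap.smul_apply, LinearMap.proj_apply,
        LinearMap.zero_apply, smul_eq_mul] at h2
      rw [Finset.sum_eq_single j] at h2
      · simpa using h2
      · intro b _ hb
        rw [Pi.single_eq_of_ne hb, mul_zero]
      · intro hj
        exact absurd (Finset.mem_univ _) hj
    have h2 := Pool.Agent.W427.CG.GNR.main n q r X _ hli K x y hK u hu0
    rw [eq_top_iff, ← h2, IntermediateField.adjoin_le_iff]
    rintro z (⟨j, rfl⟩ | ⟨k, rfl⟩)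
    · change lf (LinearMap.proj j : Form n) x / u ^ X.d ∈ L
      have h3 : lf (LinearMap.proj j : Form n) x / u ^ X.d =
          (lf (LinearMap.proj j : Form n) x / x 0) * (lf (X.ℓ i0) x / x 0)⁻¹ *
            (lf (X.ℓ i0) x / u ^ X.d) := by
        field_simp
      rw [h3]
      exact mul_mem (mul_mem (lf_mem hx0 hL _) (inv_mem (lf_mem hx0 hL _)))
        (hSL (Set.mem_insert _ _))
    · exact hSL (Set.mem_insert_of_mem _ ⟨k, rfl⟩)
  · intro H h01 hmul hinv hld hyw
    have hpow : ∀ (t : ℤ) (z : K), z ≠ 0 → H t z → ∀ a : ℕ, H (a * t) (z ^ a) := by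
      intro t z hz ht a
      induction a with
      | zero => simpa using h01
      | succ a ih =>
        have h2 := hmul _ _ _ _ (pow_ne_zero a hz) hz ih ht
        have h3 : ((a + 1 : ℕ) : ℤ) * t = a * t + t := by
          push_cast
          ring
        rw [h3, pow_succ]
        exact h2
    have hzpow : ∀ (t : ℤ) (z : K), z ≠ 0 → H t z → ∀ a : ℤ, H (a * t) (z ^ a) := by
      intro t z hz ht a
      rcases Int.le_total 0 a with ha | ha
      · obtain ⟨b, rfl⟩ := Int.eq_ofNat_of_zero_le ha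
        rw [zpow_natCast]
        exact hpow t z hz ht b
      · obtain ⟨b, hb⟩ := Int.eq_ofNat_of_zero_le (by linarith : 0 ≤ -a)
        have ha' : a = -(b : ℤ) := by linarith
        have h2 := hinv _ _ (pow_ne_zero b hz) (hpow t z hz ht b)
        rw [ha', zpow_neg, zpow_natCast, neg_mul]
        exact h2
    have hprod : ∀ T : Finset (Fin r), H (∑ k ∈ T, β k * X.w k) (∏ k ∈ T, y k ^ β k) := by
      intro T
      induction T using Finset.induction_on with
      | empty => simpa using h01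
      | insert a T ha ih =>
        rw [Finset.sum_insert ha, Finset.prod_insert ha]
        exact hmul _ _ _ _ (zpow_ne_zero _ (hy0 a))
          (Finset.prod_ne_zero_iff.2 fun k _ => zpow_ne_zero _ (hy0 k))
          (hzpow _ _ (hy0 a) (hyw a) (β a)) ih
    have hu1 : H 1 u := by
      have h2 := hmul _ _ _ _ (zpow_ne_zero α hl0) hp0 (hzpow _ _ hl0 hld α) (hprod Finset.univ)
      rw [hαβ, ← hu] at h2
      exact h2
    have hfin : ∀ (t : ℕ) (z : K), z ≠ 0 → H t z → H 0 (z / u ^ t) := by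
      intro t z hz ht
      have h2 := hinv _ _ (pow_ne_zero t hu0) (hpow 1 u hu0 hu1 t)
      have h3 := hmul _ _ _ _ hz (inv_ne_zero (pow_ne_zero t hu0)) ht h2
      rw [mul_one, add_neg_cancel, ← div_eq_mul_inv] at h3
      exact h3
    intro z hz
    rcases hz with rfl | ⟨k, rfl⟩
    · exact hfin _ _ hl0 hld
    · exact hfin _ _ (hy0 k) (hyw k)

/-- powers of the generators are rational functions -/
theorem pow_mem_of {hF : X.Free} (hK : X.FunctionField K x y) (i0 : Fin q) {S : Set K}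
    (hS : ∀ H : ℤ → K → Prop, H 0 1 →
        (∀ t t' z z', z ≠ 0 → z' ≠ 0 → H t z → H t' z' → H (t + t') (z * z')) →
        (∀ t z, z ≠ 0 → H t z → H (-t) z⁻¹) → H X.d (lf (X.ℓ i0) x) →
        (∀ k, H (X.w k) (y k)) → ∀ z ∈ S, H 0 z) {L : IntermediateField ℂ K}
    (hL : ∀ j : Fin n, x j.succ / x 0 ∈ L) : ∀ z ∈ S, z ^ (X.d * ∏ k, X.m k) ∈ L := by
  classical
  obtain ⟨-, -, hx0, -⟩ := Pool.Agent.W352.CG.TRA.main n q r X K x y hK
  obtain ⟨m, hm⟩ : ∃ m, m = ∏ k, X.m k := ⟨_, rfl⟩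
  rw [← hm]
  have h1 := hS (fun t z => z ^ (X.d * m) * x 0 ^ (-(t * m) : ℤ) ∈ L) (by
      simp) (by
      intro t t' z z' hz hz' h h'
      have h2 : (z * z') ^ (X.d * m) * x 0 ^ (-((t + t') * m) : ℤ) =
          (z ^ (X.d * m) * x 0 ^ (-(t * m) : ℤ)) * (z' ^ (X.d * m) * x 0 ^ (-(t' * m) : ℤ)) := by
        have h3 : (-((t + t') * m) : ℤ) = -(t * m) + -(t' * m) := by ring
        rw [h3, zpow_add₀ hx0, mul_pow]
        ring
      rw [h2]
      exact mul_mem h h') (by
      intro t z hz h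
      have h2 : z⁻¹ ^ (X.d * m) * x 0 ^ (-(-t * m) : ℤ) =
          (z ^ (X.d * m) * x 0 ^ (-(t * m) : ℤ))⁻¹ := by
        rw [mul_inv, inv_pow, ← zpow_neg]
        congr 2
        ring
      rw [h2]
      exact inv_mem h) (by
      have h2 : lf (X.ℓ i0) x ^ (X.d * m) * x 0 ^ (-(X.d * m) : ℤ) =
          (lf (X.ℓ i0) x / x 0) ^ (X.d * m) := by
        rw [div_pow, zpow_neg, div_eq_mul_inv]
        congr 2
        rw [← zpow_natCast]
        congr 1
      rw [h2]
      exact pow_mem (lf_mem hx0 hL _) _) (by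
      intro k
      obtain ⟨m', hm'⟩ : ∃ m', m = X.m k * m' := by
        rw [hm]
        exact Finset.dvd_prod_of_mem _ (Finset.mem_univ k)
      have h2 : y k ^ (X.d * m) * x 0 ^ (-(X.w k * m) : ℤ) =
          (∏ i, (lf (X.ℓ i) x / x 0) ^ X.e k i) ^ (X.d * m') := by
        have h3 := Pool.Agent.W337.CG.main n q r X K x y hK k
        have h4 : X.d * m = X.m k * (X.d * m') := by
          rw [hm']
          ring
        have h5 : ((X.w k * m : ℕ) : ℤ) = ((∑ i, X.e k i) * (X.d * m') : ℕ) := by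
          have h6 := X.hom k
          have h7 : X.w k * m = (∑ i, X.e k i) * (X.d * m') := by
            rw [hm']
            calc X.w k * (X.m k * m') = (X.m k * X.w k) * m' := by ring
              _ = _ := by
                rw [h6]
                ring
          rw [h7]
        have h6 : (-(X.w k * m) : ℤ) = -((∑ i, X.e k i) * (X.d * m') : ℕ) := by
          rw [← h5]
          push_cast
          ring
        rw [h6, h4, pow_mul, h3, zpow_neg, zpow_natCast, ← div_eq_mul_inv, pow_mul (x 0), ← div_pow]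
        congr 1
        rw [← Finset.prod_pow_eq_pow_sum, ← Finset.prod_div_distrib]
        exact Finset.prod_congr rfl fun i _ => (div_pow _ _ _).symm
      rw [h2]
      exact pow_mem (prod_mem fun i _ => pow_mem (lf_mem hx0 hL _) _) _)
  intro z hz
  have h2 := h1 z hz
  simpa using h2

/-- the orders of the generators -/
theorem ord_gens (hF : X.Free) (hK : X.FunctionField K x y) (i0 : Fin q) {S : Set K}
    (hS : ∀ H : ℤ → K → Prop, H 0 1 →
        (∀ t t' z z', z ≠ 0 → z' ≠ 0 → H t z → H t' z' → H (t + t') (z * z')) →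
        (∀ t z, z ≠ 0 → H t z → H (-t) z⁻¹) → H X.d (lf (X.ℓ i0) x) →
        (∀ k, H (X.w k) (y k)) → ∀ z ∈ S, H 0 z) (P : Place ℂ K) (a : ℤ) (v : Fin q → ℕ)
    (hord : ∀ i, P.ord (lf (X.ℓ i) x) = a + v i)
    (hspan : Submodule.span ℂ (X.ℓ '' {i | v i ≠ 0}) ≠ ⊤) (hi0 : v i0 = 0) {e N : ℤ}
    (hN : ∀ k, (X.m k : ℤ) * e ∣ N * ∑ i, (X.e k i : ℤ) * v i) : ∀ z ∈ S, e ∣ N * P.ord z := by
  classical
  obtain ⟨h1, hy0, hx0, -⟩ := Pool.Agent.W352.CG.TRA.main n q r X K x y hK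
  have hlx : ∀ i, lf (X.ℓ i) x ≠ 0 := fun i => h1 _ (X.hℓ i)
  obtain ⟨-, hdvd⟩ := compat X hF hK hlx P a v hord hspan
  have key : ∀ k, (X.m k : ℤ) * P.ord (y k) =
      a * ∑ i, (X.e k i : ℤ) + ∑ i, (X.e k i : ℤ) * (v i : ℤ) := by
    intro k
    have h1 := Pool.Agent.W337.CG.main n q r X K x y hK k
    have h2 := congrArg P.ord h1
    rw [P.ord_pow, ord_prod' P Finset.univ _ (fun i _ => pow_ne_zero _ (hlx i))] at h2
    have h3 : ∀ i, P.ord (lf (X.ℓ i) x ^ X.e k i) = (X.e k i : ℤ) * (a + (v i : ℤ)) := by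
      intro i
      rw [P.ord_pow, hord i]
    rw [h2, Finset.sum_congr rfl (fun i _ => h3 i), Finset.mul_sum, ← Finset.sum_add_distrib]
    apply Finset.sum_congr rfl
    intro i _
    ring
  have hom : ∀ k, (X.m k : ℤ) * (X.w k : ℤ) = (X.d : ℤ) * ∑ i, (X.e k i : ℤ) := by
    intro k
    exact_mod_cast X.hom k
  have hm0 : ∀ k, (X.m k : ℤ) ≠ 0 := fun k => by exact_mod_cast (X.hm k).ne'
  have hd0 : (X.d : ℤ) ≠ 0 := by exact_mod_cast X.hd.ne'
  have haw : ∀ k, (X.d : ℤ) ∣ a * X.w k := by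
    intro k
    obtain ⟨E, hE⟩ := hdvd k
    have hE' : (∑ i, (X.e k i : ℤ) * (v i : ℤ)) = X.m k * E := by exact_mod_cast hE
    refine ⟨P.ord (y k) - E, ?_⟩
    apply mul_left_cancel₀ (hm0 k)
    have h2 := key k
    rw [hE'] at h2
    linear_combination a * hom k - (X.d : ℤ) * h2
  have hda : (X.d : ℤ) ∣ a := by
    obtain ⟨α, β, hαβ⟩ := Pool.Agent.W924.CG.GCD.main n q r X hF
    have h2 : a = a * α * X.d + ∑ k, β k * (a * X.w k) := by
      have h3 : ∑ k, β k * (a * X.w k) = a * ∑ k, β k * (X.w k : ℤ) := by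
        rw [Finset.mul_sum]
        exact Finset.sum_congr rfl fun k _ => by ring
      rw [h3]
      linear_combination (-a) * hαβ
    rw [h2]
    exact dvd_add (Dvd.intro_left _ rfl) (Finset.dvd_sum fun k _ => (haw k).mul_left _)
  obtain ⟨a', ha'⟩ := hda
  have h2 := hS (fun t z => e ∣ N * (P.ord z - a' * t)) (by
      rw [P.ord_one]
      simp) (by
      intro t t' z z' hz hz' h h'
      rw [P.ord_mul hz hz']
      have h3 : N * (P.ord z + P.ord z' - a' * (t + t')) =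
          N * (P.ord z - a' * t) + N * (P.ord z' - a' * t') := by ring
      rw [h3]
      exact dvd_add h h') (by
      intro t z hz h
      rw [P.ord_inv]
      have h3 : N * (-P.ord z - a' * -t) = - (N * (P.ord z - a' * t)) := by ring
      rw [h3]
      exact h.neg_right) (by
      rw [hord i0, hi0, ha']
      have h3 : N * ((X.d : ℤ) * a' + ((0 : ℕ) : ℤ) - a' * X.d) = 0 := by
        push_cast
        ring
      rw [h3]
      exact dvd_zero _) (by
      intro k
      obtain ⟨c, hc⟩ := hN k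
      refine ⟨c, ?_⟩
      apply mul_left_cancel₀ (hm0 k)
      have h3 : (X.m k : ℤ) * (P.ord (y k) - a' * X.w k) = ∑ i, (X.e k i : ℤ) * (v i : ℤ) := by
        have h4 := key k
        rw [ha'] at h4
        linear_combination h4 - a' * hom k
      calc (X.m k : ℤ) * (N * (P.ord (y k) - a' * X.w k))
          = N * ((X.m k : ℤ) * (P.ord (y k) - a' * X.w k)) := by ring
        _ = N * ∑ i, (X.e k i : ℤ) * (v i : ℤ) := by rw [h3]
        _ = (X.m k : ℤ) * (e * c) := by rw [hc]; ring)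
  intro z hz
  have h3 := h2 z hz
  simpa using h3

end

section

variable {K : Type} [Field K] [Algebra ℂ K]

theorem rot_fix (w : Place ℂ K) (g : K ≃ₐ[ℂ] K) {ζ : ℂ} {e : ℕ} (hζ : IsPrimitiveRoot ζ e)
    {z : K} (hz : z ≠ 0)
    (h : Ge w (w.ord z + 1) (g z - algebraMap ℂ K (ζ ^ w.ord z) * z)) {M : ℕ} (hM : 0 < M)
    (hgM : g (z ^ M) = z ^ M) {N : ℕ} (hN : (e : ℤ) ∣ N * w.ord z) : (g ^ N) z = z := by
  have hMC : NeZero (M : ℂ) := ⟨by exact_mod_cast hM.ne'⟩
  obtain ⟨ξ0, hξ0⟩ := HasEnoughRootsOfUnity.exists_primitiveRoot ℂ M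
  have hξK : IsPrimitiveRoot (algebraMap ℂ K ξ0) M :=
    hξ0.map_of_injective (algebraMap ℂ K).injective
  have h1 : (g z / z) ^ M = 1 := by
    rw [div_pow, ← map_pow, hgM, div_self (pow_ne_zero _ hz)]
  have hMne : NeZero M := ⟨hM.ne'⟩
  obtain ⟨i, -, hi⟩ := hξK.eq_pow_of_pow_eq_one h1
  obtain ⟨ξ, hξ⟩ : ∃ ξ : ℂ, ξ = ξ0 ^ i := ⟨_, rfl⟩
  have hgz : g z = algebraMap ℂ K ξ * z := by
    rw [hξ, map_pow, hi, div_mul_cancel₀ _ hz]
  have hξζ : ξ = ζ ^ w.ord z := by
    by_contra hne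
    rw [hgz, ← sub_mul, ← map_sub] at h
    have hc : ξ - ζ ^ w.ord z ≠ 0 := sub_ne_zero.2 hne
    have hcK : algebraMap ℂ K (ξ - ζ ^ w.ord z) ≠ 0 := by
      rw [Ne, map_eq_zero]
      exact hc
    rcases h with h | h
    · exact mul_ne_zero hcK hz h
    · rw [w.ord_mul hcK hz, w.ord_const hc] at h
      omega
  have hpow : ∀ j : ℕ, (g ^ j) z = algebraMap ℂ K (ξ ^ j) * z := by
    intro j
    induction j with
    | zero => simp
    | succ j ih =>
      rw [pow_succ', AlgEquiv.mul_apply, ih, map_mul, AlgEquiv.commutes, hgz, pow_succ, map_mul]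
      ring
  rw [hpow, hξζ]
  obtain ⟨c, hc⟩ := hN
  have h2 : (ζ ^ w.ord z) ^ N = 1 := by
    rw [← zpow_natCast, ← zpow_mul, mul_comm, hc, zpow_mul, zpow_natCast, hζ.pow_eq_one, one_zpow]
  rw [h2, map_one, one_mul]

end

section

variable {n q r : ℕ} (X : Cover n q r) {K : Type} [Field K] [Algebra ℂ K]
  {x : Fin (n + 1) → K} {y : Fin r → K}

/-- the ramification indices -/
theorem ram (hF : X.Free) (hK : X.FunctionField K x y) (G : Subgroup (K ≃ₐ[ℂ] K)) [Finite G]
    (hG : ∀ j : Fin n, x j.succ / x 0 ∈ fixedField G) (L : Fin q → fixedField G)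
    (hL : ∀ i, (L i : K) = lf (X.ℓ i) x / x 0) (v : Place ℂ (fixedField G)) (a0 : ℤ)
    (v' : Fin q → ℕ) (hord : ∀ i, v.ord (L i) = a0 + v' i) (i0 : Fin q) (hi0 : v' i0 = 0)
    (hspan : Submodule.span ℂ (X.ℓ '' {i | v' i ≠ 0}) ≠ ⊤) :
    ∃ (w : Place ℂ K) (e : ℕ), Over w v e ∧
      ∀ N : ℕ, (∀ k, X.m k ∣ N * ∑ i, X.e k i * v' i) → e ∣ N := by
  classical
  obtain ⟨h1, hy0, hx0, -⟩ := Pool.Agent.W352.CG.TRA.main n q r X K x y hK
  have hlx : ∀ i, lf (X.ℓ i) x ≠ 0 := fun i => h1 _ (X.hℓ i)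
  obtain ⟨w, e, I, hwv, hIe, hI⟩ := exists_inertia G v
  refine ⟨w, e, hwv, fun N hN => ?_⟩
  obtain ⟨g, hgI, hgord, ζ, hζ, hrot⟩ := Pool.Agent.W619.TW.exists_rot_generator w I hI
  rw [hIe] at hgord hζ
  obtain ⟨S, -, hS0, hgen, hS⟩ := exists_gens X hF hK i0
  have he0 : 0 < e := hwv.1
  obtain ⟨a, ha⟩ : ∃ a : ℤ, a = w.ord (x 0) + e * a0 := ⟨_, rfl⟩
  have hordw : ∀ i, w.ord (lf (X.ℓ i) x) = a + ((e * v' i : ℕ) : ℤ) := by
    intro i
    have h2 := hwv.2 (L i)
    change w.ord ((L i : fixedField G) : K) = _ at h2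
    rw [hL, w.ord_div (hlx i) hx0, hord] at h2
    rw [ha]
    push_cast
    linarith
  have hset : {i | e * v' i ≠ 0} = {i | v' i ≠ 0} := by
    ext i
    simp only [Set.mem_ofPred_eq, ne_eq, Nat.mul_eq_zero, not_or]
    exact ⟨fun h => h.2, fun h => ⟨he0.ne', h⟩⟩
  have h2 := ord_gens X hF hK i0 hS w a (fun i => e * v' i) hordw (by rw [hset]; exact hspan)
    (by rw [hi0, mul_zero]) (e := e) (N := N) (by
      intro k
      obtain ⟨c, hc⟩ := hN k
      have hc' : (N : ℤ) * ∑ i, (X.e k i : ℤ) * v' i = X.m k * c := by exact_mod_cast hc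
      refine ⟨c, ?_⟩
      have h3 : ∑ i, (X.e k i : ℤ) * ((e * v' i : ℕ) : ℤ) = e * ∑ i, (X.e k i : ℤ) * v' i := by
        rw [Finset.mul_sum]
        refine Finset.sum_congr rfl fun i _ => ?_
        push_cast
        ring
      rw [h3]
      linear_combination (e : ℤ) * hc')
  have hM := pow_mem_of X (hF := hF) hK i0 hS hG
  have hMpos : 0 < X.d * ∏ k, X.m k :=
    Nat.mul_pos X.hd (Finset.prod_pos fun k _ => X.hm k)
  have hfix : ∀ z ∈ S, ((g : K ≃ₐ[ℂ] K) ^ N) z = z := by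
    intro z hz
    exact rot_fix w g hζ (hS0 z hz) (hrot z (hS0 z hz)) hMpos ((hM z hz) g) (h2 z hz)
  have htop := hgen (fixedField (Subgroup.zpowers ((g : K ≃ₐ[ℂ] K) ^ N))) (by
      intro j h
      have h3 : (h : K ≃ₐ[ℂ] K) ∈ G := by
        have h4 : Subgroup.zpowers ((g : K ≃ₐ[ℂ] K) ^ N) ≤ G := by
          rw [Subgroup.zpowers_le]
          exact pow_mem g.2 N
        exact h4 h.2
      exact (hG j) ⟨h, h3⟩) (by
      intro z hz h
      have h4 : Subgroup.zpowers ((g : K ≃ₐ[ℂ] K) ^ N) ≤ MulAction.stabilizer (K ≃ₐ[ℂ] K) z := by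
        rw [Subgroup.zpowers_le, MulAction.mem_stabilizer_iff]
        exact hfix z hz
      exact h4 h.2)
  have hgN : (g : K ≃ₐ[ℂ] K) ^ N = 1 := by
    apply AlgEquiv.ext
    intro z
    have h3 : z ∈ fixedField (Subgroup.zpowers ((g : K ≃ₐ[ℂ] K) ^ N)) := by
      rw [htop]
      trivial
    exact h3 ⟨_, Subgroup.mem_zpowers _⟩
  rw [← hgord]
  exact orderOf_dvd_of_pow_eq_one hgN

end

end Pool.Agent.TH122.AB
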