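import Pool.Agent.TH152.AC.Dual

/-!
The strict form of the inequality for the bases of an arrangement: arrangements which are neither
reducible nor in general position with `n + 2` hyperplanes.
-/

set_option autoImplicit false

open Pool.Agent.W602.Cov Pool.Agent.TH152.AC Module

namespace Pool.Agent.TH122.AB

variable {n q : ℕ}

/-- The arrangement consists of `n + 2` hyperplanes in general position, the hyperplanes `c j`;
hyperplanes may be listed several times. -/
def General (ℓ : Fin q → Form n) (c : Fin (n + 2) → Fin q) : Prop :=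
  (∀ j : Fin (n + 2), LinearIndependent ℂ fun a => ℓ (c (j.succAbove a))) ∧
    ∀ i, ∃ (j : Fin (n + 2)) (t : ℂ), ℓ i = t • ℓ (c j)

/-- the bound for the negative exchanges -/
def Neg (ℓ : Fin q → Form n) (b : Basis (Fin (n + 1)) ℂ (Form n)) (B : Fin (n + 1) → Fin q) (c : ℕ)
    (F : Finset (Fin q)) (U : Finset (Fin (n + 1))) (T : Finset (Fin (n + 1) × Fin q)) : Prop :=
  ∃ (j : ℕ) (W : Submodule ℂ (Form n)),
    W ≤ Submodule.span ℂ (ℓ '' (F : Set (Fin q))) ∧
    (∀ φ ∈ W, ∀ a, B a ∉ F → a ∉ U → b.repr φ a = 0) ∧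
    (Finset.univ.filter fun a => B a ∈ F).card + j ≤ finrank ℂ W ∧
    (T.filter fun p => B p.1 ∉ F ∧ p.2 ∈ F).card + c ≤ U.card + j

variable {ℓ : Fin q → Form n} {b : Basis (Fin (n + 1)) ℂ (Form n)} {B : Fin (n + 1) → Fin q}

/-- the new elements -/
noncomputable def newN (ℓ : Fin q → Form n) (b : Basis (Fin (n + 1)) ℂ (Form n)) (U : Finset (Fin (n + 1)))
    (f : Fin q) : Finset (Fin (n + 1)) := by
  classical
  exact Finset.univ.filter (fun a => a ∉ U ∧ b.repr (ℓ f) a ≠ 0)

theorem mem_newN {U : Finset (Fin (n + 1))} {f : Fin q} (a : Fin (n + 1)) :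
    a ∈ newN ℓ b U f ↔ a ∉ U ∧ b.repr (ℓ f) a ≠ 0 := by
  classical
  unfold newN
  simp

/-- the new exchanges -/
noncomputable def newE (ℓ : Fin q → Form n) (b : Basis (Fin (n + 1)) ℂ (Form n)) (U : Finset (Fin (n + 1)))
    (f : Fin q) (a0 : Fin (n + 1)) : Finset (Fin (n + 1) × Fin q) :=
  (insert a0 (newN ℓ b U f)).image (fun a => (a, f))

theorem mem_newE {U : Finset (Fin (n + 1))} {f : Fin q} {a0 : Fin (n + 1)}
    (p : Fin (n + 1) × Fin q) :
    p ∈ newE ℓ b U f a0 ↔ (p.1 = a0 ∨ p.1 ∈ newN ℓ b U f) ∧ p.2 = f := by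
  unfold newE
  rw [Finset.mem_image]
  constructor
  · rintro ⟨a, ha, rfl⟩
    exact ⟨Finset.mem_insert.1 ha, rfl⟩
  · rintro ⟨h1, h2⟩
    exact ⟨p.1, Finset.mem_insert.2 h1, by rw [← h2]⟩

theorem neg_step {c : ℕ} {F : Finset (Fin q)} {U : Finset (Fin (n + 1))}
    {T : Finset (Fin (n + 1) × Fin q)} (h : Neg ℓ b B c F U T) {f : Fin q} {a0 a1 : Fin (n + 1)}
    (ha0U : a0 ∈ U) (ha1U : a1 ∉ U) (ha1 : b.repr (ℓ f) a1 ≠ 0) :
    Neg ℓ b B c F (U ∪ newN ℓ b U f) (T ∪ newE ℓ b U f a0) := by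
  classical
  obtain ⟨j, W, hW1, hW2, hW3, hW4⟩ := h
  set N := newN ℓ b U f with hN
  set E := newE ℓ b U f a0 with hE
  have hNmem : ∀ a, a ∈ N ↔ a ∉ U ∧ b.repr (ℓ f) a ≠ 0 := fun a => mem_newN a
  have hEmem : ∀ p : Fin (n + 1) × Fin q, p ∈ E ↔ (p.1 = a0 ∨ p.1 ∈ N) ∧ p.2 = f :=
    fun p => mem_newE p
  have ha1N : a1 ∈ N := (hNmem a1).2 ⟨ha1U, ha1⟩
  have hdisj : Disjoint U N := by
    rw [Finset.disjoint_left]
    intro a ha ha'
    exact ((hNmem a).1 ha').1 ha
  have ha0N : a0 ∉ N := fun h => ((hNmem a0).1 h).1 ha0U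
  have hsuppU : ∀ a, b.repr (ℓ f) a ≠ 0 → a ∈ U ∪ N := by
    intro a ha
    by_cases haU : a ∈ U
    · exact Finset.mem_union_left _ haU
    · exact Finset.mem_union_right _ ((hNmem a).2 ⟨haU, ha⟩)
  have hcardU : (U ∪ N).card = U.card + N.card := Finset.card_union_of_disjoint hdisj
  have hNpos : 1 ≤ N.card := Finset.card_pos.2 ⟨a1, ha1N⟩
  have hcount : ((T ∪ E).filter fun p => B p.1 ∉ F ∧ p.2 ∈ F).card ≤
      (T.filter fun p => B p.1 ∉ F ∧ p.2 ∈ F).card +
        (E.filter fun p => B p.1 ∉ F ∧ p.2 ∈ F).card := by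
    rw [Finset.filter_union]
    exact Finset.card_union_le _ _
  have hEcard : E.card = N.card + 1 := by
    rw [hE, newE, Finset.card_image_of_injective _ (fun a a' haa => (Prod.mk.inj haa).1),
      Finset.card_insert_of_notMem ha0N]
  by_cases hfF : f ∈ F
  · by_cases hall : ∀ a ∈ N, B a ∈ F
    · have hE1 : (E.filter fun p => B p.1 ∉ F ∧ p.2 ∈ F).card ≤ 1 := by
        rw [Finset.card_le_one]
        intro p hp p' hp'
        rw [Finset.mem_filter] at hp hp'
        obtain ⟨h1, h2⟩ := (hEmem p).1 hp.1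
        obtain ⟨h1', h2'⟩ := (hEmem p').1 hp'.1
        have e1 : p.1 = a0 := by
          rcases h1 with h1 | h1
          · exact h1
          · exact absurd (hall _ h1) hp.2.1
        have e2 : p'.1 = a0 := by
          rcases h1' with h1 | h1
          · exact h1
          · exact absurd (hall _ h1) hp'.2.1
        exact Prod.ext (e1.trans e2.symm) (h2.trans h2'.symm)
      refine ⟨j, W, hW1, ?_, hW3, by omega⟩
      intro φ hφ a ha haU
      exact hW2 φ hφ a ha (fun h => haU (Finset.mem_union_left _ h))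
    · push Not at hall
      obtain ⟨a2, ha2N, ha2F⟩ := hall
      have hE1 : (E.filter fun p => B p.1 ∉ F ∧ p.2 ∈ F).card ≤ N.card + 1 :=
        hEcard ▸ Finset.card_filter_le _ _
      have hnotin : ℓ f ∉ W := by
        intro hfW
        have h1 := hW2 _ hfW a2 ha2F ((hNmem a2).1 ha2N).1
        exact ((hNmem a2).1 ha2N).2 h1
      have hlt : W < W ⊔ Submodule.span ℂ {ℓ f} := by
        refine lt_of_le_of_ne le_sup_left fun he => hnotin ?_
        rw [he]
        exact (le_sup_right : Submodule.span ℂ {ℓ f} ≤ _)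
          (Submodule.mem_span_singleton_self _)
      have hfin := Submodule.finrank_lt_finrank_of_lt hlt
      refine ⟨j + 1, W ⊔ Submodule.span ℂ {ℓ f}, ?_, ?_, by omega, by omega⟩
      · refine sup_le hW1 ?_
        rw [Submodule.span_singleton_le_iff_mem]
        exact Submodule.subset_span ⟨f, hfF, rfl⟩
      · intro φ hφ a ha haU
        obtain ⟨φ1, hφ1, φ2, hφ2, rfl⟩ := Submodule.mem_sup.1 hφ
        obtain ⟨c, rfl⟩ := Submodule.mem_span_singleton.1 hφ2
        have e1 := hW2 φ1 hφ1 a ha (fun h => haU (Finset.mem_union_left _ h))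
        have e2 : b.repr (ℓ f) a = 0 := by
          by_contra hne
          exact haU (hsuppU a hne)
        rw [map_add, map_smul, Finsupp.add_apply, Finsupp.smul_apply, e1, e2, smul_zero,
          add_zero]
  · have hE0 : (E.filter fun p => B p.1 ∉ F ∧ p.2 ∈ F).card = 0 := by
      rw [Finset.card_eq_zero, Finset.filter_eq_empty_iff]
      intro p hp hp2
      rw [((hEmem p).1 hp).2] at hp2
      exact hfF hp2.2
    refine ⟨j, W, hW1, ?_, hW3, by omega⟩
    intro φ hφ a ha haU
    exact hW2 φ hφ a ha (fun h => haU (Finset.mem_union_left _ h))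

/-- the first step improves the bound at `F` if the hyperplane does not belong to `F` or the first
element of the basis belongs to `F` -/
theorem neg_first (hb : ∀ a, b a = ℓ (B a)) {F : Finset (Fin q)} {f : Fin q}
    {a0 a1 : Fin (n + 1)} (ha1 : a1 ≠ a0) (ha1' : b.repr (ℓ f) a1 ≠ 0)
    (h : f ∉ F ∨ B a0 ∈ F) :
    Neg ℓ b B 2 F ({a0} ∪ newN ℓ b {a0} f) (∅ ∪ newE ℓ b {a0} f a0) := by
  classical
  set N := newN ℓ b {a0} f with hN
  set E := newE ℓ b {a0} f a0 with hE
  have hNmem : ∀ a, a ∈ N ↔ a ∉ ({a0} : Finset (Fin (n + 1))) ∧ b.repr (ℓ f) a ≠ 0 :=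
    fun a => mem_newN a
  have hEmem : ∀ p : Fin (n + 1) × Fin q, p ∈ E ↔ (p.1 = a0 ∨ p.1 ∈ N) ∧ p.2 = f :=
    fun p => mem_newE p
  have ha1N : a1 ∈ N := (hNmem a1).2 ⟨by simpa using ha1, ha1'⟩
  have ha0N : a0 ∉ N := fun h => ((hNmem a0).1 h).1 (Finset.mem_singleton_self _)
  have hdisj : Disjoint {a0} N := by
    rw [Finset.disjoint_singleton_left]
    exact ha0N
  have hcardU : ({a0} ∪ N).card = 1 + N.card := by
    rw [Finset.card_union_of_disjoint hdisj, Finset.card_singleton]
  have hNpos : 1 ≤ N.card := Finset.card_pos.2 ⟨a1, ha1N⟩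
  rw [Finset.empty_union]
  have hW0 : Submodule.span ℂ (b '' {a | B a ∈ F}) ≤
      Submodule.span ℂ (ℓ '' (F : Set (Fin q))) := by
    rw [Submodule.span_le]
    rintro _ ⟨a, ha, rfl⟩
    rw [hb a]
    exact Submodule.subset_span ⟨B a, ha, rfl⟩
  have hW0' : ∀ φ ∈ Submodule.span ℂ (b '' {a | B a ∈ F}), ∀ a, B a ∉ F → b.repr φ a = 0 := by
    intro φ hφ a ha
    rw [b.mem_span_image] at hφ
    by_contra hne
    exact ha (hφ (Finsupp.mem_support_iff.2 hne))
  by_cases hfF : f ∈ F
  · have ha0F : B a0 ∈ F := h.resolve_left (fun h => h hfF)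
    by_cases hall : ∀ a ∈ N, B a ∈ F
    · have hE0 : (E.filter fun p => B p.1 ∉ F ∧ p.2 ∈ F).card = 0 := by
        rw [Finset.card_eq_zero, Finset.filter_eq_empty_iff]
        intro p hp hp2
        rcases ((hEmem p).1 hp).1 with h1 | h1
        · rw [h1] at hp2
          exact hp2.1 ha0F
        · exact hp2.1 (hall _ h1)
      refine ⟨0, _, hW0, fun φ hφ a ha _ => hW0' φ hφ a ha, ?_, by omega⟩
      rw [finrank_part hb]
      omega
    · push Not at hall
      obtain ⟨a2, ha2N, ha2F⟩ := hall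
      have hE1 : (E.filter fun p => B p.1 ∉ F ∧ p.2 ∈ F).card ≤ N.card := by
        have hsub : (E.filter fun p => B p.1 ∉ F ∧ p.2 ∈ F) ⊆ N.image (fun a => (a, f)) := by
          intro p hp
          rw [Finset.mem_filter] at hp
          obtain ⟨h1, h2⟩ := (hEmem p).1 hp.1
          rw [Finset.mem_image]
          rcases h1 with h1 | h1
          · rw [h1] at hp
            exact absurd ha0F hp.2.1
          · exact ⟨p.1, h1, by rw [← h2]⟩
        exact (Finset.card_le_card hsub).trans Finset.card_image_le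
      have hnotin : ℓ f ∉ Submodule.span ℂ (b '' {a | B a ∈ F}) := by
        intro hfW
        exact ((hNmem a2).1 ha2N).2 (hW0' _ hfW a2 ha2F)
      have hlt : Submodule.span ℂ (b '' {a | B a ∈ F}) <
          Submodule.span ℂ (b '' {a | B a ∈ F}) ⊔ Submodule.span ℂ {ℓ f} := by
        refine lt_of_le_of_ne le_sup_left fun he => hnotin ?_
        rw [he]
        exact (le_sup_right : Submodule.span ℂ {ℓ f} ≤ _)
          (Submodule.mem_span_singleton_self _)
      have hfin := Submodule.finrank_lt_finrank_of_lt hlt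
      rw [finrank_part hb] at hfin
      refine ⟨1, _, ?_, ?_, hfin, by omega⟩
      · refine sup_le hW0 ?_
        rw [Submodule.span_singleton_le_iff_mem]
        exact Submodule.subset_span ⟨f, hfF, rfl⟩
      · intro φ hφ a ha haU
        obtain ⟨φ1, hφ1, φ2, hφ2, rfl⟩ := Submodule.mem_sup.1 hφ
        obtain ⟨c, rfl⟩ := Submodule.mem_span_singleton.1 hφ2
        have e1 := hW0' φ1 hφ1 a ha
        have e2 : b.repr (ℓ f) a = 0 := by
          by_contra hne
          apply haU
          by_cases h3 : a ∈ ({a0} : Finset (Fin (n + 1)))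
          · exact Finset.mem_union_left _ h3
          · exact Finset.mem_union_right _ ((hNmem a).2 ⟨h3, hne⟩)
        rw [map_add, map_smul, Finsupp.add_apply, Finsupp.smul_apply, e1, e2, smul_zero,
          add_zero]
  · have hE0 : (E.filter fun p => B p.1 ∉ F ∧ p.2 ∈ F).card = 0 := by
      rw [Finset.card_eq_zero, Finset.filter_eq_empty_iff]
      intro p hp hp2
      rw [((hEmem p).1 hp).2] at hp2
      exact hfF hp2.2
    refine ⟨0, _, hW0, fun φ hφ a ha _ => hW0' φ hφ a ha, ?_, by omega⟩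
    rw [finrank_part hb]
    omega

theorem good_step' {U : Finset (Fin (n + 1))}
    {T : Finset (Fin (n + 1) × Fin q)} (h : Good ℓ b B U T) {f : Fin q} {a0 a1 : Fin (n + 1)}
    (ha0U : a0 ∈ U) (ha0 : b.repr (ℓ f) a0 ≠ 0) (ha1U : a1 ∉ U) (ha1 : b.repr (ℓ f) a1 ≠ 0) :
    Good ℓ b B (U ∪ newN ℓ b U f) (T ∪ newE ℓ b U f a0) ∧ U.card < (U ∪ newN ℓ b U f).card := by
  classical
  have hneg : ∀ F, Neg ℓ b B 1 F U T := h.neg
  have hnegs := fun F => neg_step (hneg F) (f := f) ha0U ha1U ha1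
  set N := newN ℓ b U f with hN
  set E := newE ℓ b U f a0 with hE
  have hNmem : ∀ a, a ∈ N ↔ a ∉ U ∧ b.repr (ℓ f) a ≠ 0 := fun a => mem_newN a
  have hEmem : ∀ p : Fin (n + 1) × Fin q, p ∈ E ↔ (p.1 = a0 ∨ p.1 ∈ N) ∧ p.2 = f :=
    fun p => mem_newE p
  have ha1N : a1 ∈ N := (hNmem a1).2 ⟨ha1U, ha1⟩
  have hdisj : Disjoint U N := by
    rw [Finset.disjoint_left]
    intro a ha ha'
    exact ((hNmem a).1 ha').1 ha
  have ha0N : a0 ∉ N := fun h => ((hNmem a0).1 h).1 ha0U
  have hsuppU : ∀ a, b.repr (ℓ f) a ≠ 0 → a ∈ U ∪ N := by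
    intro a ha
    by_cases haU : a ∈ U
    · exact Finset.mem_union_left _ haU
    · exact Finset.mem_union_right _ ((hNmem a).2 ⟨haU, ha⟩)
  have hEsupp : ∀ p ∈ E, b.repr (ℓ p.2) p.1 ≠ 0 := by
    intro p hp
    obtain ⟨h1, h2⟩ := (hEmem p).1 hp
    rw [h2]
    rcases h1 with h1 | h1
    · rw [h1]
      exact ha0
    · exact ((hNmem _).1 h1).2
  have hcardU : (U ∪ N).card = U.card + N.card := Finset.card_union_of_disjoint hdisj
  have hNpos : 1 ≤ N.card := Finset.card_pos.2 ⟨a1, ha1N⟩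
  refine ⟨⟨?_, ?_, ?_, hnegs, ?_⟩, by omega⟩
  · exact h.ne.mono Finset.subset_union_left
  · intro p hp
    rcases Finset.mem_union.1 hp with hp | hp
    · exact h.mem p hp
    · exact hEsupp p hp
  · intro p hp a ha
    rcases Finset.mem_union.1 hp with hp | hp
    · exact Finset.mem_union_left _ (h.sub p hp a ha)
    · rw [((hEmem p).1 hp).2] at ha
      exact hsuppU a ha
  · rintro F hF ⟨a, haU, haF⟩ ⟨a', haU', haF'⟩
    by_cases h1 : ∃ a ∈ U, B a ∈ F
    · by_cases h2 : ∃ a ∈ U, B a ∉ F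
      · obtain ⟨p, hp, hp2⟩ := h.pos F hF h1 h2
        exact ⟨p, Finset.mem_union_left _ hp, hp2⟩
      · push Not at h2
        have ha'N : a' ∈ N := by
          rcases Finset.mem_union.1 haU' with h3 | h3
          · exact absurd (h2 a' h3) haF'
          · exact h3
        refine ⟨(a0, f), Finset.mem_union_right _ ((hEmem _).2 ⟨Or.inl rfl, rfl⟩), h2 a0 ha0U,
          fun hfF => haF' (hF f hfF a' ((hNmem a').1 ha'N).2)⟩
    · push Not at h1
      have haN : a ∈ N := by
        rcases Finset.mem_union.1 haU with h3 | h3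
        · exact absurd haF (h1 a h3)
        · exact h3
      exact ⟨(a, f), Finset.mem_union_right _ ((hEmem _).2 ⟨Or.inr haN, rfl⟩), haF,
        fun hfF => h1 a0 ha0U (hF f hfF a0 ha0)⟩

theorem bonus_univ (hr : ¬ Reducible ℓ) {F1 : Finset (Fin q)} {U0 : Finset (Fin (n + 1))}
    {T0 : Finset (Fin (n + 1) × Fin q)} (h0 : Good ℓ b B U0 T0) (h0' : Neg ℓ b B 2 F1 U0 T0) :
    ∃ T : Finset (Fin (n + 1) × Fin q), Good ℓ b B Finset.univ T ∧
      Neg ℓ b B 2 F1 Finset.univ T := by
  classical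
  have key : ∀ k : ℕ, k ≤ n → ∃ (U : Finset (Fin (n + 1))) (T : Finset (Fin (n + 1) × Fin q)),
      Good ℓ b B U T ∧ Neg ℓ b B 2 F1 U T ∧ k + 1 ≤ U.card := by
    intro k
    induction k with
    | zero => exact fun _ => ⟨U0, T0, h0, h0', Finset.card_pos.2 h0.ne⟩
    | succ k ih =>
      intro hk
      obtain ⟨U, T, hG, hB, hc⟩ := ih (by omega)
      by_cases hU : U = Finset.univ
      · refine ⟨U, T, hG, hB, ?_⟩
        rw [hU, Finset.card_univ, Fintype.card_fin]
        omega
      · obtain ⟨f, ⟨a0, ha0U, ha0⟩, a1, ha1U, ha1⟩ := Pool.Agent.W392.CG.cross ℓ b hr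
          (U : Set (Fin (n + 1))) (by exact_mod_cast hG.ne) (by
            rw [Set.nonempty_compl]
            intro hc
            apply hU
            ext a
            have : a ∈ (U : Set (Fin (n + 1))) := by rw [hc]; trivial
            simpa using this)
        have ha0U' : a0 ∈ U := by simpa using ha0U
        have ha1U' : a1 ∉ U := by simpa using ha1U
        obtain ⟨hG', hc'⟩ := good_step' hG ha0U' ha0 ha1U' ha1
        exact ⟨_, _, hG', neg_step hB ha0U' ha1U' ha1, by omega⟩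
  obtain ⟨U, T, hG, hB, hc⟩ := key n le_rfl
  have hU : U = Finset.univ := by
    apply Finset.eq_univ_of_card
    have h1 := Finset.card_le_univ U
    rw [Fintype.card_fin] at h1 ⊢
    omega
  exact ⟨T, hU ▸ hG, hU ▸ hB⟩

theorem exch_sum (T : Finset (Fin (n + 1) × Fin q)) (F : Finset (Fin q)) :
    ∑ p ∈ T, (((if B p.1 ∈ F then 1 else 0) : ℤ) - (if p.2 ∈ F then 1 else 0)) =
      ((T.filter fun p => B p.1 ∈ F ∧ p.2 ∉ F).card : ℤ) -
        (T.filter fun p => B p.1 ∉ F ∧ p.2 ∈ F).card := by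
  rw [Finset.card_filter, Finset.card_filter]
  push_cast
  rw [← Finset.sum_sub_distrib]
  refine Finset.sum_congr rfl fun p _ => ?_
  by_cases h1 : B p.1 ∈ F <;> by_cases h2 : p.2 ∈ F <;> simp [h1, h2]

theorem sum_of_neg {c : ℕ} {F : Finset (Fin q)} {T : Finset (Fin (n + 1) × Fin q)}
    (h : Neg ℓ b B c F Finset.univ T) :
    (c : ℤ) - (n + 1) - (finrank ℂ (Submodule.span ℂ (ℓ '' (F : Set (Fin q)))) -
          (Finset.univ.filter fun a => B a ∈ F).card) ≤
      ∑ p ∈ T, (((if B p.1 ∈ F then 1 else 0) : ℤ) - (if p.2 ∈ F then 1 else 0)) := by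
  obtain ⟨j, W, hW1, -, hW3, hW4⟩ := h
  rw [Finset.card_univ, Fintype.card_fin] at hW4
  have hWle := Submodule.finrank_mono hW1
  rw [exch_sum]
  have h1 : (0 : ℤ) ≤ ((T.filter fun p => B p.1 ∈ F ∧ p.2 ∉ F).card : ℤ) := by positivity
  have h2 : ((T.filter fun p => B p.1 ∉ F ∧ p.2 ∈ F).card : ℤ) + c ≤ n + 1 + j := by
    exact_mod_cast hW4
  have h3 : ((Finset.univ.filter fun a => B a ∈ F).card : ℤ) + j ≤
      finrank ℂ (Submodule.span ℂ (ℓ '' (F : Set (Fin q)))) := by
    exact_mod_cast hW3.trans hWle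
  linarith

theorem exch_of_good (hb : ∀ a, b a = ℓ (B a)) (hℓ : ∀ i, ℓ i ≠ 0)
    {T : Finset (Fin (n + 1) × Fin q)} (hT : Good ℓ b B Finset.univ T) {F : Finset (Fin q)}
    (hF : Proper ℓ F) :
    1 - ((n : ℤ) + 2) * (finrank ℂ (Submodule.span ℂ (ℓ '' (F : Set (Fin q)))) -
          (Finset.univ.filter fun a => B a ∈ F).card) ≤
        ∑ p ∈ T, (((if B p.1 ∈ F then 1 else 0) : ℤ) - (if p.2 ∈ F then 1 else 0)) := by
  classical
  have hneg : Neg ℓ b B 1 F Finset.univ T := hT.neg F
  have hsn := sum_of_neg hneg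
  set R := finrank ℂ (Submodule.span ℂ (ℓ '' (F : Set (Fin q)))) with hR
  set c := (Finset.univ.filter fun a => B a ∈ F).card with hc
  have hcR : c ≤ R := by
    obtain ⟨j, W, hW1, -, hW3, -⟩ := hneg
    have := Submodule.finrank_mono hW1
    omega
  by_cases hdef : R = c
  · have hspan : Submodule.span ℂ (b '' {a | B a ∈ F}) =
        Submodule.span ℂ (ℓ '' (F : Set (Fin q))) := by
      apply Submodule.eq_of_le_of_finrank_eq
      · rw [Submodule.span_le]
        rintro _ ⟨a, ha, rfl⟩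
        rw [hb a]
        exact Submodule.subset_span ⟨B a, ha, rfl⟩
      · rw [finrank_part hb, ← hR, hdef]
    have hFs : ∀ i ∈ F, ∀ a, b.repr (ℓ i) a ≠ 0 → B a ∈ F := by
      intro i hi a ha
      have h1 : ℓ i ∈ Submodule.span ℂ (b '' {a | B a ∈ F}) := by
        rw [hspan]
        exact Submodule.subset_span ⟨i, hi, rfl⟩
      rw [b.mem_span_image] at h1
      exact h1 (Finsupp.mem_support_iff.2 ha)
    obtain ⟨i0, hi0⟩ := hF.1
    have hin : ∃ a ∈ Finset.univ, B a ∈ F := by
      by_contra hcon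
      push Not at hcon
      apply hℓ i0
      have h1 : b.repr (ℓ i0) = 0 := by
        ext a
        by_contra hne
        exact hcon a (Finset.mem_univ a) (hFs i0 hi0 a hne)
      exact (LinearEquiv.map_eq_zero_iff _).1 h1
    have hout : ∃ a ∈ Finset.univ, B a ∉ F := by
      by_contra hcon
      push Not at hcon
      apply hF.2
      rw [← hspan, eq_top_iff, ← b.span_eq, Submodule.span_le]
      rintro _ ⟨a, rfl⟩
      exact Submodule.subset_span ⟨a, hcon a (Finset.mem_univ a), rfl⟩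
    obtain ⟨p, hp, hp1, hp2⟩ := hT.pos F hFs hin hout
    have hpos : 1 ≤ (T.filter fun p => B p.1 ∈ F ∧ p.2 ∉ F).card :=
      Finset.card_pos.2 ⟨p, Finset.mem_filter.2 ⟨hp, hp1, hp2⟩⟩
    have hneg : (T.filter fun p => B p.1 ∉ F ∧ p.2 ∈ F).card = 0 := by
      rw [Finset.card_eq_zero, Finset.filter_eq_empty_iff]
      rintro p' hp' ⟨h1, h2⟩
      exact h1 (hFs _ h2 _ (hT.mem p' hp'))
    rw [exch_sum, hdef, hneg]
    have : (1 : ℤ) ≤ ((T.filter fun p => B p.1 ∈ F ∧ p.2 ∉ F).card : ℤ) := by exact_mod_cast hpos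
    push_cast
    linarith
  · have h5 : (1 : ℤ) ≤ (R : ℤ) - c := by
      have h2 : c + 1 ≤ R := by omega
      have : (c : ℤ) + 1 ≤ R := by exact_mod_cast h2
      linarith
    have h7 : (0 : ℤ) ≤ ((n : ℤ) + 1) * (((R : ℤ) - c) - 1) :=
      mul_nonneg (by positivity) (by linarith)
    push_cast at hsn
    nlinarith

/-- **The strict exchange inequality.** -/
theorem exchange_strict (hn : 1 ≤ n) (hb : ∀ a, b a = ℓ (B a)) (hℓ : ∀ i, ℓ i ≠ 0)
    (hr : ¬ Reducible ℓ) (hG : ¬ ∃ c, General ℓ c) {F1 : Finset (Fin q)} (hF1 : Proper ℓ F1)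
    (hdef : (Finset.univ.filter fun a => B a ∈ F1).card <
      finrank ℂ (Submodule.span ℂ (ℓ '' (F1 : Set (Fin q))))) :
    ∃ T : Finset (Fin (n + 1) × Fin q), (∀ p ∈ T, b.repr (ℓ p.2) p.1 ≠ 0) ∧
      (∀ F : Finset (Fin q), Proper ℓ F →
        1 - ((n : ℤ) + 2) * (finrank ℂ (Submodule.span ℂ (ℓ '' (F : Set (Fin q)))) -
          (Finset.univ.filter fun a => B a ∈ F).card) ≤
        ∑ p ∈ T, (((if B p.1 ∈ F then 1 else 0) : ℤ) - (if p.2 ∈ F then 1 else 0))) ∧
      2 - ((n : ℤ) + 2) * (finrank ℂ (Submodule.span ℂ (ℓ '' (F1 : Set (Fin q)))) -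
          (Finset.univ.filter fun a => B a ∈ F1).card) ≤
        ∑ p ∈ T, (((if B p.1 ∈ F1 then 1 else 0) : ℤ) - (if p.2 ∈ F1 then 1 else 0)) := by
  classical
  have hfirst : ∀ (f : Fin q) (a0 a1 : Fin (n + 1)), b.repr (ℓ f) a0 ≠ 0 → a1 ≠ a0 →
      b.repr (ℓ f) a1 ≠ 0 → (f ∉ F1 ∨ B a0 ∈ F1) →
      ∃ T : Finset (Fin (n + 1) × Fin q), Good ℓ b B Finset.univ T ∧
        Neg ℓ b B 2 F1 Finset.univ T := by
    intro f a0 a1 ha0 h10 ha1 h
    refine bonus_univ hr (good_step' (good_init hb a0) (Finset.mem_singleton_self a0) ha0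
      (by simpa using h10) ha1).1 (neg_first hb h10 ha1 h)
  have hρ : (1 : ℤ) ≤ finrank ℂ (Submodule.span ℂ (ℓ '' (F1 : Set (Fin q)))) -
      (Finset.univ.filter fun a => B a ∈ F1).card := by
    have : ((Finset.univ.filter fun a => B a ∈ F1).card : ℤ) + 1 ≤
      finrank ℂ (Submodule.span ℂ (ℓ '' (F1 : Set (Fin q)))) := by exact_mod_cast hdef
    linarith
  by_cases hbonus : ∃ T : Finset (Fin (n + 1) × Fin q), Good ℓ b B Finset.univ T ∧
        Neg ℓ b B 2 F1 Finset.univ T
  · obtain ⟨T, hT1, hT2⟩ := hbonus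
    refine ⟨T, hT1.mem, fun F hF => exch_of_good hb hℓ hT1 hF, ?_⟩
    have h1 := sum_of_neg hT2
    refine le_trans ?_ h1
    have h7 := mul_le_mul_of_nonneg_left hρ (by positivity : (0 : ℤ) ≤ (n : ℤ) + 1)
    push_cast
    nlinarith
  · have hno : ∀ (f : Fin q) (a0 a1 : Fin (n + 1)), b.repr (ℓ f) a0 ≠ 0 → a1 ≠ a0 →
        b.repr (ℓ f) a1 ≠ 0 → f ∈ F1 ∧ B a0 ∉ F1 := by
      intro f a0 a1 h1 h2 h3
      by_contra hcon
      exact hbonus (hfirst f a0 a1 h1 h2 h3 (by tauto))
    have hBF : ∀ a, B a ∉ F1 := by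
      intro a
      obtain ⟨f, ⟨a0, ha0U, ha0⟩, a1, ha1U, ha1⟩ := Pool.Agent.W392.CG.cross ℓ b hr
        ({a} : Set (Fin (n + 1))) ⟨a, rfl⟩ (by
          obtain ⟨n', rfl⟩ : ∃ n', n = n' + 1 := ⟨n - 1, by omega⟩
          obtain ⟨a', ha'⟩ := exists_ne a
          exact ⟨a', ha'⟩)
      have e : a0 = a := ha0U
      have e' : a1 ≠ a0 := fun h => ha1U (by rw [h]; exact ha0U)
      rw [← e]
      exact (hno f a0 a1 ha0 e' ha1).2
    have hc0 : (Finset.univ.filter fun a => B a ∈ F1).card = 0 := by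
      rw [Finset.card_eq_zero, Finset.filter_eq_empty_iff]
      intro a _
      exact hBF a
    obtain ⟨T, hT⟩ := good_univ hb hr
    refine ⟨T, hT.mem, fun F hF => exch_of_good hb hℓ hT hF, ?_⟩
    have hneg : Neg ℓ b B 1 F1 Finset.univ T := hT.neg F1
    have h1 := sum_of_neg hneg
    rcases Nat.lt_or_ge 1 (finrank ℂ (Submodule.span ℂ (ℓ '' (F1 : Set (Fin q))))) with hR | hR
    · refine le_trans ?_ h1
      rw [hc0]
      have hR' : (2 : ℤ) ≤ finrank ℂ (Submodule.span ℂ (ℓ '' (F1 : Set (Fin q)))) := by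
        exact_mod_cast hR
      have h7 := mul_le_mul_of_nonneg_left hR' (by positivity : (0 : ℤ) ≤ (n : ℤ) + 1)
      push_cast
      nlinarith
    · exfalso
      rw [hc0] at hdef
      have hR1 : finrank ℂ (Submodule.span ℂ (ℓ '' (F1 : Set (Fin q)))) = 1 := by omega
      obtain ⟨f0, hf0⟩ := hF1.1
      have hpar : ∀ i ∈ F1, ∃ t : ℂ, ℓ i = t • ℓ f0 := by
        intro i hi
        have h2 := (finrank_eq_one_iff_of_nonzero'
          (⟨ℓ f0, Submodule.subset_span ⟨f0, hf0, rfl⟩⟩ :
            Submodule.span ℂ (ℓ '' (F1 : Set (Fin q)))) (by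
            intro h
            exact hℓ f0 (congrArg Subtype.val h))).1 hR1
            ⟨ℓ i, Submodule.subset_span ⟨i, hi, rfl⟩⟩
        obtain ⟨t, ht⟩ := h2
        exact ⟨t, (congrArg Subtype.val ht).symm⟩
      have hfull : ∀ a, b.repr (ℓ f0) a ≠ 0 := by
        by_contra hcon
        push Not at hcon
        obtain ⟨a2, ha2⟩ := hcon
        obtain ⟨f, ⟨a0, ha0U, ha0⟩, a1, ha1U, ha1⟩ := Pool.Agent.W392.CG.cross ℓ b hr
          {a | b.repr (ℓ f0) a ≠ 0} (by
            by_contra hcon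
            apply hℓ f0
            have h1 : b.repr (ℓ f0) = 0 := by
              ext a
              by_contra hne
              exact hcon ⟨a, hne⟩
            exact (LinearEquiv.map_eq_zero_iff _).1 h1) ⟨a2, fun h => h ha2⟩
        have e' : a1 ≠ a0 := fun h => ha1U (by rw [h]; exact ha0U)
        obtain ⟨t, ht⟩ := hpar f (hno f a0 a1 ha0 e' ha1).1
        have h3 : b.repr (ℓ f0) a1 = 0 := by
          by_contra hne
          exact ha1U hne
        apply ha1
        rw [ht, map_smul, Finsupp.smul_apply, h3, smul_zero]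
      apply hG
      refine ⟨Fin.cons f0 B, ?_, ?_⟩
      · intro j
        refine Fin.cases ?_ (fun a0 => ?_) j
        · have h3 : (fun a => ℓ ((Fin.cons f0 B : Fin (n + 2) → Fin q) ((0 : Fin (n + 2)).succAbove a)))
              = fun a => b a := by
            funext a
            rw [Fin.succAbove_zero, Fin.cons_succ, hb]
          rw [h3]
          exact b.linearIndependent
        · have h4 := Pool.Agent.W392.CG.update_indep b (ℓ f0) a0 (hfull a0)
          let τ : Fin (n + 2) → Fin (n + 1) := Fin.cases a0 id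
          have hτ0 : τ 0 = a0 := rfl
          have hτs : ∀ x : Fin (n + 1), τ x.succ = x := fun x => rfl
          have hval : ∀ z : Fin (n + 2), z ≠ a0.succ →
              Function.update (fun a' => b a') a0 (ℓ f0) (τ z) =
                ℓ ((Fin.cons f0 B : Fin (n + 2) → Fin q) z) := by
            intro z
            refine Fin.cases ?_ (fun x => ?_) z
            · intro _
              rw [hτ0, Function.update_self, Fin.cons_zero]
            · intro hx
              have hx' : x ≠ a0 := fun h => hx (by rw [h])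
              rw [hτs, Function.update_of_ne hx', Fin.cons_succ, hb]
          have hinj : ∀ z z' : Fin (n + 2), z ≠ a0.succ → z' ≠ a0.succ → τ z = τ z' → z = z' := by
            intro z z'
            refine Fin.cases ?_ (fun x => ?_) z <;> refine Fin.cases ?_ (fun x' => ?_) z'
            · intro _ _ _
              rfl
            · intro _ h1 h2
              rw [hτ0, hτs] at h2
              exact absurd (by rw [h2]) h1
            · intro h1 _ h2
              rw [hτ0, hτs] at h2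
              exact absurd (by rw [h2]) h1
            · intro _ _ h2
              rw [hτs, hτs] at h2
              rw [h2]
          have h5 := h4.comp (fun a => τ (a0.succ.succAbove a)) (by
            intro a a' haa
            exact Fin.succAbove_right_injective
              (hinj _ _ (Fin.succAbove_ne _ _) (Fin.succAbove_ne _ _) haa))
          have h6 : (Function.update (fun a' => b a') a0 (ℓ f0)) ∘
              (fun a => τ (a0.succ.succAbove a)) =
              fun a => ℓ ((Fin.cons f0 B : Fin (n + 2) → Fin q) (a0.succ.succAbove a)) := by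
            funext a
            exact hval _ (Fin.succAbove_ne _ _)
          rw [h6] at h5
          exact h5
      · intro i
        by_cases hi : i ∈ F1
        · obtain ⟨t, ht⟩ := hpar i hi
          exact ⟨0, t, by rw [Fin.cons_zero]; exact ht⟩
        · obtain ⟨a, ha⟩ : ∃ a, b.repr (ℓ i) a ≠ 0 := by
            by_contra hcon
            push Not at hcon
            apply hℓ i
            have h1 : b.repr (ℓ i) = 0 := by
              ext a
              exact hcon a
            exact (LinearEquiv.map_eq_zero_iff _).1 h1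
          refine ⟨a.succ, b.repr (ℓ i) a, ?_⟩
          rw [Fin.cons_succ, ← hb]
          apply b.repr.injective
          ext a'
          rw [map_smul, Finsupp.smul_apply, b.repr_self, Finsupp.single_apply]
          by_cases haa : a = a'
          · rw [if_pos haa, haa, smul_eq_mul, mul_one]
          · rw [if_neg haa, smul_zero]
            by_contra hne
            exact hi (hno i a a' ha (fun h => haa h.symm) hne).1

end Pool.Agent.TH122.AB
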